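import Pool.Agent.H51.CI.Defs

/-!
# Module ASM: the base

Given for every closed set `A` an operator `R` as in `HasR`, we build the base of `X`. For
`N ∈ D.net n` and `U ⊇ N` open consider the open set `interior (R_N (U ∩ D.V n N))`.
`B n = {interior (R_N (U ∩ D.V n N)) | N ∈ D.net n, U open, N ⊆ U}`.
* Base: `x ∈ U`; take `N ∈ D.net n` with `x ∈ N ⊆ U`; then
  `x ∈ N ⊆ interior (R_N (U ∩ D.V n N)) ⊆ U`.
* `closure (interior (R_N W)) = R_N W` and `R_N W ⊆ D.V n N` for `W = U ∩ D.V n N`.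
* closure-preserving: let `𝒱 ⊆ B n` and `z ∉ ⋃ V ∈ 𝒱, closure V`. Some `O₁ ∋ z` meets at most one of the
  sets `D.V n N`, `N ∈ D.net n`, say `N₀`; let `O₂` be the neighbourhood given by `HasR` for `A = N₀`.
  Then `O₁ ∩ O₂` is disjoint from all `V ∈ 𝒱`.
-/

set_option autoImplicit false
open Topology Set

namespace Pool.Agent.H51.CI

/-- The closed set `A` has a closure-preserving outer network of regular closed
neighbourhoods. -/
def HasR {X : Type*} [TopologicalSpace X] (A : Set X) : Prop :=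
  ∃ R : Set X → Set X,
    (∀ U, IsOpen U → A ⊆ U → A ⊆ interior (R U) ∧ R U ⊆ U ∧ closure (interior (R U)) = R U) ∧
    ∀ z, ∃ O, IsOpen O ∧ z ∈ O ∧ ∀ U, IsOpen U → A ⊆ U → z ∉ R U → Disjoint (R U) O

theorem hasM1_of_hasR {X : Type*} [TopologicalSpace X] (D : Strat X)
    (h : ∀ A : Set X, IsClosed A → HasR A) : HasM1 X := by
  classical
  have h' : ∀ A : Set X, ∃ R : Set X → Set X, IsClosed A →
    (∀ U, IsOpen U → A ⊆ U → A ⊆ interior (R U) ∧ R U ⊆ U ∧ closure (interior (R U)) = R U) ∧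
    ∀ z, ∃ O, IsOpen O ∧ z ∈ O ∧ ∀ U, IsOpen U → A ⊆ U → z ∉ R U → Disjoint (R U) O := by
    intro A
    by_cases hA : IsClosed A
    · obtain ⟨R, hR⟩ := h A hA
      exact ⟨R, fun _ => hR⟩
    · exact ⟨fun _ => ∅, fun h => (hA h).elim⟩
  choose R hR using h'
  let B : ℕ → Set (Set X) := fun n =>
    {V | ∃ N ∈ D.net n, ∃ U, IsOpen U ∧ N ⊆ U ∧ V = interior (R N (U ∩ D.V n N))}
  refine ⟨B, ?_, ?_⟩
  · refine TopologicalSpace.isTopologicalBasis_of_isOpen_of_nhds ?_ ?_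
    · intro V hV
      obtain ⟨n, N, hN, U, hU, hNU, rfl⟩ := mem_iUnion.1 hV
      exact isOpen_interior
    · intro x U hx hU
      obtain ⟨n, N, hN, hxN, hNU⟩ := D.net_spec x U hU hx
      have hW : IsOpen (U ∩ D.V n N) := hU.inter (D.V_open n N hN)
      have hNW : N ⊆ U ∩ D.V n N := subset_inter hNU (D.V_sub n N hN)
      obtain ⟨r1, r2, r3⟩ := (hR N (D.net_closed n N hN)).1 _ hW hNW
      refine ⟨_, mem_iUnion.2 ⟨n, N, hN, U, hU, hNU, rfl⟩, r1 hxN, ?_⟩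
      exact interior_subset.trans (r2.trans inter_subset_left)
  · intro n 𝒱 h𝒱
    refine Subset.antisymm ?_ (iUnion₂_subset fun V hV => closure_mono (subset_sUnion_of_mem hV))
    intro z hz
    by_contra hcon
    obtain ⟨O₁, hO₁, hz₁, hV⟩ := D.V_disc n z
    -- the neighbourhood for the only relevant `N`
    have hO₂ : ∃ O₂, IsOpen O₂ ∧ z ∈ O₂ ∧ ∀ N ∈ D.net n, ∀ U, IsOpen U → N ⊆ U →
        z ∉ R N (U ∩ D.V n N) → Disjoint (R N (U ∩ D.V n N)) O₂ := by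
      by_cases hN : ∃ N₀ ∈ D.net n, (D.V n N₀ ∩ O₁).Nonempty
      · obtain ⟨N₀, hN₀, hne⟩ := hN
        obtain ⟨O₂, hO₂, hz₂, hcp⟩ := (hR N₀ (D.net_closed n N₀ hN₀)).2 z
        refine ⟨O₁ ∩ O₂, hO₁.inter hO₂, ⟨hz₁, hz₂⟩, fun N hN U hU hNU hzR => ?_⟩
        have hW : IsOpen (U ∩ D.V n N) := hU.inter (D.V_open n N hN)
        have hNW : N ⊆ U ∩ D.V n N := subset_inter hNU (D.V_sub n N hN)
        obtain ⟨r1, r2, r3⟩ := (hR N (D.net_closed n N hN)).1 _ hW hNW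
        rw [disjoint_left]
        rintro x hx ⟨hx1, hx2⟩
        have : N = N₀ := hV N hN N₀ hN₀ ⟨x, (r2 hx).2, hx1⟩ hne
        subst this
        exact disjoint_left.1 (hcp _ hW hNW hzR) hx hx2
      · refine ⟨O₁, hO₁, hz₁, fun N hN' U hU hNU hzR => ?_⟩
        have hW : IsOpen (U ∩ D.V n N) := hU.inter (D.V_open n N hN')
        have hNW : N ⊆ U ∩ D.V n N := subset_inter hNU (D.V_sub n N hN')
        obtain ⟨r1, r2, r3⟩ := (hR N (D.net_closed n N hN')).1 _ hW hNW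
        rw [disjoint_left]
        intro x hx hx1
        exact hN ⟨N, hN', x, (r2 hx).2, hx1⟩
    obtain ⟨O₂, hO₂, hz₂, hcp⟩ := hO₂
    obtain ⟨x, hxO, V, hV𝒱, hxV⟩ := mem_closure_iff.1 hz O₂ hO₂ hz₂
    obtain ⟨N, hN, U, hU, hNU, rfl⟩ := h𝒱 hV𝒱
    have hW : IsOpen (U ∩ D.V n N) := hU.inter (D.V_open n N hN)
    have hNW : N ⊆ U ∩ D.V n N := subset_inter hNU (D.V_sub n N hN)
    obtain ⟨r1, r2, r3⟩ := (hR N (D.net_closed n N hN)).1 _ hW hNW
    have hzR : z ∉ R N (U ∩ D.V n N) := by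
      intro hzR
      refine hcon (mem_iUnion₂.2 ⟨_, hV𝒱, ?_⟩)
      rw [r3]
      exact hzR
    exact disjoint_left.1 (hcp N hN U hU hNU hzR) (interior_subset hxV) hxO

end Pool.Agent.H51.CI
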