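import Pool.Agent.H51.CI.Defs

/-!
# Module CC: countable closures from an omega^omega base

`U φ` (`φ : ℕ → ℕ`) is a neighbourhood base at `p`, antitone in `φ`. `Z` is a closed set with a
countable network `N i` of closed sets (network at the points of `Z`). If `A ⊆ Z` is a countable
set and `p ∈ closure A` then `p ∈ closure E` for some `E ⊆ A` with countable closure.

Proof. For a finite sequence `t` (use `List ℕ`, or pairs `(φ, m)` standing for `φ|m`) let
`D t = ⋂ {U φ : φ extends t}`.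
Notation `φ ∈ [φ₀|m]` : `∀ i < m, φ i = φ₀ i`. Let `D φ₀ m = {x | ∀ φ, (∀ i < m, φ i = φ₀ i) → x ∈ U φ}`.
(0) for every `φ` there is `m` with `(A ∩ D φ m).Nonempty`. Suppose not for `φ`. Enumerate
`A = {x j}`. `x j ∉ D φ j` gives `φ j` which agrees with `φ` below `j` and `x j ∉ U (φ j)`. Let
`ψ i = sup_j (φ j) i` (a finite supremum as `(φ j) i = φ i` for `j > i`). `U ψ ⊆ U (φ j)` for
all `j`, so `A ∩ U ψ = ∅`, contradicting `p ∈ closure A`.
(1) A set `E` is `(φ₀,m)`-large if `(E ∩ U φ).Nonempty` for all `φ` with `∀ i < m, φ i = φ₀ i`.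
If `E ∪ E'` is large then `E` or `E'` is large (take the pointwise maximum of two witnesses).
`E` is `(φ₀,0)`-large iff `p ∈ closure E`.
(2) Claim `(φ₀,m)`: there is a `(φ₀,m)`-large `E ⊆ A` with countable closure. If
`(A ∩ D φ₀ m).Nonempty` the claim holds (`E` = one point).
(3) Step: if for all `j` the claim holds for `(Function.update φ₀ m j, m+1)` then it holds for
`(φ₀,m)`. Let `E j` be the sets given by the claims. Process `i = 0, 1, 2, …`: state: an infinite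
set `J i ⊆ ℕ` and sets `E i j ⊆ E j` (`j ∈ J i`), `E i j` is `(update φ₀ m j, m+1)`-large. If there is
an open `W ⊇ N i` such that `E i j ∖ W` is large for infinitely many `j ∈ J i`, let `J (i+1)` be the set
of these `j` and `E (i+1) j = E i j ∖ W`. Otherwise (`N i` is *attracting*) nothing is changed.
Choose `j 0 < j 1 < …`, `j i ∈ J (i+1)`, and `E = ⋃ i, E (i+1) (j i)`.
 * `E` is `(φ₀,m)`-large: given `φ`, choose `i` with `j i ≥ φ m`, and
   `φ' = update φ m (j i) ≥ φ`.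
 * At most one point `z ∈ Z` has all `N i ∋ z` attracting: for `z ≠ z'` take disjoint open sets
   `W ∋ z`, `W' ∋ z'` and attracting `N i ⊆ W`, `N i' ⊆ W'`, `i, i' ≤ k`; for all but finitely many
   `j ∈ J k` neither `E k j ∖ W` nor `E k j ∖ W'` is large (subsets of `E i j ∖ W`, `E i' j ∖ W'`), but
   `E k j` is the union of these two sets, contradicting (1).
 * if `z ∈ N i` and `N i` is not attracting then the open set `W ⊇ N i` is disjoint from
   `E (k+1) (j k)` for all `k ≥ i`; so `z ∈ closure E` implies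
   `z ∈ closure (E (k+1) (j k))` for some `k < i`. So
   `closure E ⊆ ⋃ k, closure (E (k+1) (j k)) ∪ {z₀}` is countable.
(4) If the claim fails for `(φ₀,0)` then by (3) we find `φ` such that the claim fails for `(φ,m)` for
all `m`, contradicting (0) and (2).
-/

set_option autoImplicit false
open Topology Set

namespace Pool.Agent.H51.CI

namespace CCb

variable {X : Type*}

/-- Large sets. -/
def Large (U : (ℕ → ℕ) → Set X) (φ₀ : ℕ → ℕ) (m : ℕ) (E : Set X) : Prop :=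
  ∀ φ : ℕ → ℕ, (∀ i < m, φ i = φ₀ i) → (E ∩ U φ).Nonempty

lemma Large.mono {U : (ℕ → ℕ) → Set X} {φ₀ : ℕ → ℕ} {m : ℕ} {E E' : Set X}
    (h : Large U φ₀ m E) (hE : E ⊆ E') : Large U φ₀ m E' :=
  fun φ hφ => (h φ hφ).mono (inter_subset_inter_left _ hE)

lemma Large.congr {U : (ℕ → ℕ) → Set X} {φ₀ φ₁ : ℕ → ℕ} {m : ℕ} {E : Set X}
    (h : Large U φ₀ m E) (hφ : ∀ i < m, φ₁ i = φ₀ i) : Large U φ₁ m E :=
  fun φ h' => h φ fun i hi => (h' i hi).trans (hφ i hi)

lemma Large.union {U : (ℕ → ℕ) → Set X} (hanti : ∀ φ ψ, φ ≤ ψ → U ψ ⊆ U φ)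
    {φ₀ : ℕ → ℕ} {m : ℕ} {E E' : Set X} (h : Large U φ₀ m (E ∪ E')) :
    Large U φ₀ m E ∨ Large U φ₀ m E' := by
  by_contra hcon
  simp only [Large, not_or, not_forall, not_nonempty_iff_eq_empty] at hcon
  obtain ⟨⟨φ, h1, h2⟩, φ', h1', h2'⟩ := hcon
  obtain ⟨x, hx, hxU⟩ := h (fun i => max (φ i) (φ' i)) (fun i hi => by
    simp only [h1 i hi, h1' i hi, max_self])
  have hx1 : x ∈ U φ := hanti _ _ (fun i => le_max_left _ _) hxU
  have hx2 : x ∈ U φ' := hanti _ _ (fun i => le_max_right _ _) hxU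
  rcases hx with hx | hx
  · have : x ∈ E ∩ U φ := ⟨hx, hx1⟩
    rw [h2] at this
    exact this
  · have : x ∈ E' ∩ U φ' := ⟨hx, hx2⟩
    rw [h2'] at this
    exact this

variable [TopologicalSpace X]

/-- (0) -/
lemma exists_mem {U : (ℕ → ℕ) → Set X} (hanti : ∀ φ ψ, φ ≤ ψ → U ψ ⊆ U φ) {p : X}
    (hU : ∀ φ, U φ ∈ 𝓝 p) {A : Set X} (hAc : A.Countable) (hp : p ∈ closure A) (φ : ℕ → ℕ) :
    ∃ m, ∃ x ∈ A, ∀ ψ : ℕ → ℕ, (∀ i < m, ψ i = φ i) → x ∈ U ψ := by
  by_contra hcon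
  push Not at hcon
  have hne : A.Nonempty := closure_nonempty_iff.1 ⟨p, hp⟩
  obtain ⟨f, rfl⟩ := hAc.exists_eq_range hne
  choose ψ h1 h2 using fun j => hcon j (f j) ⟨j, rfl⟩
  let Ψ : ℕ → ℕ := fun i => (Finset.range (i + 1)).sup (fun j => ψ j i) + φ i
  have hle : ∀ j, ψ j ≤ Ψ := by
    intro j i
    by_cases hji : j ≤ i
    · have : ψ j i ≤ (Finset.range (i + 1)).sup (fun j => ψ j i) :=
        Finset.le_sup (f := fun j => ψ j i) (Finset.mem_range.2 (by omega))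
      change ψ j i ≤ (Finset.range (i + 1)).sup (fun j => ψ j i) + φ i
      omega
    · rw [h1 j i (by omega)]
      exact Nat.le_add_left _ _
  obtain ⟨x, hxU, j, rfl⟩ := mem_closure_iff_nhds.1 hp (U Ψ) (hU Ψ)
  exact h2 j (hanti _ _ (hle j) hxU)

section Fusion

variable (Lg : ℕ → Set X → Prop)

/-- The states of the fusion. -/
def St : Type _ := {s : Set ℕ × (ℕ → Set X) // s.1.Infinite ∧ ∀ j ∈ s.1, Lg j (s.2 j)}

variable {Lg}

lemma exists_step (N : Set X) (s : St Lg) : ∃ s' : St Lg, s'.1.1 ⊆ s.1.1 ∧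
    (∀ j, s'.1.2 j ⊆ s.1.2 j) ∧
    ((∃ W, IsOpen W ∧ N ⊆ W ∧ ∀ j, Disjoint (s'.1.2 j) W) ∨
      (∀ W, IsOpen W → N ⊆ W → {j | j ∈ s.1.1 ∧ Lg j (s.1.2 j \ W)}.Finite)) := by
  by_cases h : ∀ W, IsOpen W → N ⊆ W → {j | j ∈ s.1.1 ∧ Lg j (s.1.2 j \ W)}.Finite
  · exact ⟨s, Subset.rfl, fun _ => Subset.rfl, Or.inr h⟩
  · push Not at h
    obtain ⟨W, h1, h2, h3⟩ := h
    refine ⟨⟨({j | j ∈ s.1.1 ∧ Lg j (s.1.2 j \ W)}, fun j => s.1.2 j \ W), h3,
      fun j hj => hj.2⟩, fun j hj => hj.1, fun j => sdiff_subset, Or.inl ⟨W, h1, h2, fun j => ?_⟩⟩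
    exact disjoint_sdiff_left

end Fusion

/-- (3) -/
lemma step [T2Space X] {Z : Set X} (hZ : IsClosed Z) {N : ℕ → Set X}
    (hN : ∀ z ∈ Z, ∀ U, IsOpen U → z ∈ U → ∃ n, z ∈ N n ∧ N n ⊆ U)
    {U : (ℕ → ℕ) → Set X} (hanti : ∀ φ ψ, φ ≤ ψ → U ψ ⊆ U φ)
    {A : Set X} (hAZ : A ⊆ Z) (φ₀ : ℕ → ℕ) (m : ℕ)
    (h : ∀ j, ∃ E ⊆ A, Large U (Function.update φ₀ m j) (m + 1) E ∧ (closure E).Countable) :
    ∃ E ⊆ A, Large U φ₀ m E ∧ (closure E).Countable := by
  classical
  choose E₀ hE₀A hE₀L hE₀c using h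
  let Lg : ℕ → Set X → Prop := fun j S => Large U (Function.update φ₀ m j) (m + 1) S
  let s₀ : St Lg := ⟨(univ, E₀), infinite_univ, fun j _ => hE₀L j⟩
  choose stp st1 st2 st3 using fun i (s : St Lg) => exists_step (N i) s
  let st : ℕ → St Lg := fun n => Nat.rec s₀ (fun n s => stp n s) n
  have hst : ∀ n, st (n + 1) = stp n (st n) := fun _ => rfl
  let J : ℕ → Set ℕ := fun n => (st n).1.1
  let E : ℕ → ℕ → Set X := fun n => (st n).1.2
  have hJinf : ∀ n, (J n).Infinite := fun n => (st n).2.1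
  have hEL : ∀ n, ∀ j ∈ J n, Lg j (E n j) := fun n => (st n).2.2
  have hJ : ∀ n, J (n + 1) ⊆ J n := fun n => st1 n (st n)
  have hE : ∀ n j, E (n + 1) j ⊆ E n j := fun n => st2 n (st n)
  have hJm : ∀ n n', n ≤ n' → J n' ⊆ J n := fun n n' h =>
    antitone_nat_of_succ_le (f := J) (fun n => hJ n) h
  have hEm : ∀ j n n', n ≤ n' → E n' j ⊆ E n j := fun j n n' h =>
    antitone_nat_of_succ_le (f := fun n => E n j) (fun n => hE n j) h
  have hdich : ∀ n, (∃ W, IsOpen W ∧ N n ⊆ W ∧ ∀ j, Disjoint (E (n + 1) j) W) ∨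
      (∀ W, IsOpen W → N n ⊆ W → {j | j ∈ J n ∧ Lg j (E n j \ W)}.Finite) :=
    fun n => st3 n (st n)
  choose jj hjJ hjk using fun k => (hJinf (k + 1)).exists_gt k
  -- the points whose network elements are all attracting
  let Za : Set X := {z | z ∈ Z ∧ ∀ i, z ∈ N i →
    ∀ W, IsOpen W → N i ⊆ W → {j | j ∈ J i ∧ Lg j (E i j \ W)}.Finite}
  have hZa : Za.Subsingleton := by
    rintro z ⟨hzZ, hz⟩ z' ⟨hzZ', hz'⟩
    by_contra hne
    obtain ⟨W, W', hW, hW', hzW, hzW', hd⟩ := t2_separation hne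
    obtain ⟨i, hi, hiW⟩ := hN z hzZ W hW hzW
    obtain ⟨i', hi', hiW'⟩ := hN z' hzZ' W' hW' hzW'
    have f1 := hz i hi W hW hiW
    have f2 := hz' i' hi' W' hW' hiW'
    obtain ⟨j, hj, hj'⟩ := ((hJinf (max i i')).sdiff (f1.union f2)).nonempty
    have hL : Lg j (E (max i i') j) := hEL _ j hj
    have hun : E (max i i') j ⊆ (E (max i i') j \ W) ∪ (E (max i i') j \ W') := by
      intro x hx
      by_cases hxW : x ∈ W
      · exact Or.inr ⟨hx, fun h => disjoint_left.1 hd hxW h⟩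
      · exact Or.inl ⟨hx, hxW⟩
    rcases Large.union hanti (hL.mono hun) with h | h
    · refine hj' (Or.inl ⟨hJm _ _ (le_max_left _ _) hj, ?_⟩)
      exact Large.mono h (sdiff_subset_sdiff_left (hEm j _ _ (le_max_left _ _)))
    · refine hj' (Or.inr ⟨hJm _ _ (le_max_right _ _) hj, ?_⟩)
      exact Large.mono h (sdiff_subset_sdiff_left (hEm j _ _ (le_max_right _ _)))
  have hEA : ∀ n j, E n j ⊆ E₀ j := fun n j => hEm j 0 n (Nat.zero_le n)
  refine ⟨⋃ k, E (k + 1) (jj k), iUnion_subset fun k => (hEA (k + 1) (jj k)).trans (hE₀A (jj k)),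
    fun φ hφ => ?_, ?_⟩
  · have hk : φ m ≤ jj (φ m) := (hjk (φ m)).le
    obtain ⟨x, hx, hxU⟩ := hEL (φ m + 1) (jj (φ m)) (hjJ (φ m))
      (Function.update φ m (jj (φ m))) (fun i hi => by
        by_cases him : i = m
        · subst him; simp
        · rw [Function.update_of_ne him, Function.update_of_ne him]
          exact hφ i (by omega))
    refine ⟨x, mem_iUnion.2 ⟨φ m, hx⟩, hanti _ _ (fun i => ?_) hxU⟩
    by_cases him : i = m
    · subst him; simpa using hk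
    · rw [Function.update_of_ne him]
  · have hsub : closure (⋃ k, E (k + 1) (jj k)) ⊆
        Za ∪ ⋃ k, closure (E₀ (jj k)) := by
      intro z hz
      by_cases hza : z ∈ Za
      · exact Or.inl hza
      right
      have hzZ : z ∈ Z := closure_minimal
        (iUnion_subset fun k => ((hEA (k + 1) (jj k)).trans (hE₀A (jj k))).trans hAZ) hZ hz
      have : ∃ i, z ∈ N i ∧ ¬ ∀ W, IsOpen W → N i ⊆ W →
          {j | j ∈ J i ∧ Lg j (E i j \ W)}.Finite := by
        by_contra hcon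
        push Not at hcon
        refine hza ⟨hzZ, fun i hi W hW hNW => ?_⟩
        exact hcon i hi W hW hNW
      obtain ⟨i, hzi, hna⟩ := this
      rcases hdich i with ⟨W, hW, hNW, hd⟩ | h
      swap
      · exact (hna h).elim
      have hsub2 : (⋃ k, E (k + 1) (jj k)) ⊆
          (⋃ k ∈ Finset.range i, E (k + 1) (jj k)) ∪ Wᶜ := by
        refine iUnion_subset fun k x hx => ?_
        by_cases hk : k < i
        · exact Or.inl (mem_iUnion₂.2 ⟨k, Finset.mem_range.2 hk, hx⟩)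
        · right
          intro hxW
          exact disjoint_left.1 (hd (jj k)) (hEm _ (i + 1) (k + 1) (by omega) hx) hxW
      have hz2 := closure_mono hsub2 hz
      rw [closure_union, hW.isClosed_compl.closure_eq] at hz2
      rcases hz2 with hz2 | hz2
      · have hfin : closure (⋃ k ∈ Finset.range i, E (k + 1) (jj k)) =
            ⋃ k ∈ Finset.range i, closure (E (k + 1) (jj k)) :=
          Finset.closure_biUnion _ _
        rw [hfin] at hz2
        obtain ⟨k, _, hk⟩ := mem_iUnion₂.1 hz2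
        exact mem_iUnion.2 ⟨k, closure_mono (hEA (k + 1) (jj k)) hk⟩
      · exact (hz2 (hNW hzi)).elim
    refine Countable.mono hsub (hZa.countable.union ?_)
    exact countable_iUnion fun k => hE₀c _

end CCb

open CCb in
theorem exists_countable_closure {X : Type*} [TopologicalSpace X] [T2Space X]
    (Z : Set X) (hZ : IsClosed Z) (N : ℕ → Set X)
    (hN : ∀ z ∈ Z, ∀ U, IsOpen U → z ∈ U → ∃ n, z ∈ N n ∧ N n ⊆ U)
    (p : X) (U : (ℕ → ℕ) → Set X) (hU : ∀ φ, U φ ∈ 𝓝 p) (hbase : ∀ V ∈ 𝓝 p, ∃ φ, U φ ⊆ V)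
    (hanti : ∀ φ ψ, φ ≤ ψ → U ψ ⊆ U φ)
    (A : Set X) (hAc : A.Countable) (hAZ : A ⊆ Z) (hp : p ∈ closure A) :
    ∃ E ⊆ A, p ∈ closure E ∧ (closure E).Countable := by
  classical
  let Ok : (ℕ → ℕ) → ℕ → Prop := fun φ₀ m => ∃ E ⊆ A, Large U φ₀ m E ∧ (closure E).Countable
  have hstep : ∀ φ₀ m, (∀ j, Ok (Function.update φ₀ m j) (m + 1)) → Ok φ₀ m :=
    fun φ₀ m h => step hZ hN hanti hAZ φ₀ m h
  have hstep' : ∀ φ₀ m, ∃ j, ¬ Ok φ₀ m → ¬ Ok (Function.update φ₀ m j) (m + 1) := by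
    intro φ₀ m
    by_cases h : Ok φ₀ m
    · exact ⟨0, fun h' => (h' h).elim⟩
    · by_contra hcon
      push Not at hcon
      exact h (hstep φ₀ m fun j => (hcon j).2)
  choose jj hjj using hstep'
  suffices hok : Ok (fun _ => 0) 0 by
    obtain ⟨E, hEA, hEL, hEc⟩ := hok
    refine ⟨E, hEA, ?_, hEc⟩
    rw [mem_closure_iff_nhds]
    intro V hV
    obtain ⟨φ, hφ⟩ := hbase V hV
    obtain ⟨x, hx, hxU⟩ := hEL φ (fun i hi => by omega)
    exact ⟨x, hφ hxU, hx⟩
  by_contra hcon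
  let s : ℕ → ℕ → ℕ := fun n =>
    Nat.rec (fun _ => 0) (fun n φ => Function.update φ n (jj φ n)) n
  have hs : ∀ n, s (n + 1) = Function.update (s n) n (jj (s n) n) := fun _ => rfl
  have hfail : ∀ n, ¬ Ok (s n) n := by
    intro n
    induction n with
    | zero => exact hcon
    | succ n ih => rw [hs]; exact hjj _ _ ih
  have hagree : ∀ i n, i < n → s n i = s (i + 1) i := by
    intro i n hin
    induction n with
    | zero => omega
    | succ n ih =>
      by_cases h : i = n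
      · subst h; rfl
      · rw [hs, Function.update_of_ne h]
        exact ih (by omega)
  obtain ⟨m, x, hxA, hx⟩ := exists_mem hanti hU hAc hp (fun i => s (i + 1) i)
  refine hfail m ⟨{x}, by simpa using hxA, fun φ hφ => ⟨x, rfl, hx φ fun i hi => ?_⟩, ?_⟩
  · rw [hφ i hi, hagree i m hi]
  · rw [isClosed_singleton.closure_eq]
    exact countable_singleton x

end Pool.Agent.H51.CI
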