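import Pool.Agent.H51.CI.WB
import Pool.Agent.H51.CK.Main

/-!
# Module CKW: omega^omega bases in `C(P, ℝ)`

Let `P` be Polish and nonempty (for `P` empty `C(P, ℝ)` is a singleton), `x = denseSeq P` for an
upgraded complete metric (`upgradeIsCompletelyMetrizable`). For `ψ : ℕ → ℕ` let
`hat ψ i = sup_{j ≤ i} ψ j` (monotone function, monotone in `ψ`) and
`U ψ = {h | ∀ z ∈ CK.K x (hat (ψ ∘ succ)), |h z - f z| < 1 / (ψ 0 + 1)}`.
`CK.isCompact_K`, `CK.exists_subset_K` (see Compact.lean), `CK.nhd_compact_mem`,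
`CK.exists_nhd_compact` (see Sep.lean); `CK.K x φ ⊆ CK.K x φ'` for `φ ≤ φ'` as `T x φ ⊆ T x φ'`.
-/

set_option autoImplicit false
open Topology Set

namespace Pool.Agent.H51.CI

lemma K_mono {P : Type*} [MetricSpace P] (x : ℕ → P) {φ φ' : ℕ → ℕ} (h : φ ≤ φ') :
    CK.K x φ ⊆ CK.K x φ' := by
  refine closure_mono (image_mono ?_)
  rintro a ⟨h1, h2⟩
  exact ⟨h1, fun k hk => (h2 k hk).trans (h k)⟩

/-- The monotone hull of a function. -/
def hat (ψ : ℕ → ℕ) (i : ℕ) : ℕ := (Finset.range (i + 1)).sup ψ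

lemma hat_monotone (ψ : ℕ → ℕ) : Monotone (hat ψ) := fun i j hij =>
  Finset.sup_mono (Finset.range_mono (by omega))

lemma hat_mono {ψ ψ' : ℕ → ℕ} (h : ψ ≤ ψ') : hat ψ ≤ hat ψ' := fun _ =>
  Finset.sup_mono_fun fun j _ => h j

lemma le_hat (ψ : ℕ → ℕ) : ψ ≤ hat ψ := fun i =>
  Finset.le_sup (f := ψ) (Finset.mem_range.2 (by omega))

lemma hasWB_metric (P : Type*) [MetricSpace P] [CompleteSpace P]
    [TopologicalSpace.SeparableSpace P] [Nonempty P] (f : C(P, ℝ)) : HasWB f := by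
  let x : ℕ → P := TopologicalSpace.denseSeq P
  have hx : DenseRange x := TopologicalSpace.denseRange_denseSeq P
  refine ⟨fun ψ => {h | ∀ z ∈ CK.K x (hat fun n => ψ (n + 1)), |h z - f z| < 1 / ((ψ 0 : ℝ) + 1)},
    fun ψ => ?_, fun V hV => ?_, fun φ ψ hφψ h hh z hz => ?_⟩
  · exact CK.nhd_compact_mem f (CK.isCompact_K hx (hat_monotone _)) (by positivity)
  · obtain ⟨L, hL, ε, hε, hsub⟩ := CK.exists_nhd_compact hV
    obtain ⟨n, hn⟩ := exists_nat_one_div_lt hε
    obtain ⟨φ, hφ, hLφ⟩ := CK.exists_subset_K hx hL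
    refine ⟨fun k => Nat.casesOn k n φ, fun h hh => hsub fun z hz => ?_⟩
    have := hh z (K_mono x (le_hat φ) (hLφ hz))
    exact lt_trans this hn
  · have h1 := hh z (K_mono x (hat_mono fun n => hφψ (n + 1)) hz)
    have h0 : (φ 0 : ℝ) ≤ ψ 0 := by exact_mod_cast hφψ 0
    refine lt_of_lt_of_le h1 (one_div_le_one_div_of_le (by positivity) (by linarith))

theorem hasWB_C (P : Type*) [TopologicalSpace P] [PolishSpace P] (f : C(P, ℝ)) : HasWB f := by
  rcases isEmpty_or_nonempty P with hP | hP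
  · have : Subsingleton C(P, ℝ) := ⟨fun f g => ContinuousMap.ext fun z => (hP.false z).elim⟩
    refine ⟨fun _ => univ, fun _ => Filter.univ_mem, fun V hV => ⟨fun _ => 0, fun g _ => ?_⟩,
      fun _ _ _ => Subset.rfl⟩
    have : g = f := Subsingleton.elim g f
    rw [this]
    exact mem_of_mem_nhds hV
  · let := TopologicalSpace.upgradeIsCompletelyMetrizable P
    exact hasWB_metric P f

theorem separable_C (P : Type*) [TopologicalSpace P] [PolishSpace P] :
    TopologicalSpace.SeparableSpace C(P, ℝ) := CK.separable P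

end Pool.Agent.H51.CI
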