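import Pool.Agent.H51.CI.Defs

/-!
# The structure of a closed subspace
-/

set_option autoImplicit false
open Topology Set

namespace Pool.Agent.H51.CI

theorem exists_closedSub {X : Type*} [TopologicalSpace X] (D : Strat X) (Y : Set X)
    (hY : IsClosed Y) : Nonempty (Strat Y) := by
  classical
  have hcm : IsClosedMap (Subtype.val : Y → X) := hY.isClosedEmbedding_subtypeVal.isClosedMap
  have hcd : ∀ Z : Set Y, CDisc Z → CDisc ((Subtype.val : Y → X) '' Z) := by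
    intro Z hZ F hF
    have : F = (Subtype.val : Y → X) '' ((Subtype.val : Y → X) ⁻¹' F) := by
      rw [Subtype.image_preimage_coe, inter_eq_right.2]
      exact fun x hx => by obtain ⟨y, _, rfl⟩ := hF hx; exact y.2
    rw [this]
    refine hcm _ (hZ _ fun y hy => ?_)
    obtain ⟨y', hy', e⟩ := hF hy
    rwa [← Subtype.ext e]
  have hexp : ∀ Z : Set Y, ∃ W : X → Set X, CDisc Z →
      (∀ x ∈ (Subtype.val : Y → X) '' Z, IsOpen (W x) ∧ x ∈ W x) ∧
      ∀ z, ∃ O, IsOpen O ∧ z ∈ O ∧ ∀ x ∈ (Subtype.val : Y → X) '' Z,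
        ∀ x' ∈ (Subtype.val : Y → X) '' Z,
        (W x ∩ O).Nonempty → (W x' ∩ O).Nonempty → x = x' := by
    intro Z
    by_cases hZ : CDisc Z
    · obtain ⟨W, hW⟩ := D.exp _ (hcd Z hZ)
      exact ⟨W, fun _ => hW⟩
    · exact ⟨fun _ => ∅, fun h => (hZ h).elim⟩
  refine ⟨{
    net := fun n => {M | ∃ N ∈ D.net n, M = (Subtype.val : Y → X) ⁻¹' N}
    net_closed := fun n M hM => ?_
    net_spec := fun x U hU hx => ?_
    V := fun n M => ⋃ N ∈ {N | N ∈ D.net n ∧ (Subtype.val : Y → X) ⁻¹' N = M},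
      (Subtype.val : Y → X) ⁻¹' (D.V n N)
    V_open := fun n M hM => isOpen_biUnion fun N hN =>
      (D.V_open n N hN.1).preimage continuous_subtype_val
    V_sub := fun n M hM => ?_
    V_disc := fun n z => ?_
    T := fun C y => (Subtype.val : Y → X) ⁻¹' (D.T ((Subtype.val : Y → X) '' C) y)
    T_tn := fun C hC => ?_
    g := fun n y => (Subtype.val : Y → X) ⁻¹' (D.g n y)
    g_open := fun n y => (D.g_open n y).preimage continuous_subtype_val
    g_self := fun n y => D.g_self n y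
    g_spec := fun K z hK hz => ?_
    exp := fun Z hZ => ?_ }⟩
  · obtain ⟨N, hN, rfl⟩ := hM
    exact (D.net_closed n N hN).preimage continuous_subtype_val
  · obtain ⟨U', hU', rfl⟩ := isOpen_induced_iff.1 hU
    obtain ⟨n, N, hN, hxN, hNU⟩ := D.net_spec x U' hU' hx
    exact ⟨n, _, ⟨N, hN, rfl⟩, hxN, preimage_mono hNU⟩
  · obtain ⟨N, hN, rfl⟩ := hM
    exact fun y hy => mem_iUnion₂.2 ⟨N, ⟨hN, rfl⟩, D.V_sub n N hN hy⟩
  · obtain ⟨O, hO, hz, h⟩ := D.V_disc n z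
    refine ⟨(Subtype.val : Y → X) ⁻¹' O, hO.preimage continuous_subtype_val, hz,
      fun M hM M' hM' h1 h2 => ?_⟩
    obtain ⟨y, hy, hyO⟩ := h1
    obtain ⟨y', hy', hyO'⟩ := h2
    obtain ⟨N, ⟨hN, rfl⟩, hyN⟩ := mem_iUnion₂.1 hy
    obtain ⟨N', ⟨hN', rfl⟩, hyN'⟩ := mem_iUnion₂.1 hy'
    rw [h N hN N' hN' ⟨y, hyN, hyO⟩ ⟨y', hyN', hyO'⟩]
  · have hC' : IsClosed ((Subtype.val : Y → X) '' C) := hcm _ hC
    have hT := D.T_tn _ hC'
    have hmem : ∀ y : Y, y ∉ C → (y : X) ∉ (Subtype.val : Y → X) '' C := by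
      rintro y hy ⟨y', hy', e⟩
      rw [Subtype.ext e] at hy'
      exact hy hy'
    refine ⟨fun y hy => (hT.isOpen y (hmem y hy)).preimage continuous_subtype_val,
      fun y hy => hT.self y (hmem y hy), fun y hy => ?_, fun y hy y' hy' => ?_,
      fun a ha D' hD' haD => ?_⟩
    · rw [disjoint_left]
      intro w hw hwC
      exact disjoint_left.1 (hT.disj y (hmem y hy)) hw ⟨w, hwC, rfl⟩
    · exact preimage_mono (hT.trans y (hmem y hy) y' hy')
    · have h1 : (a : X) ∉ closure ((Subtype.val : Y → X) '' D') := by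
        rwa [closure_subtype] at haD
      have h2 := hT.pw a ⟨a, ha, rfl⟩ ((Subtype.val : Y → X) '' D') (by
        rw [disjoint_left]
        rintro _ ⟨y, hy, rfl⟩ hyC
        exact hmem y (fun h => disjoint_left.1 hD' hy h) hyC) h1
      rw [closure_subtype]
      refine fun h => h2 (closure_mono ?_ h)
      rintro _ ⟨w, hw, rfl⟩
      obtain ⟨y, hy, hwy⟩ := mem_iUnion₂.1 hw
      exact mem_iUnion₂.2 ⟨y, ⟨y, hy, rfl⟩, hwy⟩
  · obtain ⟨n, O, hO, hzO, hg⟩ := D.g_spec ((Subtype.val : Y → X) '' K) z (hcm _ hK) (by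
      rintro ⟨y', hy', e⟩
      rw [Subtype.ext e] at hy'
      exact hz hy')
    refine ⟨n, (Subtype.val : Y → X) ⁻¹' O, hO.preimage continuous_subtype_val, hzO,
      fun y hy m hm => ?_⟩
    exact (hg y ⟨y, hy, rfl⟩ m hm).preimage _
  · obtain ⟨W, hW⟩ := hexp Z
    obtain ⟨h1, h2⟩ := hW hZ
    refine ⟨fun y => (Subtype.val : Y → X) ⁻¹' (W y), fun y hy =>
      ⟨(h1 y ⟨y, hy, rfl⟩).1.preimage continuous_subtype_val, (h1 y ⟨y, hy, rfl⟩).2⟩,
      fun z => ?_⟩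
    obtain ⟨O, hO, hz, h⟩ := h2 z
    refine ⟨(Subtype.val : Y → X) ⁻¹' O, hO.preimage continuous_subtype_val, hz,
      fun x hx x' hx' h1 h2 => ?_⟩
    obtain ⟨y, hy, hyO⟩ := h1
    obtain ⟨y', hy', hyO'⟩ := h2
    exact Subtype.ext (h x ⟨x, hx, rfl⟩ x' ⟨x', hx', rfl⟩ ⟨y, hy, hyO⟩ ⟨y', hy', hyO'⟩)

end Pool.Agent.H51.CI
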