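import Mathlib

/-!
# Stratifiable spaces and closed images: definitions

`HasCPNet`: closed network which is a countable union of closure-preserving families.
`HasM2`: closed quasi-base which is a countable union of closure-preserving families.
`HasTN`: every closed set has a transitive neighbornet.
`HasMN`: monotone normality operator.
`CDisc`: closed discrete sets.
`HasCD`: every point in the closure of a set is in the closure of a subset whose closure is a
countable union of closed discrete sets.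
`HasPS`: every point `p` in the closure of a set `A` has a closure-preserving local network whose
members are closures of subsets of `A`.
`HasM1`: base of open sets which is a countable union of closure-preserving families.
`Strat`: the chosen structure with which we work.
-/

set_option autoImplicit false
open Topology Set

namespace Pool.Agent.H51.CI

/-- `X` has a network of closed sets which is a countable union of closure-preserving
families. -/
def HasCPNet (X : Type*) [TopologicalSpace X] : Prop :=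
  ∃ F : ℕ → Set (Set X), (∀ n, ∀ 𝒱 ⊆ F n, IsClosed (⋃₀ 𝒱)) ∧
    ∀ (x : X) (U : Set X), IsOpen U → x ∈ U → ∃ n, ∃ N ∈ F n, x ∈ N ∧ N ⊆ U

/-- `X` has a quasi-base of closed sets which is a countable union of closure-preserving
families. -/
def HasM2 (X : Type*) [TopologicalSpace X] : Prop :=
  ∃ B : ℕ → Set (Set X), (∀ n, ∀ 𝒱 ⊆ B n, IsClosed (⋃₀ 𝒱)) ∧
    ∀ (x : X) (U : Set X), IsOpen U → x ∈ U → ∃ n, ∃ V ∈ B n, x ∈ interior V ∧ V ⊆ U

/-- `T` is a transitive neighbornet of the complement of the closed set `C` which shrinks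
towards `C`. -/
structure IsTN {X : Type*} [TopologicalSpace X] (C : Set X) (T : X → Set X) : Prop where
  isOpen : ∀ y ∉ C, IsOpen (T y)
  self : ∀ y ∉ C, y ∈ T y
  disj : ∀ y ∉ C, Disjoint (T y) C
  trans : ∀ y ∉ C, ∀ y' ∈ T y, T y' ⊆ T y
  pw : ∀ a ∈ C, ∀ D : Set X, Disjoint D C → a ∉ closure D → a ∉ closure (⋃ y ∈ D, T y)

/-- Every closed set has a transitive neighbornet. -/
def HasTN (X : Type*) [TopologicalSpace X] : Prop :=
  ∀ C : Set X, IsClosed C → ∃ T : X → Set X, IsTN C T

/-- Monotone normality. -/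
def HasMN (X : Type*) [TopologicalSpace X] : Prop :=
  ∃ H : X → Set X → Set X,
    (∀ (x : X) (U : Set X), IsOpen U → x ∈ U → IsOpen (H x U) ∧ x ∈ H x U ∧ H x U ⊆ U) ∧
    ∀ (x : X) (U : Set X) (y : X) (V : Set X), IsOpen U → x ∈ U → IsOpen V → y ∈ V →
      (H x U ∩ H y V).Nonempty → x ∈ V ∨ y ∈ U

/-- Closed discrete sets. -/
def CDisc {X : Type*} [TopologicalSpace X] (Z : Set X) : Prop := ∀ F ⊆ Z, IsClosed F

/-- Every point in the closure of a set is in the closure of a subset whose closure is a countable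
union of closed discrete sets. -/
def HasCD (X : Type*) [TopologicalSpace X] : Prop :=
  ∀ (A : Set X) (p : X), p ∈ closure A → ∃ E ⊆ A, p ∈ closure E ∧
    ∃ Z : ℕ → Set X, (∀ n, CDisc (Z n)) ∧ closure E = ⋃ n, Z n

/-- Every point in the closure of a set is in the closure of a subset with countable closure. -/
def HasCC (X : Type*) [TopologicalSpace X] : Prop :=
  ∀ (A : Set X) (p : X), p ∈ closure A → ∃ E ⊆ A, p ∈ closure E ∧ (closure E).Countable

/-- Every point `p` in the closure of a set `A` has a closure-preserving local network consisting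
of closures of subsets of a countable union of closed discrete subsets of `A`. -/
def HasPS (X : Type*) [TopologicalSpace X] : Prop :=
  ∀ (A : Set X) (p : X), p ∈ closure A → ∃ (E : ℕ → Set X) (S : Set X → Set X),
    (∀ n, E n ⊆ A) ∧ (∀ n, CDisc (E n)) ∧
    (∀ U, IsOpen U → p ∈ U → S U ⊆ (⋃ n, E n) ∧ p ∈ closure (S U) ∧ closure (S U) ⊆ U) ∧
    ∀ z, ∃ O, IsOpen O ∧ z ∈ O ∧ ∀ U, IsOpen U → p ∈ U → z ∉ closure (S U) → Disjoint (S U) O

/-- `X` has a base of open sets which is a countable union of closure-preserving families. -/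
def HasM1 (X : Type*) [TopologicalSpace X] : Prop :=
  ∃ B : ℕ → Set (Set X), TopologicalSpace.IsTopologicalBasis (⋃ n, B n) ∧
    ∀ n, ∀ 𝒱 ⊆ B n, closure (⋃₀ 𝒱) = ⋃ V ∈ 𝒱, closure V

/-- The structure of a stratifiable space: a closed network which is a countable union of discrete
families with discrete open expansions, transitive neighbornets, a stratification `g` and
expansions of closed discrete sets. -/
structure Strat (X : Type*) [TopologicalSpace X] where
  /-- the network -/
  net : ℕ → Set (Set X)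
  net_closed : ∀ n, ∀ N ∈ net n, IsClosed N
  net_spec : ∀ (x : X) (U : Set X), IsOpen U → x ∈ U → ∃ n, ∃ N ∈ net n, x ∈ N ∧ N ⊆ U
  /-- the expansions -/
  V : ℕ → Set X → Set X
  V_open : ∀ n, ∀ N ∈ net n, IsOpen (V n N)
  V_sub : ∀ n, ∀ N ∈ net n, N ⊆ V n N
  V_disc : ∀ n z, ∃ O, IsOpen O ∧ z ∈ O ∧ ∀ N ∈ net n, ∀ N' ∈ net n,
    (V n N ∩ O).Nonempty → (V n N' ∩ O).Nonempty → N = N'
  /-- the transitive neighbornets -/
  T : Set X → X → Set X
  T_tn : ∀ C, IsClosed C → IsTN C (T C)
  /-- the stratification -/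
  g : ℕ → X → Set X
  g_open : ∀ n y, IsOpen (g n y)
  g_self : ∀ n y, y ∈ g n y
  g_spec : ∀ (K : Set X) (z : X), IsClosed K → z ∉ K →
    ∃ (n : ℕ) (O : Set X), IsOpen O ∧ z ∈ O ∧ ∀ y ∈ K, ∀ m ≥ n, Disjoint (g m y) O
  exp : ∀ Z : Set X, CDisc Z → ∃ W : X → Set X, (∀ x ∈ Z, IsOpen (W x) ∧ x ∈ W x) ∧
    ∀ z, ∃ O, IsOpen O ∧ z ∈ O ∧ ∀ x ∈ Z, ∀ x' ∈ Z,
      (W x ∩ O).Nonempty → (W x' ∩ O).Nonempty → x = x'

namespace Strat

variable {X : Type*} [TopologicalSpace X] (D : Strat X)

/-- The closed neighbourhood of the closed set `C` inside the open set `V`. -/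
def Q (C V : Set X) : Set X := {w | ∀ y ∉ V, w ∉ D.T C y}

/-- The classes of the neighbornet of `C`. -/
def M (C N : Set X) : Set X := {y | y ∉ C ∧ y ∈ N ∧ N ⊆ D.T C y}

/-- The closure of the class. -/
def L (C N : Set X) : Set X := closure (D.M C N)

lemma Q_subset {C V : Set X} (hC : IsClosed C) (hCV : C ⊆ V) : D.Q C V ⊆ V := by
  intro w hw
  by_contra hwV
  exact hw w hwV ((D.T_tn C hC).self w fun h => hwV (hCV h))

lemma isClosed_Q {C V : Set X} (hC : IsClosed C) (hCV : C ⊆ V) : IsClosed (D.Q C V) := by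
  have : D.Q C V = (⋃ y ∈ Vᶜ, D.T C y)ᶜ := by
    ext w; simp [Q]
  rw [this, isClosed_compl_iff]
  exact isOpen_biUnion fun y hy => (D.T_tn C hC).isOpen y fun h => hy (hCV h)

lemma subset_interior_Q {C V : Set X} (hC : IsClosed C) (hV : IsOpen V) (hCV : C ⊆ V) :
    C ⊆ interior (D.Q C V) := by
  intro a ha
  have h1 := (D.T_tn C hC).pw a ha Vᶜ
    (by rw [disjoint_left]; intro y hy hyC; exact hy (hCV hyC))
    (by rw [hV.isClosed_compl.closure_eq]; exact fun h => h (hCV ha))
  rw [mem_interior]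
  refine ⟨(closure (⋃ y ∈ Vᶜ, D.T C y))ᶜ, ?_, isClosed_closure.isOpen_compl, h1⟩
  intro w hw y hy hwy
  exact hw (subset_closure (mem_iUnion₂.2 ⟨y, hy, hwy⟩))

lemma subset_Q {C V : Set X} (hC : IsClosed C) (hV : IsOpen V) (hCV : C ⊆ V) : C ⊆ D.Q C V :=
  (D.subset_interior_Q hC hV hCV).trans interior_subset

/-- The sets `Q C V` form a closure-preserving family. -/
lemma disjoint_Q {C V : Set X} (hC : IsClosed C) (hCV : C ⊆ V) {z : X}
    (hzQ : z ∉ D.Q C V) : Disjoint (D.Q C V) (D.T C z) := by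
  simp only [Q, mem_ofPred_eq, not_forall, not_not] at hzQ
  obtain ⟨y, hy, hyz⟩ := hzQ
  rw [disjoint_left]
  intro w hw hwz
  exact hw y hy ((D.T_tn C hC).trans y (fun h => hy (hCV h)) z hyz hwz)

lemma exists_M {C : Set X} (hC : IsClosed C) {y : X} (hy : y ∉ C) :
    ∃ n, ∃ N ∈ D.net n, y ∈ D.M C N := by
  obtain ⟨i, N, h0, h1, h2⟩ :=
    D.net_spec y (D.T C y) ((D.T_tn C hC).isOpen y hy) ((D.T_tn C hC).self y hy)
  exact ⟨i, N, h0, hy, h1, h2⟩

lemma M_subset_L (C N : Set X) : D.M C N ⊆ D.L C N := subset_closure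

lemma isClosed_L (C N : Set X) : IsClosed (D.L C N) := isClosed_closure

lemma L_subset {n : ℕ} {C N : Set X} (hN : N ∈ D.net n) : D.L C N ⊆ N :=
  closure_minimal (fun _ hy => hy.2.1) (D.net_closed n N hN)

/-- A set `Q C V` contains a class if it meets it. -/
lemma L_subset_Q {C V N : Set X} (hC : IsClosed C) (hCV : C ⊆ V)
    (h : (D.M C N ∩ D.Q C V).Nonempty) : D.L C N ⊆ D.Q C V := by
  obtain ⟨y, hyM, hyQ⟩ := h
  refine closure_minimal (fun w hw => ?_) (D.isClosed_Q hC hCV)
  intro u hu hwu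
  have h1 : y ∈ D.T C w := hw.2.2 hyM.2.1
  exact hyQ u hu ((D.T_tn C hC).trans u (fun h => hu (hCV h)) w hwu h1)

include D in
/-- Regularity with the operator `Q`. -/
lemma exists_closed_nhd [T1Space X] (U : Set X) (hU : IsOpen U) (x : X) (hx : x ∈ U) :
    ∃ B : Set X, IsClosed B ∧ x ∈ interior B ∧ B ⊆ U :=
  ⟨D.Q {x} U, D.isClosed_Q isClosed_singleton (by simpa using hx),
    D.subset_interior_Q isClosed_singleton hU (by simpa using hx) rfl,
    D.Q_subset isClosed_singleton (by simpa using hx)⟩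

end Strat

end Pool.Agent.H51.CI
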