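import Pool.Agent.H51.CI.Defs

/-!
# Module EXP: discrete expansions from monotone normality

Proof. Let `𝒩` be a discrete family of closed sets (indexed here by the set `𝒩` itself), `S = ⋃₀ 𝒩`
and for `N ∈ 𝒩` let `CN N = ⋃₀ (𝒩 ∖ {N})`; both are closed (locally finite families). Put
`W N = ⋃ x ∈ N, H x (CN N)ᶜ`: open, contains `N`, and `W N ∩ W N' = ∅` for `N ≠ N'`
(if `x ∈ N`, `y ∈ N'` then `x ∉ (CN N')ᶜ` and `y ∉ (CN N)ᶜ`). Normality (from `H`: for disjoint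
closed sets `A`, `B` the sets `⋃ x ∈ A, H x Bᶜ` and `⋃ y ∈ B, H y Aᶜ` are disjoint) gives an open
`P ⊇ S` with `closure P ⊆ ⋃ N, W N`; `V N = W N ∩ P`.
-/

set_option autoImplicit false
open Topology Set

namespace Pool.Agent.H51.CI

theorem exists_expansion {X : Type*} [TopologicalSpace X] (hMN : HasMN X) (𝒩 : Set (Set X))
    (hcl : ∀ N ∈ 𝒩, IsClosed N)
    (hdisc : ∀ z, ∃ O, IsOpen O ∧ z ∈ O ∧ ∀ N ∈ 𝒩, ∀ N' ∈ 𝒩,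
      (N ∩ O).Nonempty → (N' ∩ O).Nonempty → N = N') :
    ∃ V : Set X → Set X, (∀ N ∈ 𝒩, IsOpen (V N) ∧ N ⊆ V N) ∧
      ∀ z, ∃ O, IsOpen O ∧ z ∈ O ∧ ∀ N ∈ 𝒩, ∀ N' ∈ 𝒩,
        (V N ∩ O).Nonempty → (V N' ∩ O).Nonempty → N = N' := by
  classical
  obtain ⟨H, hH1, hH2⟩ := hMN
  -- unions of subfamilies are closed
  have hU : ∀ 𝒱 ⊆ 𝒩, IsClosed (⋃₀ 𝒱) := by
    intro 𝒱 h𝒱
    rw [← isOpen_compl_iff, isOpen_iff_mem_nhds]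
    intro z hz
    obtain ⟨O, hO, hzO, h⟩ := hdisc z
    by_cases hN : ∃ N₀ ∈ 𝒱, (N₀ ∩ O).Nonempty
    · obtain ⟨N₀, hN₀, hne⟩ := hN
      refine Filter.mem_of_superset ((hO.inter (hcl N₀ (h𝒱 hN₀)).isOpen_compl).mem_nhds
        ⟨hzO, fun h => hz ⟨N₀, hN₀, h⟩⟩) ?_
      rintro x ⟨hx1, hx2⟩ ⟨N, hN, hxN⟩
      have : N = N₀ := h N (h𝒱 hN) N₀ (h𝒱 hN₀) ⟨x, hxN, hx1⟩ hne
      subst this
      exact hx2 hxN
    · refine Filter.mem_of_superset (hO.mem_nhds hzO) ?_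
      rintro x hx ⟨N, hN', hxN⟩
      exact hN ⟨N, hN', x, hxN, hx⟩
  let S : Set X := ⋃₀ 𝒩
  have hS : IsClosed S := hU 𝒩 Subset.rfl
  let CN : Set X → Set X := fun N => ⋃₀ (𝒩 \ {N})
  have hCN : ∀ N, IsClosed (CN N) := fun N => hU _ sdiff_subset
  have hdisj : ∀ N ∈ 𝒩, ∀ x ∈ N, x ∉ CN N := by
    rintro N hN x hx ⟨N', ⟨hN', hne⟩, hx'⟩
    obtain ⟨O, hO, hzO, h⟩ := hdisc x
    exact hne (h N' hN' N hN ⟨x, hx', hzO⟩ ⟨x, hx, hzO⟩)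
  let W : Set X → Set X := fun N => ⋃ x ∈ N, H x (CN N)ᶜ
  have hWo : ∀ N ∈ 𝒩, IsOpen (W N) := fun N hN => isOpen_biUnion fun x hx =>
    (hH1 x _ (hCN N).isOpen_compl (hdisj N hN x hx)).1
  have hNW : ∀ N ∈ 𝒩, N ⊆ W N := fun N hN x hx => mem_iUnion₂.2 ⟨x, hx,
    (hH1 x _ (hCN N).isOpen_compl (hdisj N hN x hx)).2.1⟩
  have hWW : ∀ N ∈ 𝒩, ∀ N' ∈ 𝒩, (W N ∩ W N').Nonempty → N = N' := by
    rintro N hN N' hN' ⟨w, hw, hw'⟩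
    by_contra hne
    obtain ⟨x, hx, hwx⟩ := mem_iUnion₂.1 hw
    obtain ⟨y, hy, hwy⟩ := mem_iUnion₂.1 hw'
    rcases hH2 x _ y _ (hCN N).isOpen_compl (hdisj N hN x hx) (hCN N').isOpen_compl
      (hdisj N' hN' y hy) ⟨w, hwx, hwy⟩ with h | h
    · exact h ⟨N, ⟨hN, hne⟩, hx⟩
    · exact h ⟨N', ⟨hN', fun h => hne h.symm⟩, hy⟩
  -- normality
  have hWu : IsOpen (⋃ N ∈ 𝒩, W N) := isOpen_biUnion fun N hN => hWo N hN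
  have hSW : S ⊆ ⋃ N ∈ 𝒩, W N := by
    rintro x ⟨N, hN, hx⟩
    exact mem_iUnion₂.2 ⟨N, hN, hNW N hN hx⟩
  have hP : ∃ P, IsOpen P ∧ S ⊆ P ∧ closure P ⊆ ⋃ N ∈ 𝒩, W N := by
    set G := ⋃ N ∈ 𝒩, W N with hG
    refine ⟨⋃ x ∈ S, H x G, isOpen_biUnion fun x hx => (hH1 x _ hWu (hSW hx)).1,
      fun x hx => mem_iUnion₂.2 ⟨x, hx, (hH1 x _ hWu (hSW hx)).2.1⟩, fun z hz => ?_⟩
    by_contra hzG
    have hzS : z ∈ Sᶜ := fun h => hzG (hSW h)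
    obtain ⟨w, hw, hw'⟩ := mem_closure_iff.1 hz (H z Sᶜ) (hH1 z _ hS.isOpen_compl hzS).1
      (hH1 z _ hS.isOpen_compl hzS).2.1
    obtain ⟨x, hx, hwx⟩ := mem_iUnion₂.1 hw'
    rcases hH2 x _ z _ hWu (hSW hx) hS.isOpen_compl hzS ⟨w, hwx, hw⟩ with h | h
    · exact h hx
    · exact hzG h
  obtain ⟨P, hP, hSP, hcP⟩ := hP
  refine ⟨fun N => W N ∩ P, fun N hN => ⟨(hWo N hN).inter hP, subset_inter (hNW N hN)
    ((subset_sUnion_of_mem hN).trans hSP)⟩, fun z => ?_⟩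
  by_cases hz : z ∈ closure P
  · obtain ⟨N₀, hN₀, hzW⟩ := mem_iUnion₂.1 (hcP hz)
    refine ⟨W N₀, hWo N₀ hN₀, hzW, ?_⟩
    rintro N hN N' hN' ⟨x, hx, hx'⟩ ⟨y, hy, hy'⟩
    rw [hWW N hN N₀ hN₀ ⟨x, hx.1, hx'⟩, hWW N' hN' N₀ hN₀ ⟨y, hy.1, hy'⟩]
  · refine ⟨(closure P)ᶜ, isClosed_closure.isOpen_compl, hz, ?_⟩
    rintro N hN N' hN' ⟨x, hx, hx'⟩ _
    exact (hx' (subset_closure hx.2)).elim

/-- The case of a closed discrete set `Z`: apply `exists_expansion` to `{ {x} | x ∈ Z }`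
(discrete: `z` has the open neighbourhood `(Z ∖ {z})ᶜ`). -/
theorem exists_expansion_cdisc {X : Type*} [TopologicalSpace X] (hMN : HasMN X) (Z : Set X)
    (hZ : CDisc Z) :
    ∃ W : X → Set X, (∀ x ∈ Z, IsOpen (W x) ∧ x ∈ W x) ∧
      ∀ z, ∃ O, IsOpen O ∧ z ∈ O ∧ ∀ x ∈ Z, ∀ x' ∈ Z,
        (W x ∩ O).Nonempty → (W x' ∩ O).Nonempty → x = x' := by
  obtain ⟨V, hV1, hV2⟩ := exists_expansion hMN ((fun x => ({x} : Set X)) '' Z) (by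
    rintro _ ⟨x, hx, rfl⟩
    exact hZ {x} (by simpa using hx)) (by
    intro z
    refine ⟨(Z \ {z})ᶜ, (hZ _ sdiff_subset).isOpen_compl, fun h => h.2 rfl, ?_⟩
    rintro _ ⟨x, hx, rfl⟩ _ ⟨y, hy, rfl⟩ ⟨a, ha, ha'⟩ ⟨b, hb, hb'⟩
    have e1 : a = x := ha
    have e2 : b = y := hb
    subst e1 e2
    have f1 : a = z := by
      by_contra hne
      exact ha' ⟨hx, hne⟩
    have f2 : b = z := by
      by_contra hne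
      exact hb' ⟨hy, hne⟩
    rw [f1, f2])
  refine ⟨fun x => V {x}, fun x hx => ?_, fun z => ?_⟩
  · obtain ⟨h1, h2⟩ := hV1 {x} ⟨x, hx, rfl⟩
    exact ⟨h1, h2 rfl⟩
  · obtain ⟨O, hO, hz, h⟩ := hV2 z
    refine ⟨O, hO, hz, fun x hx y hy h1 h2 => ?_⟩
    exact singleton_injective (h _ ⟨x, hx, rfl⟩ _ ⟨y, hy, rfl⟩ h1 h2)

end Pool.Agent.H51.CI
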