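import Pool.Agent.H51.CI.Defs

/-!
# Module IMG: closed images and subspaces

`f` is a closed continuous surjection.

* `HasCPNet`: images `f '' N`.
* `HasTN`: for `C` closed in `Y` take `T` for `f ⁻¹' C` and put
  `T' y = Y ∖ f '' (X ∖ ⋃ s ∈ f ⁻¹' {y}, T s)`, i.e. `w ∈ T' y ↔ f ⁻¹' {w} ⊆ ⋃ s ∈ f ⁻¹' {y}, T s`.
  pw: `a ∈ C`, `a ∉ closure D`; `Z = closure (⋃ s ∈ f ⁻¹' D, T s)` is disjoint from `f ⁻¹' {a}`
  (as `closure (f ⁻¹' D) ⊆ f ⁻¹' (closure D)`), so `Y ∖ f '' Z` is an open neighbourhood of `a`; it is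
  disjoint from `T' y`, `y ∈ D`, because `f ⁻¹' {w}` is nonempty.
* `HasMN`: `H' y U = Y ∖ f '' (X ∖ ⋃ x ∈ f ⁻¹' {y}, H x (f ⁻¹' U))`.
* `HasCD`: if `p ∈ closure A` then `p ∈ f '' closure (f ⁻¹' A)` (closed set containing `A`); take
  `x ∈ closure (f ⁻¹' A)` with `f x = p` and `E` for it; `closure (f '' E) = f '' closure E`, and
  `f '' Z n` is closed discrete: for `F ⊆ f '' Z n`, `F = f '' (Z n ∩ f ⁻¹' F)`.
* Subspaces: `HasM2` etc. by intersecting; for `HasTN` use `T (closure C)` (closure in `X` of the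
  image of `C`), for `HasMN` use `H x U'` where `U' = (closure (S ∖ U))ᶜ`.
-/

set_option autoImplicit false
open Topology Set

namespace Pool.Agent.H51.CI

section Image

variable {X Y : Type*} [TopologicalSpace X] [TopologicalSpace Y] {f : X → Y}

theorem HasCPNet.image (hc : Continuous f) (hcl : IsClosedMap f) (hs : Function.Surjective f)
    (h : HasCPNet X) : HasCPNet Y := by
  obtain ⟨F, h1, h2⟩ := h
  refine ⟨fun n => (fun N => f '' N) '' F n, fun n 𝒱 h𝒱 => ?_, fun y U hU hy => ?_⟩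
  · have e : ⋃₀ 𝒱 = f '' ⋃₀ {N | N ∈ F n ∧ f '' N ∈ 𝒱} := by
      ext y
      constructor
      · rintro ⟨M, hM, hy⟩
        obtain ⟨N, hN, rfl⟩ := h𝒱 hM
        obtain ⟨x, hx, rfl⟩ := hy
        exact ⟨x, ⟨N, ⟨hN, hM⟩, hx⟩, rfl⟩
      · rintro ⟨x, ⟨N, hN, hx⟩, rfl⟩
        exact ⟨f '' N, hN.2, x, hx, rfl⟩
    rw [e]
    exact hcl _ (h1 n _ fun N hN => hN.1)
  · obtain ⟨x, rfl⟩ := hs y
    obtain ⟨n, N, hN, hx, hNU⟩ := h2 x (f ⁻¹' U) (hU.preimage hc) hy
    exact ⟨n, f '' N, ⟨N, hN, rfl⟩, ⟨x, hx, rfl⟩, image_subset_iff.2 hNU⟩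

theorem HasTN.image (hc : Continuous f) (hcl : IsClosedMap f) (hs : Function.Surjective f)
    (h : HasTN X) : HasTN Y := by
  intro C hC
  obtain ⟨T, hT⟩ := h (f ⁻¹' C) (hC.preimage hc)
  let T' : Y → Set Y := fun y => {w | ∀ x, f x = w → ∃ s, f s = y ∧ x ∈ T s}
  have hT' : ∀ y, T' y = (f '' (⋃ s ∈ f ⁻¹' {y}, T s)ᶜ)ᶜ := by
    intro y
    ext w
    simp only [T', mem_ofPred_eq, mem_compl_iff, mem_image, mem_iUnion, mem_preimage,
      mem_singleton_iff, exists_prop, not_exists, not_and, not_not]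
    constructor
    · rintro h x hx rfl
      obtain ⟨s, hs, hxs⟩ := h x rfl
      exact hx s hs hxs
    · intro h x hx
      by_contra hcon
      push Not at hcon
      exact h x hcon hx
  refine ⟨T', ⟨fun y hy => ?_, fun y hy => ?_, fun y hy => ?_, fun y hy y' hy' => ?_,
    fun a ha D hD haD => ?_⟩⟩
  · rw [hT']
    refine (hcl _ ?_).isOpen_compl
    refine (isOpen_biUnion fun s hs => hT.isOpen s fun h => hy ?_).isClosed_compl
    rwa [mem_preimage, show f s = y from hs] at h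
  · intro x hx
    exact ⟨x, hx, hT.self x fun h => hy (by rwa [mem_preimage, hx] at h)⟩
  · rw [disjoint_left]
    intro w hw hwC
    obtain ⟨x, rfl⟩ := hs w
    obtain ⟨s, hs, hxs⟩ := hw x rfl
    exact disjoint_left.1 (hT.disj s fun h => hy (by rwa [mem_preimage, hs] at h)) hxs hwC
  · intro w hw x hx
    obtain ⟨s', hs', hxs'⟩ := hw x hx
    obtain ⟨s, hs, hs's⟩ := hy' s' hs'
    exact ⟨s, hs, hT.trans s (fun h => hy (by rwa [mem_preimage, hs] at h)) s' hs's hxs'⟩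
  · let Z := closure (⋃ s ∈ f ⁻¹' D, T s)
    have hZ : IsClosed Z := isClosed_closure
    have hfa : ∀ x, f x = a → x ∉ Z := by
      rintro x rfl
      refine hT.pw x ha (f ⁻¹' D) ?_ ?_
      · rw [disjoint_left]
        exact fun s hs hs' => disjoint_left.1 hD hs hs'
      · intro hx
        exact haD (closure_minimal (preimage_mono subset_closure)
          (isClosed_closure.preimage hc) hx)
    have ho : IsOpen (f '' Z)ᶜ := (hcl _ hZ).isOpen_compl
    intro hcon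
    obtain ⟨w, hw1, hw2⟩ := mem_closure_iff.1 hcon _ ho (by
      rintro ⟨x, hx, hxa⟩
      exact hfa x hxa hx)
    obtain ⟨y, hy, hwy⟩ := mem_iUnion₂.1 hw2
    obtain ⟨x, rfl⟩ := hs w
    obtain ⟨s, hs, hxs⟩ := hwy x rfl
    refine hw1 ⟨x, subset_closure (mem_iUnion₂.2 ⟨s, ?_, hxs⟩), rfl⟩
    rw [mem_preimage, hs]
    exact hy

theorem HasMN.image (hc : Continuous f) (hcl : IsClosedMap f) (hs : Function.Surjective f)
    (h : HasMN X) : HasMN Y := by
  obtain ⟨H, h1, h2⟩ := h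
  let H' : Y → Set Y → Set Y := fun y U => (f '' (⋃ s ∈ f ⁻¹' {y}, H s (f ⁻¹' U))ᶜ)ᶜ
  have hH' : ∀ y U x, f x ∈ H' y U → ∃ s, f s = y ∧ x ∈ H s (f ⁻¹' U) := by
    intro y U x hx
    by_contra hcon
    push Not at hcon
    refine hx ⟨x, ?_, rfl⟩
    intro hx'
    obtain ⟨s, hs, hxs⟩ := mem_iUnion₂.1 hx'
    exact hcon s hs hxs
  refine ⟨H', fun y U hU hy => ⟨?_, ?_, ?_⟩, fun y U y' U' hU hy hU' hy' hne => ?_⟩
  · refine (hcl _ ?_).isOpen_compl
    refine (isOpen_biUnion fun s hs => (h1 s _ (hU.preimage hc) ?_).1).isClosed_compl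
    rw [mem_preimage, show f s = y from hs]
    exact hy
  · rintro ⟨x, hx, rfl⟩
    exact hx (mem_iUnion₂.2 ⟨x, rfl, (h1 x _ (hU.preimage hc) hy).2.1⟩)
  · intro w hw
    obtain ⟨x, rfl⟩ := hs w
    obtain ⟨s, hs, hxs⟩ := hH' y U x hw
    refine (h1 s _ (hU.preimage hc) ?_).2.2 hxs
    rw [mem_preimage, hs]
    exact hy
  · obtain ⟨w, hw, hw'⟩ := hne
    obtain ⟨x, rfl⟩ := hs w
    obtain ⟨s, rfl, hxs⟩ := hH' y U x hw
    obtain ⟨s', rfl, hxs'⟩ := hH' y' U' x hw'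
    exact h2 s _ s' _ (hU.preimage hc) hy (hU'.preimage hc) hy' ⟨x, hxs, hxs'⟩

theorem HasCD.image (hc : Continuous f) (hcl : IsClosedMap f) (hs : Function.Surjective f)
    (h : HasCD X) : HasCD Y := by
  intro A p hp
  have hp' : p ∈ f '' closure (f ⁻¹' A) := by
    refine closure_minimal (fun y hy => ?_) (hcl _ isClosed_closure) hp
    obtain ⟨x, rfl⟩ := hs y
    exact ⟨x, subset_closure hy, rfl⟩
  obtain ⟨x, hx, rfl⟩ := hp'
  obtain ⟨E, hE, hxE, Z, hZ, hcE⟩ := h (f ⁻¹' A) x hx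
  have hcl' : closure (f '' E) = f '' closure E := by
    refine Subset.antisymm (closure_minimal (image_mono subset_closure)
      (hcl _ isClosed_closure)) ?_
    exact image_closure_subset_closure_image hc
  refine ⟨f '' E, image_subset_iff.2 hE, ?_, fun n => f '' Z n, fun n F hF => ?_, ?_⟩
  · rw [hcl']
    exact ⟨x, hxE, rfl⟩
  · have : F = f '' (Z n ∩ f ⁻¹' F) := by
      ext y
      constructor
      · intro hy
        obtain ⟨x, hx, rfl⟩ := hF hy
        exact ⟨x, ⟨hx, hy⟩, rfl⟩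
      · rintro ⟨x, ⟨_, hx⟩, rfl⟩
        exact hx
    rw [this]
    exact hcl _ (hZ n _ inter_subset_left)
  · rw [hcl', hcE, image_iUnion]

theorem t1Space_image (hcl : IsClosedMap f) (hs : Function.Surjective f) [T1Space X] :
    T1Space Y := by
  refine ⟨fun y => ?_⟩
  obtain ⟨x, rfl⟩ := hs y
  rw [← image_singleton]
  exact hcl _ isClosed_singleton

end Image

section Subspace

variable {X : Type*} [TopologicalSpace X] (S : Set X)

theorem HasM2.subspace (h : HasM2 X) : HasM2 S := by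
  obtain ⟨B, h1, h2⟩ := h
  refine ⟨fun n => (fun V => (Subtype.val : S → X) ⁻¹' V) '' B n, fun n 𝒱 h𝒱 => ?_,
    fun x U hU hx => ?_⟩
  · have e : ⋃₀ 𝒱 = (Subtype.val : S → X) ⁻¹'
        ⋃₀ {N | N ∈ B n ∧ (Subtype.val : S → X) ⁻¹' N ∈ 𝒱} := by
      ext y
      constructor
      · rintro ⟨M, hM, hy⟩
        obtain ⟨N, hN, rfl⟩ := h𝒱 hM
        exact ⟨N, ⟨hN, hM⟩, hy⟩
      · rintro ⟨N, hN, hx⟩
        exact ⟨_, hN.2, hx⟩
    rw [e]
    exact (h1 n _ fun N hN => hN.1).preimage continuous_subtype_val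
  · obtain ⟨V, hV, rfl⟩ := isOpen_induced_iff.1 hU
    obtain ⟨n, N, hN, hxN, hNV⟩ := h2 x V hV hx
    refine ⟨n, _, ⟨N, hN, rfl⟩, ?_, preimage_mono hNV⟩
    exact preimage_interior_subset_interior_preimage continuous_subtype_val hxN

theorem HasCD.subspace (h : HasCD X) : HasCD S := by
  intro A p hp
  have hp' : (p : X) ∈ closure ((Subtype.val : S → X) '' A) := by
    rwa [closure_subtype] at hp
  obtain ⟨E, hE, hpE, Z, hZ, hcE⟩ := h _ _ hp'
  have hES : E ⊆ S := fun x hx => by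
    obtain ⟨y, _, rfl⟩ := hE hx
    exact y.2
  have himg : (Subtype.val : S → X) '' ((Subtype.val : S → X) ⁻¹' E) = E := by
    rw [Subtype.image_preimage_coe, inter_eq_right.2 hES]
  refine ⟨(Subtype.val : S → X) ⁻¹' E, fun x hx => ?_, ?_, fun n => (Subtype.val : S → X) ⁻¹' Z n,
    fun n F hF => ?_, ?_⟩
  · obtain ⟨y, hy, hyx⟩ := hE hx
    rwa [← Subtype.ext hyx]
  · rw [closure_subtype, himg]
    exact hpE
  · have : F = (Subtype.val : S → X) ⁻¹' ((Subtype.val : S → X) '' F) :=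
      (preimage_image_eq F Subtype.val_injective).symm
    rw [this]
    refine (hZ n _ ?_).preimage continuous_subtype_val
    exact image_subset_iff.2 hF
  · rw [← preimage_iUnion, ← hcE]
    ext x
    rw [closure_subtype, himg]
    rfl

end Subspace

/-- A `T1` space with monotone normality is regular. -/
theorem regular_of_hasMN {X : Type*} [TopologicalSpace X] [T1Space X] (h : HasMN X) :
    RegularSpace X := by
  obtain ⟨H, h1, h2⟩ := h
  refine RegularSpace.of_exists_mem_nhds_isClosed_subset fun x s hs => ?_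
  obtain ⟨U, hUs, hU, hx⟩ := mem_nhds_iff.1 hs
  refine ⟨closure (H x U), Filter.mem_of_superset ((h1 x U hU hx).1.mem_nhds
    (h1 x U hU hx).2.1) subset_closure, isClosed_closure, fun z hz => hUs ?_⟩
  by_contra hzU
  have hzx : z ∈ ({x} : Set X)ᶜ := fun h => hzU (by rw [show z = x from h]; exact hx)
  have ho : IsOpen ({x} : Set X)ᶜ := isClosed_singleton.isOpen_compl
  obtain ⟨w, hw, hw'⟩ := mem_closure_iff.1 hz _ (h1 z _ ho hzx).1 (h1 z _ ho hzx).2.1
  rcases h2 x U z _ hU hx ho hzx ⟨w, hw', hw⟩ with h | h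
  · exact h rfl
  · exact hzU h

theorem hasCD_of_hasCC {X : Type*} [TopologicalSpace X] [T1Space X] (h : HasCC X) :
    HasCD X := by
  intro A p hp
  obtain ⟨E, hE, hpE, hc⟩ := h A p hp
  obtain ⟨f, hf⟩ := hc.exists_eq_range ⟨p, hpE⟩
  refine ⟨E, hE, hpE, fun n => {f n}, fun n F hF => ?_, ?_⟩
  · exact ((finite_singleton (f n)).subset hF).isClosed
  · rw [hf]
    ext x
    simp [eq_comm]

end Pool.Agent.H51.CI
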