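import Pool.Agent.H51.CI.Incr

/-!
# Module MN: monotone normality from a sigma-closure-preserving closed quasi-base

Proof. `B' n = ⋃ k ≤ n, B k` increasing, unions of subfamilies closed. For open `U` let
`Un n U = ⋃ {V ∈ B' n : V ⊆ U}` (closed, contained in `U`, increasing in `n` and monotone in `U`).
For `x ∈ U` let `n(x,U)` be the least `n` such that `x ∈ interior V` for some `V ∈ B' n`, `V ⊆ U`;
`H x U = interior (Un n U) ∖ ⋃ {V ∈ B' n : x ∉ V}` with `n = n(x,U)`.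
If `w ∈ H x U ∩ H y V` and `x ∉ V`, `y ∉ U`, say `n = n(x,U) ≤ m = n(y,V)`, then
`w ∈ Un n U ⊆ Un m U`, so `w ∈ B ⊆ U` with `B ∈ B' m`, `y ∉ B`, contradicting `w ∈ H y V`.
-/

set_option autoImplicit false
open Topology Set

namespace Pool.Agent.H51.CI

theorem hasMN_of_hasM2 {X : Type*} [TopologicalSpace X] (h : HasM2 X) : HasMN X := by
  classical
  obtain ⟨B, hB1, hB2, hB3⟩ := h.incr
  let Un : ℕ → Set X → Set X := fun n U => ⋃₀ {V | V ∈ B n ∧ V ⊆ U}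
  let nn : X → Set X → ℕ := fun x U => sInf {n | ∃ V ∈ B n, x ∈ interior V ∧ V ⊆ U}
  have hnn : ∀ x U, IsOpen U → x ∈ U → ∃ V ∈ B (nn x U), x ∈ interior V ∧ V ⊆ U :=
    fun x U hU hx => Nat.sInf_mem (s := {n | ∃ V ∈ B n, x ∈ interior V ∧ V ⊆ U}) (hB3 x U hU hx)
  let H : X → Set X → Set X := fun x U =>
    interior (Un (nn x U) U) ∩ (⋃₀ {V | V ∈ B (nn x U) ∧ x ∉ V})ᶜ
  have key : ∀ x U y V, IsOpen U → x ∈ U → IsOpen V → y ∈ V → nn x U ≤ nn y V →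
      (H x U ∩ H y V).Nonempty → y ∈ U := by
    rintro x U y V hU hx hV hy hle ⟨w, ⟨w1, w2⟩, w3, w4⟩
    by_contra hyU
    obtain ⟨N, ⟨hN, hNU⟩, hwN⟩ := interior_subset w1
    exact w4 ⟨N, ⟨hB2 _ _ hle hN, fun h => hyU (hNU h)⟩, hwN⟩
  refine ⟨H, fun x U hU hx => ⟨?_, ?_, ?_⟩, fun x U y V hU hx hV hy hne => ?_⟩
  · exact isOpen_interior.inter (hB1 _ _ fun V hV => hV.1).isOpen_compl
  · obtain ⟨V, hV, h1, h2⟩ := hnn x U hU hx
    have hsub : V ⊆ Un (nn x U) U := fun w hw => ⟨V, ⟨hV, h2⟩, hw⟩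
    refine ⟨interior_mono hsub h1, ?_⟩
    rintro ⟨N, ⟨_, hxN⟩, hx'⟩
    exact hxN hx'
  · rintro w ⟨w1, _⟩
    obtain ⟨N, ⟨_, hNU⟩, hwN⟩ := interior_subset w1
    exact hNU hwN
  · rcases le_total (nn x U) (nn y V) with hle | hle
    · exact Or.inr (key x U y V hU hx hV hy hle hne)
    · exact Or.inl (key y V x U hV hy hU hx hle (by rwa [inter_comm]))

theorem hasCPNet_of_hasM2 {X : Type*} [TopologicalSpace X] (h : HasM2 X) : HasCPNet X := by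
  obtain ⟨B, h1, h2⟩ := h
  refine ⟨B, h1, fun x U hU hx => ?_⟩
  obtain ⟨n, V, hV, h3, h4⟩ := h2 x U hU hx
  exact ⟨n, V, hV, interior_subset h3, h4⟩

/-- A regular space with a sigma-closure-preserving base of open sets has `HasM2` (closures of the
members of the base). -/
theorem hasM2_of_hasM1 {X : Type*} [TopologicalSpace X] [RegularSpace X] (h : HasM1 X) :
    HasM2 X := by
  obtain ⟨B, h1, h2⟩ := h
  refine ⟨fun n => closure '' (B n), fun n 𝒱 h𝒱 => ?_, fun x U hU hx => ?_⟩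
  · let 𝒲 : Set (Set X) := {V | V ∈ B n ∧ closure V ∈ 𝒱}
    have e : ⋃₀ 𝒱 = closure (⋃₀ 𝒲) := by
      rw [h2 n 𝒲 fun V hV => hV.1]
      ext x
      constructor
      · rintro ⟨N, hN, hx⟩
        obtain ⟨V, hV, rfl⟩ := h𝒱 hN
        exact mem_iUnion₂.2 ⟨V, ⟨hV, hN⟩, hx⟩
      · intro hx
        obtain ⟨V, hV, hx⟩ := mem_iUnion₂.1 hx
        exact ⟨_, hV.2, hx⟩
    rw [e]
    exact isClosed_closure
  · obtain ⟨K, hK, hKc, hKU⟩ := exists_mem_nhds_isClosed_subset (hU.mem_nhds hx)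
    obtain ⟨V, hV, hxV, hVK⟩ := h1.mem_nhds_iff.1 hK
    obtain ⟨n, hn⟩ := mem_iUnion.1 hV
    refine ⟨n, closure V, ⟨V, hn, rfl⟩, ?_, (closure_minimal hVK hKc).trans hKU⟩
    exact interior_maximal subset_closure (h1.isOpen hV) hxV

end Pool.Agent.H51.CI
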