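import Pool.Agent.H51.CI.Sys

/-!
# `HasPS` implies that every closed set has a closure-preserving outer network of regular closed
neighbourhoods
-/

set_option autoImplicit false
open Topology Set

namespace Pool.Agent.H51.CI

namespace Main1

variable {X : Type*} [TopologicalSpace X] {D : Strat X} {A : Set X} (s : Sys D A)

lemma subset_Q' {C V : Set X} (hC : IsClosed C) (hCV : C ⊆ V) : C ⊆ D.Q C V := by
  intro w hw y hy hwy
  exact disjoint_left.1 ((D.T_tn C hC).disj y fun h => hy (hCV h)) hwy hw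

lemma closure_interior_sub {B : Set X} (h : IsClosed B) : closure (interior B) ⊆ B :=
  closure_minimal interior_subset h

lemma hVal (a : Node X) (U : TopologicalSpace.Opens X) (b : Node X) (ha : Val D A a)
    (hab : Act s a U b) [T1Space X] : Val D A b := by
  cases hab with
  | @a k C G U n N d hC hN hM hd =>
    obtain ⟨h1, h2, h3⟩ := ha
    have hL : D.L C N ⊆ G := (D.L_subset_Q h1 hC hM).trans
      ((D.Q_subset h1 hC).trans inter_subset_right)
    obtain ⟨k1, _, _⟩ := s.hK C G n N h1 h2 hN hL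
    obtain ⟨b1, b2, b3, _⟩ := k1 d hd
    refine ⟨isOpen_interior, b2, fun j hj => (h3 j hj).mono_left ?_⟩
    exact (closure_interior_sub b1).trans (b3.trans subset_closure)
  | @b k G d U m e hd he hem heL =>
    obtain ⟨h1, h2, h3⟩ := ha
    obtain ⟨_, _, _, e4, _⟩ := s.hE k G d h1 h2
    obtain ⟨b1, b2, b3, _⟩ := e4 m e hem
    obtain ⟨c1, c2, c3⟩ := s.hB3 k e heL
    refine ⟨isClosed_singleton, isOpen_interior.inter isOpen_interior, fun j hj => ?_⟩
    rcases Nat.lt_succ_iff_lt_or_eq.1 hj with hj | rfl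
    · refine (h3 j hj).mono_left ?_
      exact (closure_mono inter_subset_left).trans
        ((closure_interior_sub b1).trans (b3.trans subset_closure))
    · exact c3.mono_left ((closure_mono inter_subset_right).trans (closure_interior_sub c1))
  | @c k G d U m e hd he hem heI =>
    obtain ⟨h1, h2, h3⟩ := ha
    obtain ⟨_, _, _, e4, _⟩ := s.hE k G d h1 h2
    obtain ⟨b1, b2, b3, _⟩ := e4 m e hem
    obtain ⟨w1, w2, w3, _⟩ := s.hW k e _ isOpen_interior b2 heI
    exact ⟨w1, w2⟩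

lemma hReg (a : Node X) : IsClosed (Reg a) := by
  cases a <;> exact isClosed_closure

lemma hP (a : Node X) (U : TopologicalSpace.Opens X) (ha : Val D A a) :
    P s a U ⊆ Reg a := by
  cases a with
  | one k C G =>
    rintro x ⟨h1, h2⟩
    exact subset_closure (D.Q_subset ha.1 h1 h2).2
  | two k G d =>
    rintro x ⟨h1, h2⟩
    obtain ⟨_, e2, _⟩ := s.hE k G d ha.1 ha.2.1
    exact subset_closure ((e2 _ (U.isOpen.inter ha.1) ⟨h1, ha.2.1⟩).2.2 h2).2
  | three e W => exact Subset.rfl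

lemma hActReg (a : Node X) (U : TopologicalSpace.Opens X) (b : Node X) (ha : Val D A a)
    (hab : Act s a U b) : Reg b ⊆ Reg a := by
  cases hab with
  | @a k C G U n N d hC hN hM hd =>
    obtain ⟨h1, h2, h3⟩ := ha
    have hL : D.L C N ⊆ G := (D.L_subset_Q h1 hC hM).trans
      ((D.Q_subset h1 hC).trans inter_subset_right)
    obtain ⟨k1, _, _⟩ := s.hK C G n N h1 h2 hN hL
    obtain ⟨b1, b2, b3, _⟩ := k1 d hd
    exact (closure_interior_sub b1).trans (b3.trans subset_closure)
  | @b k G d U m e hd he hem heL =>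
    obtain ⟨h1, h2, h3⟩ := ha
    obtain ⟨_, _, _, e4, _⟩ := s.hE k G d h1 h2
    obtain ⟨b1, b2, b3, _⟩ := e4 m e hem
    exact (closure_mono inter_subset_left).trans
        ((closure_interior_sub b1).trans (b3.trans subset_closure))
  | @c k G d U m e hd he hem heI =>
    obtain ⟨h1, h2, h3⟩ := ha
    obtain ⟨_, _, _, e4, _⟩ := s.hE k G d h1 h2
    obtain ⟨b1, b2, b3, _⟩ := e4 m e hem
    obtain ⟨w1, w2, w3, _⟩ := s.hW k e _ isOpen_interior b2 heI
    exact w3.trans (interior_subset.trans (b3.trans subset_closure))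

lemma h1 (z : X) (a : Node X) (ha : Val D A a) :
    ∃ O, IsOpen O ∧ z ∈ O ∧ ∀ U, z ∉ P s a U → Disjoint (P s a U) O := by
  cases a with
  | one k C G =>
    obtain ⟨hC, hG, _⟩ := ha
    by_cases hz : z ∈ C
    · refine ⟨univ, isOpen_univ, mem_univ z, fun U hU => ?_⟩
      rw [disjoint_left]
      rintro x ⟨hx1, _⟩ _
      exact hU ⟨hx1, subset_Q' hC hx1 hz⟩
    · refine ⟨D.T C z, (D.T_tn C hC).isOpen z hz, (D.T_tn C hC).self z hz, fun U hU => ?_⟩
      by_cases hCU : C ⊆ (U : Set X) ∩ G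
      · have hzQ : z ∉ D.Q C (U ∩ G) := fun h => hU ⟨hCU, h⟩
        exact (D.disjoint_Q hC hCU hzQ).mono_left fun x hx => hx.2
      · rw [disjoint_left]
        rintro x ⟨hx1, _⟩ _
        exact hCU hx1
  | two k G d =>
    obtain ⟨_, e2, e3, _⟩ := s.hE k G d ha.1 ha.2.1
    obtain ⟨O, hO, hzO, hO'⟩ := e3 z
    refine ⟨O, hO, hzO, fun U hU => ?_⟩
    by_cases hd : d ∈ U
    · have h1 : z ∉ closure (s.Sf k G d (U ∩ G)) := fun h => hU ⟨hd, h⟩
      have h2 := hO' (U ∩ G) (U.isOpen.inter ha.1) ⟨hd, ha.2.1⟩ h1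
      exact (h2.closure_left hO).mono_left fun x hx => hx.2
    · rw [disjoint_left]
      rintro x ⟨hx1, _⟩ _
      exact hd hx1
  | three e W =>
    by_cases hz : z ∈ closure W
    · exact ⟨univ, isOpen_univ, mem_univ z, fun U hU => (hU hz).elim⟩
    · refine ⟨(closure W)ᶜ, isClosed_closure.isOpen_compl, hz, fun U _ => ?_⟩
      exact disjoint_compl_right

lemma h2 (z : X) (a : Node X) (ha : Val D A a) :
    ∃ (F : Set (Node X)) (O : Set X), F.Finite ∧ IsOpen O ∧ z ∈ O ∧
      ∀ U b, z ∉ P s a U → Act s a U b → b ∈ F ∨ Disjoint (Reg b) O := by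
  classical
  cases a with
  | one k C G =>
    obtain ⟨hC, hG, _⟩ := ha
    by_cases hz : z ∈ C
    · refine ⟨∅, univ, finite_empty, isOpen_univ, mem_univ z, fun U b hU hab => ?_⟩
      cases hab with
      | a hCU hN hM hd => exact (hU ⟨hCU, subset_Q' hC hCU hz⟩).elim
    · have hKc : IsClosed (D.T C z)ᶜ := ((D.T_tn C hC).isOpen z hz).isClosed_compl
      obtain ⟨n₀, O₀, hO₀, hzO₀, hg⟩ := D.g_spec (D.T C z)ᶜ z hKc
        (fun h => h ((D.T_tn C hC).self z hz))
      have key : ∀ n, ∃ (F : Set (Node X)) (O : Set X), F.Finite ∧ IsOpen O ∧ z ∈ O ∧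
          ∀ N ∈ D.net n, z ∉ D.L C N → D.L C N ⊆ G → ∀ d ∈ s.K C G n N,
            (s.B C G n N d ∩ O).Nonempty → Node.two k (interior (s.B C G n N d)) d ∈ F := by
        intro n
        obtain ⟨O₁, hO₁, hzO₁, hV⟩ := D.V_disc n z
        by_cases hN : ∃ N₀ ∈ D.net n, (D.V n N₀ ∩ O₁).Nonempty ∧ z ∉ D.L C N₀ ∧ D.L C N₀ ⊆ G
        · obtain ⟨N₀, hN₀, hne, hzL, hLG⟩ := hN
          obtain ⟨_, k2, _⟩ := s.hK C G n N₀ hC hG hN₀ hLG
          obtain ⟨O₂, hO₂, hzO₂, hfin⟩ := k2 z hzL
          refine ⟨(fun d => Node.two k (interior (s.B C G n N₀ d)) d) ''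
            {d | d ∈ s.K C G n N₀ ∧ (s.B C G n N₀ d ∩ O₂).Nonempty}, O₁ ∩ O₂, hfin.image _,
            hO₁.inter hO₂, ⟨hzO₁, hzO₂⟩, fun N hN hzN hLN d hd hB => ?_⟩
          obtain ⟨x, hxB, hx1, hx2⟩ := hB
          obtain ⟨k1, _, _⟩ := s.hK C G n N hC hG hN hLN
          have hxV : x ∈ D.V n N := (k1 d hd).2.2.2.1 hxB
          have : N = N₀ := hV N hN N₀ hN₀ ⟨x, hxV, hx1⟩ hne
          subst this
          exact ⟨d, ⟨hd, x, hxB, hx2⟩, rfl⟩
        · refine ⟨∅, O₁, finite_empty, hO₁, hzO₁, fun N hN' hzN hLN d hd hB => ?_⟩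
          obtain ⟨x, hxB, hx1⟩ := hB
          obtain ⟨k1, _, _⟩ := s.hK C G n N hC hG hN' hLN
          have hxV : x ∈ D.V n N := (k1 d hd).2.2.2.1 hxB
          exact hN ⟨N, hN', ⟨x, hxV, hx1⟩, hzN, hLN⟩
      choose F O hF hO hzO hFO using key
      refine ⟨⋃ n ∈ Finset.range n₀, F n, O₀ ∩ ⋂ n ∈ Finset.range n₀, O n,
        (Finset.range n₀).finite_toSet.biUnion fun n _ => hF n,
        hO₀.inter (isOpen_biInter_finset fun n _ => hO n),
        ⟨hzO₀, mem_iInter₂.2 fun n _ => hzO n⟩, fun U b hU hab => ?_⟩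
      cases hab with
      | @a _ _ _ _ n N d hCU hN hM hd =>
        have hzQ : z ∉ D.Q C (U ∩ G) := fun h => hU ⟨hCU, h⟩
        have hLQ := D.L_subset_Q hC hCU hM
        have hLK : D.L C N ⊆ (D.T C z)ᶜ := fun x hx hxT =>
          disjoint_left.1 (D.disjoint_Q hC hCU hzQ) (hLQ hx) hxT
        have hzL : z ∉ D.L C N := fun h => hzQ (hLQ h)
        have hLG : D.L C N ⊆ G := hLQ.trans ((D.Q_subset hC hCU).trans inter_subset_right)
        obtain ⟨k1, _, _⟩ := s.hK C G n N hC hG hN hLG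
        obtain ⟨b1, b2, b3, b4, b5⟩ := k1 d hd
        by_cases hn : n < n₀
        · by_cases hB : (s.B C G n N d ∩ O n).Nonempty
          · exact Or.inl (mem_iUnion₂.2 ⟨n, Finset.mem_range.2 hn, hFO n N hN hzL hLG d hd hB⟩)
          · refine Or.inr (disjoint_left.2 fun x hx hx' => hB ⟨x, closure_interior_sub b1 hx, ?_⟩)
            exact mem_iInter₂.1 hx'.2 n (Finset.mem_range.2 hn)
        · refine Or.inr (disjoint_left.2 fun x hx hx' => ?_)
          obtain ⟨y, hy, hxy⟩ := mem_iUnion₂.1 (b5 (closure_interior_sub b1 hx))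
          exact disjoint_left.1 (hg y (hLK hy) n (not_lt.1 hn)) hxy hx'.1
  | two k G d =>
    obtain ⟨hG, hd, _⟩ := ha
    obtain ⟨_, e2, e3, e4, e5⟩ := s.hE k G d hG hd
    obtain ⟨O₁, hO₁, hzO₁, hcp⟩ := e3 z
    obtain ⟨n₀, O₀, hO₀, hzO₀, hg⟩ := D.g_spec O₁ᶜ z hO₁.isClosed_compl (fun h => h hzO₁)
    choose O hO hzO hdisc using fun m => e5 m z
    refine ⟨⋃ m ∈ Finset.range n₀,
      ((fun e => Node.one (k + 1) {e} (interior (s.B2 k G d m e) ∩ interior (s.B3 k e))) ''
        {e | e ∈ s.E k G d m ∧ (s.B2 k G d m e ∩ O m).Nonempty} ∪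
      (fun e => Node.three e (s.W k e (interior (s.B2 k G d m e)))) ''
        {e | e ∈ s.E k G d m ∧ (s.B2 k G d m e ∩ O m).Nonempty}),
      O₀ ∩ ⋂ m ∈ Finset.range n₀, O m, ?_, hO₀.inter (isOpen_biInter_finset fun n _ => hO n),
      ⟨hzO₀, mem_iInter₂.2 fun n _ => hzO n⟩, fun U b hU hab => ?_⟩
    · refine (Finset.range n₀).finite_toSet.biUnion fun m _ => ?_
      have hfin : {e | e ∈ s.E k G d m ∧ (s.B2 k G d m e ∩ O m).Nonempty}.Finite :=
        Set.Subsingleton.finite fun e he e' he' => hdisc m e he.1 e' he'.1 he.2 he'.2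
      exact (hfin.image _).union (hfin.image _)
    · cases hab with
      | @b _ _ _ _ m e hdU he hem heL =>
        have hzS : z ∉ closure (s.Sf k G d (U ∩ G)) := fun h => hU ⟨hdU, h⟩
        have heO : e ∈ O₁ᶜ := fun h =>
          disjoint_left.1 (hcp _ (U.isOpen.inter hG) ⟨hdU, hd⟩ hzS) he h
        obtain ⟨b1, b2, b3, b4⟩ := e4 m e hem
        have hsub : closure (interior (s.B2 k G d m e) ∩ interior (s.B3 k e)) ⊆
            s.B2 k G d m e := (closure_mono inter_subset_left).trans (closure_interior_sub b1)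
        by_cases hm : m < n₀
        · by_cases hB : (s.B2 k G d m e ∩ O m).Nonempty
          · exact Or.inl (mem_iUnion₂.2 ⟨m, Finset.mem_range.2 hm, Or.inl ⟨e, ⟨hem, hB⟩, rfl⟩⟩)
          · refine Or.inr (disjoint_left.2 fun x hx hx' => hB ⟨x, hsub hx, ?_⟩)
            exact mem_iInter₂.1 hx'.2 m (Finset.mem_range.2 hm)
        · refine Or.inr (disjoint_left.2 fun x hx hx' => ?_)
          exact disjoint_left.1 (hg e heO m (not_lt.1 hm)) (b4 (hsub hx)) hx'.1
      | @c _ _ _ _ m e hdU he hem heI =>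
        have hzS : z ∉ closure (s.Sf k G d (U ∩ G)) := fun h => hU ⟨hdU, h⟩
        have heO : e ∈ O₁ᶜ := fun h =>
          disjoint_left.1 (hcp _ (U.isOpen.inter hG) ⟨hdU, hd⟩ hzS) he h
        obtain ⟨b1, b2, b3, b4⟩ := e4 m e hem
        obtain ⟨w1, w2, w3, _⟩ := s.hW k e _ isOpen_interior b2 heI
        have hsub : closure (s.W k e (interior (s.B2 k G d m e))) ⊆ s.B2 k G d m e :=
          w3.trans interior_subset
        by_cases hm : m < n₀
        · by_cases hB : (s.B2 k G d m e ∩ O m).Nonempty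
          · exact Or.inl (mem_iUnion₂.2 ⟨m, Finset.mem_range.2 hm, Or.inr ⟨e, ⟨hem, hB⟩, rfl⟩⟩)
          · refine Or.inr (disjoint_left.2 fun x hx hx' => hB ⟨x, hsub hx, ?_⟩)
            exact mem_iInter₂.1 hx'.2 m (Finset.mem_range.2 hm)
        · refine Or.inr (disjoint_left.2 fun x hx hx' => ?_)
          exact disjoint_left.1 (hg e heO m (not_lt.1 hm)) (b4 (hsub hx)) hx'.1
  | three e W =>
    exact ⟨∅, univ, finite_empty, isOpen_univ, mem_univ z, fun U b _ hab => by cases hab⟩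

/-- The measure. -/
def mu (ι : ℕ) : Node X → ℕ
  | .one k _ _ => 3 * (ι + 1 - k) + 2
  | .two k _ _ => 3 * (ι + 1 - k) + 1
  | .three _ _ => 0

lemma h3 [T1Space X] {z : X} {ι : ℕ} (hι : z ∈ Lam D A ι) (a : Node X)
    (U : TopologicalSpace.Opens X) (b : Node X) (ha : Val D A a) (_hza : z ∈ Reg a)
    (hab : Act s a U b) (hzb : z ∈ Reg b) : mu ι b < mu ι a := by
  have hb := hVal s a U b ha hab
  cases hab with
  | a hCU hN hM hd => simp [mu]
  | @b k G d U m e hdU he hem heL =>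
    have hk : k + 1 ≤ ι := by
      by_contra hlt
      exact disjoint_left.1 (hb.2.2 k (by omega)) hzb (Lam_mono D A (by omega) hι)
    simp only [mu]
    omega
  | c hdU he hem heI => simp [mu]

/-- The hull. -/
def R (a : Node X) (U : TopologicalSpace.Opens X) : Set X := {x | Hull (P s) (Act s) U a x}

lemma R_cp [T1Space X] (hA : IsClosed A) {z : X} (hz : z ∉ A) (a : Node X) (ha : Val D A a) :
    ∃ O, IsOpen O ∧ z ∈ O ∧ ∀ U, z ∉ R s a U → Disjoint (R s a U) O := by
  obtain ⟨ι, N, hN, hzM⟩ := D.exists_M hA hz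
  have hι : z ∈ Lam D A ι := ⟨ι, le_rfl, N, hN, D.M_subset_L A N hzM⟩
  exact hull_cp (P s) (Act s) (Val D A) Reg z (fun a U b ha hab => hVal s a U b ha hab)
    (fun a _ => hReg a) (fun a U ha => hP s a U ha) (fun a U b ha hab => hActReg s a U b ha hab)
    (h1 s z) (h2 s z) (mu ι) (fun a U b ha hza hab hzb => h3 s hι a U b ha hza hab hzb) a ha

lemma R_mono {a b : Node X} {U : TopologicalSpace.Opens X} (hab : Act s a U b) :
    R s b U ⊆ R s a U := fun _ hx => Hull.step hab hx

lemma P_sub (a : Node X) (U : TopologicalSpace.Opens X) : P s a U ⊆ R s a U :=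
  fun _ hx => Hull.base hx

/-- The sets of the nodes are in the closure of the interior of the hull. -/
lemma P_sub_closure [T1Space X] (a : Node X) (U : TopologicalSpace.Opens X) (ha : Val D A a) :
    P s a U ⊆ closure (interior (R s a U)) := by
  -- nodes `three`
  have t3 : ∀ e W, IsOpen W → W ⊆ interior (R s (.three e W) U) := by
    intro e W hW
    exact interior_maximal (subset_closure.trans (P_sub s (.three e W) U)) hW
  -- centres of nodes `one`
  have t1 : ∀ k C G, IsClosed C → IsOpen G → C ⊆ U ∩ G →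
      C ⊆ interior (R s (.one k C G) U) := by
    intro k C G hC hG hCU
    refine (D.subset_interior_Q hC (U.isOpen.inter hG) hCU).trans (interior_mono ?_)
    exact fun x hx => P_sub s (.one k C G) U ⟨hCU, hx⟩
  -- nodes `two`
  have t2 : ∀ k G d, Val D A (.two k G d) →
      P s (.two k G d) U ⊆ closure (interior (R s (.two k G d) U)) := by
    rintro k G d ⟨hG, hd, _⟩ x ⟨hdU, hx⟩
    obtain ⟨e1, e2, e3, e4, e5⟩ := s.hE k G d hG hd
    obtain ⟨S1, S2, S3⟩ := e2 (U ∩ G) (U.isOpen.inter hG) ⟨hdU, hd⟩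
    refine closure_mono ?_ hx
    intro e he
    obtain ⟨m, hem⟩ := mem_iUnion.1 (S1 he)
    obtain ⟨b1, b2, b3, b4⟩ := e4 m e hem
    have heU : e ∈ (U : Set X) := (S3 (subset_closure he)).1
    rcases (e1 m hem).2 with heL | heI
    · have hact : Act s (.two k G d) U
        (.one (k + 1) {e} (interior (s.B2 k G d m e) ∩ interior (s.B3 k e))) :=
        Act.b hdU he hem heL
      obtain ⟨c1, c2, c3⟩ := s.hB3 k e heL
      refine interior_mono (R_mono s hact) (t1 (k + 1) {e} _ isClosed_singleton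
        (isOpen_interior.inter isOpen_interior) ?_ rfl)
      rw [singleton_subset_iff]
      exact ⟨heU, b2, c2⟩
    · have hact : Act s (.two k G d) U (.three e (s.W k e (interior (s.B2 k G d m e)))) :=
        Act.c hdU he hem heI
      obtain ⟨w1, w2, w3, _⟩ := s.hW k e _ isOpen_interior b2 heI
      exact interior_mono (R_mono s hact) (t3 e _ w1 w2)
  cases a with
  | one k C G =>
    rintro x ⟨hCU, hxQ⟩
    obtain ⟨hC, hG, h3⟩ := ha
    by_cases hxC : x ∈ C
    · exact subset_closure (t1 k C G hC hG hCU hxC)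
    obtain ⟨n, N, hN, hxM⟩ := D.exists_M hC hxC
    have hM : (D.M C N ∩ D.Q C (U ∩ G)).Nonempty := ⟨x, hxM, hxQ⟩
    have hLQ := D.L_subset_Q hC hCU hM
    have hLG : D.L C N ⊆ G := hLQ.trans ((D.Q_subset hC hCU).trans inter_subset_right)
    obtain ⟨k1, k2, k3⟩ := s.hK C G n N hC hG hN hLG
    have hxL := D.M_subset_L C N hxM
    by_cases hxi : x ∈ interior (D.L C N)
    · refine subset_closure (interior_mono ?_ hxi)
      exact fun y hy => P_sub s (.one k C G) U ⟨hCU, hLQ hy⟩
    · have hxK := k3 x hxL hxi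
      rw [← closure_closure]
      rw [mem_closure_iff] at hxK ⊢
      intro O hO hxO
      obtain ⟨d, ⟨hdO, hdU⟩, hdK⟩ := hxK (O ∩ U) (hO.inter U.isOpen)
        ⟨hxO, (D.Q_subset hC hCU hxQ).1⟩
      obtain ⟨b1, b2, b3, _⟩ := k1 d hdK
      have hact : Act s (.one k C G) U (.two k (interior (s.B C G n N d)) d) :=
        Act.a hCU hN hM hdK
      have hval : Val D A (.two k (interior (s.B C G n N d)) d) :=
        hVal s _ U _ (show Val D A (.one k C G) from ⟨hC, hG, h3⟩) hact
      obtain ⟨e1, e2, _⟩ := s.hE k _ d hval.1 hval.2.1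
      obtain ⟨S1, S2, S3⟩ := e2 (U ∩ interior (s.B C G n N d)) (U.isOpen.inter hval.1)
        ⟨hdU, hval.2.1⟩
      exact ⟨d, hdO, closure_mono (interior_mono (R_mono s hact))
        (t2 k _ d hval ⟨hdU, S2⟩)⟩
  | two k G d => exact t2 k G d ha
  | three e W =>
    intro x hx
    exact closure_mono (t3 e W ha.1) hx

lemma R_sub_closure [T1Space X] (a : Node X) (U : TopologicalSpace.Opens X) (ha : Val D A a) :
    R s a U ⊆ closure (interior (R s a U)) := by
  intro x hx
  have : Hull (P s) (Act s) U a x := hx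
  clear hx
  induction this with
  | base h => exact P_sub_closure s _ U ha h
  | step hab _ ih =>
    exact closure_mono (interior_mono (R_mono s hab)) (ih (hVal s _ U _ ha hab))

/-- If `U ⊆ Q A V` then the hull is contained in `Q A V`. -/
lemma R_sub_Q [T1Space X] (hA : IsClosed A) {V : Set X} (hAV : A ⊆ V) (a : Node X)
    (U : TopologicalSpace.Opens X) (hU : (U : Set X) ⊆ D.Q A V) (ha : Val D A a)
    (h3 : ∀ e W, a ≠ .three e W) : R s a U ⊆ D.Q A V := by
  intro x hx
  have : Hull (P s) (Act s) U a x := hx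
  clear hx
  induction this with
  | @base a x h =>
    cases a with
    | one k C G => exact hU (D.Q_subset ha.1 h.1 h.2).1
    | two k G d =>
      obtain ⟨_, e2, _⟩ := s.hE k G d ha.1 ha.2.1
      exact hU ((e2 _ (U.isOpen.inter ha.1) ⟨h.1, ha.2.1⟩).2.2 h.2).1
    | three e W => exact (h3 e W rfl).elim
  | @step a b x hab hb ih =>
    have hvb := hVal s _ U _ ha hab
    cases hab with
    | a hCU hN hM hd => exact ih hvb (fun e W h => by cases h)
    | b hdU he hem heL => exact ih hvb (fun e W h => by cases h)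
    | @c k G d U m e hdU he hem heI =>
      obtain ⟨hG, hd, _⟩ := ha
      obtain ⟨_, e2, _, e4, _⟩ := s.hE k G d hG hd
      obtain ⟨b1, b2, b3, b4⟩ := e4 m e hem
      obtain ⟨w1, w2, w3, n, N, hN, heM, hWL⟩ := s.hW k e _ isOpen_interior b2 heI
      have heU : e ∈ (U : Set X) :=
        ((e2 _ (U.isOpen.inter hG) ⟨hdU, hd⟩).2.2 (subset_closure he)).1
      have hLQ : D.L A N ⊆ D.Q A V := D.L_subset_Q hA hAV ⟨e, heM, hU heU⟩
      cases hb with
      | base h => exact hLQ (hWL h)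
      | step h _ => cases h

end Main1

theorem hasR_of_hasPS {X : Type*} [TopologicalSpace X] [T1Space X] (D : Strat X)
    (h : HasPS X) (A : Set X) (hA : IsClosed A) : HasR A := by
  classical
  obtain ⟨s⟩ := Main1.exists_Sys D h A
  let root : Main1.Node X := .one 0 A univ
  have hroot : Main1.Val D A root := ⟨hA, isOpen_univ, fun j hj => absurd hj (Nat.not_lt_zero j)⟩
  let Uo : Set X → TopologicalSpace.Opens X := fun U => ⟨interior (D.Q A U), isOpen_interior⟩
  have hP : ∀ U, IsOpen U → A ⊆ U → D.Q A (interior (D.Q A U)) ⊆ Main1.R s root (Uo U) := by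
    intro U hU hAU x hx
    have hAi := D.subset_interior_Q hA hU hAU
    refine Main1.P_sub s root (Uo U) ⟨?_, ?_⟩
    · exact fun y hy => ⟨hAi hy, mem_univ y⟩
    · change x ∈ D.Q A (interior (D.Q A U) ∩ univ)
      rwa [inter_univ]
  have hcp : ∀ z, ∃ O, IsOpen O ∧ z ∈ O ∧ ∀ U, IsOpen U → A ⊆ U →
      z ∉ Main1.R s root (Uo U) → Disjoint (Main1.R s root (Uo U)) O := by
    intro z
    by_cases hz : z ∈ A
    · refine ⟨univ, isOpen_univ, mem_univ z, fun U hU hAU hzR => ?_⟩
      exact (hzR (hP U hU hAU (D.subset_Q hA isOpen_interior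
        (D.subset_interior_Q hA hU hAU) hz))).elim
    · obtain ⟨O, h1, h2, h3⟩ := Main1.R_cp s hA hz root hroot
      exact ⟨O, h1, h2, fun U _ _ hzR => h3 (Uo U) hzR⟩
  refine ⟨fun U => Main1.R s root (Uo U), fun U hU hAU => ⟨?_, ?_, ?_⟩, hcp⟩
  · exact (D.subset_interior_Q hA isOpen_interior (D.subset_interior_Q hA hU hAU)).trans
      (interior_mono (hP U hU hAU))
  · have hne : ∀ e W, root ≠ .three e W := fun e W h => by
      change Main1.Node.one 0 A univ = _ at h
      cases h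
    exact (Main1.R_sub_Q s hA hAU root (Uo U) interior_subset hroot hne).trans
      (D.Q_subset hA hAU)
  · refine Subset.antisymm ?_ (Main1.R_sub_closure s root (Uo U) hroot)
    have hcl : IsClosed (Main1.R s root (Uo U)) := by
      rw [← isOpen_compl_iff, isOpen_iff_mem_nhds]
      intro z hz
      obtain ⟨O, h1, h2, h3⟩ := hcp z
      refine Filter.mem_of_superset (h1.mem_nhds h2) fun x hx hxR => ?_
      exact disjoint_left.1 (h3 U hU hAU hz) hxR hx
    exact closure_minimal interior_subset hcl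

end Pool.Agent.H51.CI
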