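import Mathlib

/-!
# The hull of a tree of closed sets
-/

set_option autoImplicit false
open Topology Set

namespace Pool.Agent.H51.CI

/-- Membership in the hull. -/
inductive Hull {X ν 𝒰 : Type*} (P : ν → 𝒰 → Set X) (Act : ν → 𝒰 → ν → Prop) (U : 𝒰) :
    ν → X → Prop
  | base {a : ν} {x : X} : x ∈ P a U → Hull P Act U a x
  | step {a b : ν} {x : X} : Act a U b → Hull P Act U b x → Hull P Act U a x

theorem hull_cp {X ν 𝒰 : Type*} [TopologicalSpace X] (P : ν → 𝒰 → Set X)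
    (Act : ν → 𝒰 → ν → Prop) (Val : ν → Prop) (Reg : ν → Set X) (z : X)
    (hVal : ∀ a U b, Val a → Act a U b → Val b)
    (hReg : ∀ a, Val a → IsClosed (Reg a))
    (hP : ∀ a U, Val a → P a U ⊆ Reg a)
    (hActReg : ∀ a U b, Val a → Act a U b → Reg b ⊆ Reg a)
    (h1 : ∀ a, Val a → ∃ O, IsOpen O ∧ z ∈ O ∧ ∀ U, z ∉ P a U → Disjoint (P a U) O)
    (h2 : ∀ a, Val a → ∃ (F : Set ν) (O : Set X), F.Finite ∧ IsOpen O ∧ z ∈ O ∧
      ∀ U b, z ∉ P a U → Act a U b → b ∈ F ∨ Disjoint (Reg b) O)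
    (μ : ν → ℕ)
    (h3 : ∀ a U b, Val a → z ∈ Reg a → Act a U b → z ∈ Reg b → μ b < μ a) :
    ∀ a, Val a → ∃ O, IsOpen O ∧ z ∈ O ∧
      ∀ U, ¬ Hull P Act U a z → Disjoint {x | Hull P Act U a x} O := by
  have hsub : ∀ a U x, Val a → Hull P Act U a x → x ∈ Reg a := by
    intro a U x ha hx
    induction hx with
    | base h => exact hP _ _ ha h
    | step h1 _ ih => exact hActReg _ _ _ ha h1 (ih (hVal _ _ _ ha h1))
  have key : ∀ n : ℕ, ∀ a, μ a < n → Val a → ∃ O, IsOpen O ∧ z ∈ O ∧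
      ∀ U, ¬ Hull P Act U a z → Disjoint {x | Hull P Act U a x} O := by
    intro n
    induction n with
    | zero => intro a h; omega
    | succ n ih =>
      intro a hμ ha
      by_cases hza : z ∈ Reg a
      swap
      · refine ⟨(Reg a)ᶜ, (hReg a ha).isOpen_compl, hza, fun U _ => ?_⟩
        rw [disjoint_left]
        intro x hx hx'
        exact hx' (hsub a U x ha hx)
      obtain ⟨O₁, hO₁, hz₁, h1'⟩ := h1 a ha
      obtain ⟨F, O₂, hF, hO₂, hz₂, h2'⟩ := h2 a ha
      have : ∀ b, ∃ O, IsOpen O ∧ z ∈ O ∧ ∀ U, Act a U b → ¬ Hull P Act U b z →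
          Disjoint {x | Hull P Act U b x} O := by
        intro b
        by_cases hb : ∃ U, Act a U b
        swap
        · exact ⟨univ, isOpen_univ, mem_univ _, fun U hU => (hb ⟨U, hU⟩).elim⟩
        obtain ⟨U₀, hU₀⟩ := hb
        have hbV := hVal _ _ _ ha hU₀
        by_cases hzb : z ∈ Reg b
        · obtain ⟨O, h, h', h''⟩ := ih b
            (lt_of_lt_of_le (h3 a U₀ b ha hza hU₀ hzb) (by omega)) hbV
          exact ⟨O, h, h', fun U _ hU => h'' U hU⟩
        · refine ⟨(Reg b)ᶜ, (hReg b hbV).isOpen_compl, hzb, fun U _ _ => ?_⟩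
          rw [disjoint_left]
          intro x hx hx'
          exact hx' (hsub b U x hbV hx)
      choose Ob hOb hzOb hOb' using this
      refine ⟨O₁ ∩ O₂ ∩ ⋂ b ∈ F, Ob b,
        (hO₁.inter hO₂).inter (hF.isOpen_biInter fun b _ => hOb b),
        ⟨⟨hz₁, hz₂⟩, mem_iInter₂.2 fun b _ => hzOb b⟩, fun U hU => ?_⟩
      have hzP : z ∉ P a U := fun h => hU (Hull.base h)
      rw [disjoint_left]
      rintro x hx ⟨⟨hx1, hx2⟩, hx3⟩
      cases hx with
      | base h => exact disjoint_left.1 (h1' U hzP) h hx1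
      | @step _ b _ hab h =>
        have hnb : ¬ Hull P Act U b z := fun h' => hU (Hull.step hab h')
        rcases h2' U b hzP hab with hb | hb
        · exact disjoint_left.1 (hOb' b U hab hnb) h (mem_iInter₂.1 hx3 b hb)
        · exact disjoint_left.1 hb (hsub b U x (hVal _ _ _ ha hab) h) hx2
  exact fun a ha => key _ a (Nat.lt_succ_self _) ha

end Pool.Agent.H51.CI
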