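import Pool.Agent.H51.CI.Defs
import Pool.Agent.H51.CI.Hull

/-!
# Module PSOF: `HasCD` implies `HasPS`

Let `p ∈ closure A`; `HasCD` gives `E₀ ⊆ A`, `p ∈ closure E₀ = Z = ⋃ n, Z n`, `Z n` closed discrete.
`r x = min {n | x ∈ Z n}` for `x ∈ Z`; `Zr n = {x ∈ Z | r x = n}` is closed discrete, let `W n` be its
expansion (`D.exp`). For `x ∈ Z` choose (`D.exists_closed_nhd`) a closed neighbourhood
`B2 x ⊆ D.g (r x) x ∩ W (r x) x ∖ ⋃ m < r x, Z m`. We may also shrink it so that `x` is the only point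
of `Zr (r x)` in `B2 x` (intersect with `(Z (r x) ∖ {x})ᶜ`). Hence `y ∈ B2 x ∩ Z`, `y ≠ x` implies
`r x < r y`.
Nodes: pairs `(c, H)`, `c ∈ Z`, `H ⊆ X` open, `c ∈ H`, `closure H ⊆ B2 c`.
* `P (c,H) U = {x | c ∈ U ∩ H ∧ x ∈ D.Q {c} (U ∩ H) ∩ Z}`.
* `Act (c,H) U (e,H')`: `c ∈ U ∩ H`, `e ∈ D.Q {c} (U ∩ H) ∩ Z`, `e ≠ c`, `H' = H ∩ interior (B2 e)`.
* `Val (c,H)`: `IsOpen H ∧ c ∈ H ∧ c ∈ Z ∧ closure H ⊆ B2 c`;  `Reg (c,H) = closure H`.
* root: `(p, interior (B2 p))`.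
`hull_cp` (parameter type `Set X`, no openness needed) for fixed `z`:
 h1: if `c ∈ U ∩ H` fails then `P = ∅`. If `z ∉ Z` take `Zᶜ`. If `z ∈ Z`, `z ≠ c` take `D.T {c} z`
 (`disjoint_Q`); if `z = c` then `z ∈ D.Q {c} (U ∩ H)` for all `U` with `c ∈ U ∩ H` (`Q` contains `C`
 even without openness: `D.T {c} y` is disjoint from `{c}` for `y ≠ c`).
 h2: `K = Z` if `z ∉ Z`, `K = (D.T {c} z)ᶜ` if `z ∈ Z`, `z ≠ c`; `K` is closed, `z ∉ K`, and `e ∈ K` for
 every active child `e` when `z ∉ P`. `D.g_spec` gives `n`, `O`: children with `r e ≥ n` have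
 `closure H' ⊆ D.g (r e) e` disjoint from `O`. For `m < n` shrink `O` so that it meets at most one
 `W m e`, `e ∈ Zr m`: finitely many `e`, and `H'` is determined by `e`.
 (case `z = c`: `z ∈ P` whenever `c ∈ U ∩ H`, nothing to do.)
 h3: `μ (c,H) = bound - r c` where `bound = r z + 1` if `z ∈ Z`, and if `z ∉ Z` `bound = n + 1` with `n`
 from `D.g_spec Z z` (so `r e ≥ n → z ∉ D.g (r e) e`): if `z ∈ closure H' ⊆ B2 e` then
 `r c < r e < bound` (`e ∈ H ⊆ B2 c`, `e ≠ c`; for `z ∈ Z`: `z ∈ B2 e` implies `r z ≥ r e`).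
Result: `S U = E₀ ∩ {x | Hull P Act U root x}`, `E n = E₀ ∩ Z n`. Facts for `U` open, `p ∈ U`:
 (i) hull `⊆ U` (all `P ⊆ U`), and the hull is closed (`hull_cp` at every `z ∉` hull);
 (ii) every `x` in the hull is in `closure (S U)`: show for all valid nodes `a` and `x` with
 `Hull P Act U a x`: `x ∈ closure (E₀ ∩ {y | Hull P Act U a y})` (induction on `Hull`; in the base
 case `x ∈ D.Q {c} (U ∩ H) ∩ Z`: if `x = c` then `interior (D.Q {c} (U ∩ H)) ∋ c` is an open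
 neighbourhood and `c ∈ closure E₀`; if `x ≠ c` use the child `(x, H ∩ interior (B2 x))` and
 `x ∈ interior (D.Q {x} (U ∩ H ∩ interior (B2 x)))`).
 So `closure (S U)` is the hull, it contains `p`, is contained in `U`, and the last clause of `HasPS`
 is `hull_cp` for the root.
-/

set_option autoImplicit false
open Topology Set

namespace Pool.Agent.H51.CI

namespace PSof

variable {X : Type*} [TopologicalSpace X]

/-- The chosen neighbourhoods of the points of the closed set `Zs`. -/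
structure Sy (D : Strat X) (Zs : Set X) where
  r : X → ℕ
  B2 : X → Set X
  closed : ∀ x ∈ Zs, IsClosed (B2 x)
  int : ∀ x ∈ Zs, x ∈ interior (B2 x)
  g : ∀ x ∈ Zs, B2 x ⊆ D.g (r x) x
  disc : ∀ m z, ∃ O, IsOpen O ∧ z ∈ O ∧ ∀ e ∈ Zs, ∀ e' ∈ Zs, r e = m → r e' = m →
    (B2 e ∩ O).Nonempty → (B2 e' ∩ O).Nonempty → e = e'
  rank : ∀ x ∈ Zs, ∀ y ∈ B2 x, y ∈ Zs → y = x ∨ r x < r y

lemma exists_Sy [T1Space X] (D : Strat X) {Zs : Set X} {Z : ℕ → Set X}
    (hZ : ∀ n, CDisc (Z n)) (hZs : Zs = ⋃ n, Z n) : Nonempty (Sy D Zs) := by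
  classical
  have hex : ∀ x ∈ Zs, ∃ n, x ∈ Z n := fun x hx => by
    rw [hZs] at hx; exact mem_iUnion.1 hx
  let r : X → ℕ := fun x => sInf {n | x ∈ Z n}
  have hr : ∀ x ∈ Zs, x ∈ Z (r x) := fun x hx => Nat.sInf_mem (hex x hx)
  have hr' : ∀ x m, m < r x → x ∉ Z m := fun x m hm h =>
    absurd (Nat.sInf_le (s := {n | x ∈ Z n}) h) (not_le.2 hm)
  choose W hW1 hW2 using fun m => D.exp (Z m) (hZ m)
  have hB : ∀ x, ∃ B : Set X, x ∈ Zs → IsClosed B ∧ x ∈ interior B ∧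
      B ⊆ D.g (r x) x ∩ W (r x) x ∩ (⋃ m ∈ Finset.range (r x), Z m)ᶜ ∩ (Z (r x) \ {x})ᶜ := by
    intro x
    by_cases hx : x ∈ Zs
    · have hc1 : IsClosed (⋃ m ∈ Finset.range (r x), Z m) :=
        (Finset.range (r x)).finite_toSet.isClosed_biUnion fun m _ => hZ m _ Subset.rfl
      have hc2 : IsClosed (Z (r x) \ {x}) := hZ _ _ sdiff_subset
      obtain ⟨B, b1, b2, b3⟩ := D.exists_closed_nhd
        (D.g (r x) x ∩ W (r x) x ∩ (⋃ m ∈ Finset.range (r x), Z m)ᶜ ∩ (Z (r x) \ {x})ᶜ)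
        ((((D.g_open _ _).inter (hW1 _ x (hr x hx)).1).inter hc1.isOpen_compl).inter
          hc2.isOpen_compl) x
        ⟨⟨⟨D.g_self _ _, (hW1 _ x (hr x hx)).2⟩, fun h => by
          obtain ⟨m, hm, hxm⟩ := mem_iUnion₂.1 h
          exact hr' x m (Finset.mem_range.1 hm) hxm⟩, fun h => h.2 rfl⟩
      exact ⟨B, fun _ => ⟨b1, b2, b3⟩⟩
    · exact ⟨∅, fun h => (hx h).elim⟩
  choose B2 hB2 using hB
  refine ⟨⟨r, B2, fun x hx => (hB2 x hx).1, fun x hx => (hB2 x hx).2.1,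
    fun x hx y hy => ((hB2 x hx).2.2 hy).1.1.1, fun m z => ?_, fun x hx y hy hyZ => ?_⟩⟩
  · obtain ⟨O, hO, hzO, hO'⟩ := hW2 m z
    refine ⟨O, hO, hzO, fun e he e' he' hem hem' h1 h2 => ?_⟩
    subst hem
    refine hO' e (hr e he) e' (by rw [← hem']; exact hr e' he') ?_ ?_
    · exact h1.mono (inter_subset_inter_left _ fun y hy => ((hB2 e he).2.2 hy).1.1.2)
    · refine h2.mono (inter_subset_inter_left _ fun y hy => ?_)
      have := ((hB2 e' he').2.2 hy).1.1.2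
      rwa [hem'] at this
  · obtain ⟨⟨_, h2⟩, h3⟩ := (hB2 x hx).2.2 hy
    by_contra hcon
    push Not at hcon
    obtain ⟨hne, hle⟩ := hcon
    rcases lt_or_eq_of_le hle with hlt | heq
    · exact h2 (mem_iUnion₂.2 ⟨r y, Finset.mem_range.2 hlt, hr y hyZ⟩)
    · exact h3 ⟨by rw [← heq]; exact hr y hyZ, hne⟩

variable {D : Strat X} {Zs : Set X} (s : Sy D Zs)

/-- The sets of the nodes. -/
def P (D : Strat X) (Zs : Set X) : X × Set X → TopologicalSpace.Opens X → Set X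
  | (c, H), U => {x | c ∈ (U : Set X) ∩ H ∧ x ∈ D.Q {c} (U ∩ H) ∩ Zs}

/-- The active children. -/
inductive Act : X × Set X → TopologicalSpace.Opens X → X × Set X → Prop
  | a {c : X} {H : Set X} {U : TopologicalSpace.Opens X} {e : X} :
      c ∈ (U : Set X) ∩ H → e ∈ D.Q {c} (U ∩ H) → e ∈ Zs → e ≠ c →
      Act (c, H) U (e, H ∩ interior (s.B2 e))

/-- Valid nodes. -/
def Val (a : X × Set X) : Prop := IsOpen a.2 ∧ a.1 ∈ a.2 ∧ a.1 ∈ Zs ∧ closure a.2 ⊆ s.B2 a.1

lemma subset_Q' {C V : Set X} (hC : IsClosed C) (hCV : C ⊆ V) : C ⊆ D.Q C V := by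
  intro w hw y hy hwy
  exact disjoint_left.1 ((D.T_tn C hC).disj y fun h => hy (hCV h)) hwy hw

lemma hVal [T1Space X] (a : X × Set X) (U : TopologicalSpace.Opens X) (b : X × Set X)
    (ha : Val s a) (hab : Act s a U b) : Val s b := by
  cases hab with
  | @a c H _ e hc he heZ hne =>
    obtain ⟨h1, h2, h3, h4⟩ := ha
    have heU := D.Q_subset isClosed_singleton (by simpa using hc) he
    refine ⟨h1.inter isOpen_interior, ⟨heU.2, s.int e heZ⟩, heZ, ?_⟩
    exact (closure_mono inter_subset_right).trans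
      (closure_minimal interior_subset (s.closed e heZ))

lemma Reg_mono (a : X × Set X) (U : TopologicalSpace.Opens X) (b : X × Set X)
    (hab : Act s a U b) : closure b.2 ⊆ closure a.2 := by
  cases hab with
  | a hc he heZ hne => exact closure_mono inter_subset_left

lemma P_sub_Reg [T1Space X] (a : X × Set X) (U : TopologicalSpace.Opens X) :
    P D Zs a U ⊆ closure a.2 := by
  obtain ⟨c, H⟩ := a
  rintro x ⟨hc, hx, _⟩
  exact subset_closure (D.Q_subset isClosed_singleton (by simpa using hc) hx).2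

lemma P_sub_U [T1Space X] (a : X × Set X) (U : TopologicalSpace.Opens X) :
    P D Zs a U ⊆ U := by
  obtain ⟨c, H⟩ := a
  rintro x ⟨hc, hx, _⟩
  exact (D.Q_subset isClosed_singleton (by simpa using hc) hx).1

lemma h1 [T1Space X] (hZs : IsClosed Zs) (z : X) (a : X × Set X) :
    ∃ O, IsOpen O ∧ z ∈ O ∧ ∀ U, z ∉ P D Zs a U → Disjoint (P D Zs a U) O := by
  obtain ⟨c, H⟩ := a
  by_cases hzZ : z ∈ Zs
  swap
  · refine ⟨Zsᶜ, hZs.isOpen_compl, hzZ, fun U _ => disjoint_left.2 ?_⟩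
    rintro x ⟨_, _, hx⟩ hx'
    exact hx' hx
  by_cases hzc : z ∈ ({c} : Set X)
  · refine ⟨univ, isOpen_univ, mem_univ z, fun U hU => disjoint_left.2 ?_⟩
    rintro x ⟨hc, _, _⟩ _
    exact hU ⟨hc, subset_Q' isClosed_singleton (by simpa using hc) hzc, hzZ⟩
  · refine ⟨D.T {c} z, (D.T_tn {c} isClosed_singleton).isOpen z hzc,
      (D.T_tn {c} isClosed_singleton).self z hzc, fun U hU => disjoint_left.2 ?_⟩
    rintro x ⟨hc, hx, _⟩ hx'
    have hcU : ({c} : Set X) ⊆ (U : Set X) ∩ H := by simpa using hc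
    have hzQ : z ∉ D.Q {c} (U ∩ H) := fun h => hU ⟨hc, h, hzZ⟩
    exact disjoint_left.1 (D.disjoint_Q isClosed_singleton hcU hzQ) hx hx'

lemma h2 [T1Space X] (hZs : IsClosed Zs) (z : X) (a : X × Set X) :
    ∃ (F : Set (X × Set X)) (O : Set X), F.Finite ∧ IsOpen O ∧ z ∈ O ∧
      ∀ U b, z ∉ P D Zs a U → Act s a U b → b ∈ F ∨ Disjoint (closure b.2) O := by
  classical
  obtain ⟨c, H⟩ := a
  by_cases hzc : z ∈ ({c} : Set X) ∧ z ∈ Zs
  · refine ⟨∅, univ, finite_empty, isOpen_univ, mem_univ z, fun U b hU hab => ?_⟩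
    cases hab with
    | a hc he heZ hne =>
      exact (hU ⟨hc, subset_Q' isClosed_singleton (by simpa using hc) hzc.1, hzc.2⟩).elim
  -- the closed set which contains all active children
  have hK : ∃ K : Set X, IsClosed K ∧ z ∉ K ∧ ∀ (U : TopologicalSpace.Opens X) (e : X),
      c ∈ (U : Set X) ∩ H → z ∉ P D Zs (c, H) U → e ∈ D.Q {c} (U ∩ H) → e ∈ Zs → e ∈ K := by
    by_cases hzZ : z ∈ Zs
    swap
    · exact ⟨Zs, hZs, hzZ, fun U e _ _ _ he => he⟩
    have hzc' : z ∉ ({c} : Set X) := fun h => hzc ⟨h, hzZ⟩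
    refine ⟨(D.T {c} z)ᶜ, ((D.T_tn {c} isClosed_singleton).isOpen z hzc').isClosed_compl,
      fun h => h ((D.T_tn {c} isClosed_singleton).self z hzc'), fun U e hc hU he _ heT => ?_⟩
    have hcU : ({c} : Set X) ⊆ (U : Set X) ∩ H := by simpa using hc
    have hzQ : z ∉ D.Q {c} (U ∩ H) := fun h => hU ⟨hc, h, hzZ⟩
    exact disjoint_left.1 (D.disjoint_Q isClosed_singleton hcU hzQ) he heT
  obtain ⟨K, hKc, hzK, hKe⟩ := hK
  obtain ⟨n₀, O₀, hO₀, hzO₀, hg⟩ := D.g_spec K z hKc hzK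
  choose O hO hzO hdisc using fun m => s.disc m z
  refine ⟨⋃ m ∈ Finset.range n₀, (fun e => (e, H ∩ interior (s.B2 e))) ''
      {e | e ∈ Zs ∧ s.r e = m ∧ (s.B2 e ∩ O m).Nonempty},
    O₀ ∩ ⋂ m ∈ Finset.range n₀, O m, ?_, hO₀.inter (isOpen_biInter_finset fun n _ => hO n),
    ⟨hzO₀, mem_iInter₂.2 fun n _ => hzO n⟩, fun U b hU hab => ?_⟩
  · refine (Finset.range n₀).finite_toSet.biUnion fun m _ => ?_
    refine Finite.image _ (Set.Subsingleton.finite fun e he e' he' => ?_)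
    exact hdisc m e he.1 e' he'.1 he.2.1 he'.2.1 he.2.2 he'.2.2
  · cases hab with
    | @a _ _ _ e hc he heZ hne =>
      have hsub : closure (H ∩ interior (s.B2 e)) ⊆ s.B2 e :=
        (closure_mono inter_subset_right).trans
          (closure_minimal interior_subset (s.closed e heZ))
      by_cases hm : s.r e < n₀
      · by_cases hB : (s.B2 e ∩ O (s.r e)).Nonempty
        · exact Or.inl (mem_iUnion₂.2 ⟨s.r e, Finset.mem_range.2 hm, ⟨e, ⟨heZ, rfl, hB⟩, rfl⟩⟩)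
        · refine Or.inr (disjoint_left.2 fun x hx hx' => hB ⟨x, hsub hx, ?_⟩)
          exact mem_iInter₂.1 hx'.2 _ (Finset.mem_range.2 hm)
      · refine Or.inr (disjoint_left.2 fun x hx hx' => ?_)
        exact disjoint_left.1 (hg e (hKe U e hc hU he heZ) (s.r e) (not_lt.1 hm))
          (s.g e heZ (hsub hx)) hx'.1

lemma h3 [T1Space X] (hZs : IsClosed Zs) (z : X) : ∃ bd : ℕ, ∀ (a : X × Set X)
    (U : TopologicalSpace.Opens X) (b : X × Set X), Val s a → z ∈ closure a.2 → Act s a U b →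
      z ∈ closure b.2 → bd - s.r b.1 < bd - s.r a.1 := by
  have hbd : ∃ bd : ℕ, ∀ e ∈ Zs, z ∈ s.B2 e → s.r e < bd := by
    by_cases hzZ : z ∈ Zs
    · refine ⟨s.r z + 1, fun e he hz => ?_⟩
      rcases s.rank e he z hz hzZ with h | h
      · rw [h]; omega
      · omega
    · obtain ⟨n, O, hO, hzO, hg⟩ := D.g_spec Zs z hZs hzZ
      refine ⟨n + 1, fun e he hz => ?_⟩
      by_contra hlt
      exact disjoint_left.1 (hg e he (s.r e) (by omega)) (s.g e he hz) hzO
  obtain ⟨bd, hbd⟩ := hbd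
  refine ⟨bd, fun a U b ha hza hab hzb => ?_⟩
  have hb := hVal s a U b ha hab
  have h1 : s.r b.1 < bd := hbd _ hb.2.2.1 (hb.2.2.2 hzb)
  have h2 : s.r a.1 < s.r b.1 := by
    cases hab with
    | @a c H _ e hc he heZ hne =>
      obtain ⟨h1, h2, h3, h4⟩ := ha
      have heU := D.Q_subset isClosed_singleton (by simpa using hc) he
      rcases s.rank c h3 e (h4 (subset_closure heU.2)) heZ with h | h
      · exact (hne h).elim
      · exact h
  omega

lemma R_cp [T1Space X] (hZs : IsClosed Zs) (z : X) (a : X × Set X) (ha : Val s a) :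
    ∃ O, IsOpen O ∧ z ∈ O ∧ ∀ U, ¬ Hull (P D Zs) (Act s) U a z →
      Disjoint {x | Hull (P D Zs) (Act s) U a x} O := by
  obtain ⟨bd, hbd⟩ := h3 s hZs z
  exact hull_cp (P D Zs) (Act s) (Val s) (fun a => closure a.2) z
    (fun a U b ha hab => hVal s a U b ha hab) (fun a _ => isClosed_closure)
    (fun a U _ => P_sub_Reg a U) (fun a U b _ hab => Reg_mono s a U b hab)
    (fun a _ => h1 hZs z a) (fun a _ => h2 s hZs z a) (fun a => bd - s.r a.1)
    (fun a U b ha hza hab hzb => hbd a U b ha hza hab hzb) a ha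

lemma hull_dense [T1Space X] {E₀ : Set X} (hE : Zs = closure E₀) (a : X × Set X)
    (U : TopologicalSpace.Opens X) (x : X) (ha : Val s a)
    (hx : Hull (P D Zs) (Act s) U a x) :
    x ∈ closure (E₀ ∩ {y | Hull (P D Zs) (Act s) U a y}) := by
  have key : ∀ c H, Val s (c, H) → c ∈ U →
      c ∈ closure (E₀ ∩ {y | Hull (P D Zs) (Act s) U (c, H) y}) := by
    intro c H ha hc
    obtain ⟨h1, h2, h3, h4⟩ := ha
    have hcU : ({c} : Set X) ⊆ (U : Set X) ∩ H := by
      rw [singleton_subset_iff]; exact ⟨hc, h2⟩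
    have hint := D.subset_interior_Q isClosed_singleton (U.isOpen.inter h1) hcU rfl
    rw [mem_closure_iff]
    intro O hO hcO
    have hcE : c ∈ closure E₀ := by rw [← hE]; exact h3
    obtain ⟨y, ⟨hyO, hyQ⟩, hyE⟩ := mem_closure_iff.1 hcE _ (hO.inter isOpen_interior)
      ⟨hcO, hint⟩
    refine ⟨y, hyO, hyE, Hull.base ⟨⟨hc, h2⟩, interior_subset hyQ, ?_⟩⟩
    rw [hE]; exact subset_closure hyE
  induction hx with
  | @base a x h =>
    obtain ⟨c, H⟩ := a
    obtain ⟨hc, hxQ, hxZ⟩ := h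
    by_cases hxc : x = c
    · subst hxc
      exact key x H ha hc.1
    · have hact : Act s (c, H) U (x, H ∩ interior (s.B2 x)) := Act.a hc hxQ hxZ hxc
      have hval := hVal s _ U _ ha hact
      have hxU := (D.Q_subset isClosed_singleton (by simpa using hc) hxQ).1
      refine closure_mono ?_ (key x _ hval hxU)
      exact fun y hy => ⟨hy.1, Hull.step hact hy.2⟩
  | step hab _ ih =>
    refine closure_mono ?_ (ih (hVal s _ U _ ha hab))
    exact fun y hy => ⟨hy.1, Hull.step hab hy.2⟩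

lemma hull_sub_U [T1Space X] (a : X × Set X) (U : TopologicalSpace.Opens X) (x : X)
    (hx : Hull (P D Zs) (Act s) U a x) : x ∈ U := by
  induction hx with
  | base h => exact P_sub_U _ U h
  | step _ _ ih => exact ih

end PSof

theorem hasPS_of_hasCD {X : Type*} [TopologicalSpace X] [T1Space X] (D : Strat X)
    (h : HasCD X) : HasPS X := by
  classical
  intro A p hp
  obtain ⟨E₀, hE₀A, hpE, Z, hZ, hcl⟩ := h A p hp
  obtain ⟨s⟩ := PSof.exists_Sy D hZ hcl
  have hZs : IsClosed (closure E₀) := isClosed_closure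
  let root : X × Set X := (p, interior (s.B2 p))
  have hroot : PSof.Val s root := ⟨isOpen_interior, s.int p hpE, hpE,
    closure_minimal interior_subset (s.closed p hpE)⟩
  let R : TopologicalSpace.Opens X → Set X :=
    fun U => {x | Hull (PSof.P D (closure E₀)) (PSof.Act s) U root x}
  have hcp : ∀ z, ∃ O, IsOpen O ∧ z ∈ O ∧ ∀ U, z ∉ R U → Disjoint (R U) O := fun z =>
    PSof.R_cp s hZs z root hroot
  have hRc : ∀ U, IsClosed (R U) := by
    intro U
    rw [← isOpen_compl_iff, isOpen_iff_mem_nhds]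
    intro z hz
    obtain ⟨O, h1, h2, h3⟩ := hcp z
    refine Filter.mem_of_superset (h1.mem_nhds h2) fun x hx hxR => ?_
    exact disjoint_left.1 (h3 U hz) hxR hx
  have hRcl : ∀ U, closure (E₀ ∩ R U) = R U := fun U =>
    Subset.antisymm (closure_minimal inter_subset_right (hRc U))
      fun x hx => PSof.hull_dense s rfl root U x hroot hx
  let S : Set X → Set X := fun V => if hV : IsOpen V then E₀ ∩ R ⟨V, hV⟩ else ∅
  have hS : ∀ V (hV : IsOpen V), S V = E₀ ∩ R ⟨V, hV⟩ := fun V hV => dif_pos hV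
  refine ⟨fun n => E₀ ∩ Z n, S, fun n x hx => hE₀A hx.1,
    fun n F hF => hZ n F (hF.trans inter_subset_right), fun V hV hpV => ?_, fun z => ?_⟩
  · rw [hS V hV, hRcl]
    refine ⟨fun x hx => ?_, ?_, fun x hx => PSof.hull_sub_U s root ⟨V, hV⟩ x hx⟩
    · have : x ∈ ⋃ n, Z n := by rw [← hcl]; exact subset_closure hx.1
      obtain ⟨n, hn⟩ := mem_iUnion.1 this
      exact mem_iUnion.2 ⟨n, hx.1, hn⟩
    · have hc : p ∈ (V : Set X) ∩ interior (s.B2 p) := ⟨hpV, s.int p hpE⟩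
      exact Hull.base ⟨hc, PSof.subset_Q' isClosed_singleton (by simpa using hc) rfl, hpE⟩
  · obtain ⟨O, hO, hzO, hO'⟩ := hcp z
    refine ⟨O, hO, hzO, fun V hV hpV hz => ?_⟩
    rw [hS V hV] at hz ⊢
    rw [hRcl] at hz
    exact (hO' _ hz).mono_left inter_subset_right

end Pool.Agent.H51.CI
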