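import Pool.Agent.H51.CI.Net
import Pool.Agent.H51.CI.Exp

/-!
# Assembly of the structure `Strat`
-/

set_option autoImplicit false
open Topology Set

namespace Pool.Agent.H51.CI

theorem exists_strat {X : Type*} [TopologicalSpace X] (h : HasCPNet X) (hMN : HasMN X)
    (hTN : HasTN X) : Nonempty (Strat X) := by
  classical
  obtain ⟨net, h1, h2, h3⟩ := exists_disc_net h
  obtain ⟨g, g1, g2, g3⟩ := exists_g h hMN
  choose V hV1 hV2 using fun n => exists_expansion hMN (net n) (h1 n) (h3 n)
  choose T hT using hTN
  exact ⟨{
    net := net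
    net_closed := h1
    net_spec := h2
    V := V
    V_open := fun n N hN => (hV1 n N hN).1
    V_sub := fun n N hN => (hV1 n N hN).2
    V_disc := fun n z => hV2 n z
    T := fun C => if h : IsClosed C then T C h else fun _ => ∅
    T_tn := fun C hC => by rw [dif_pos hC]; exact hT C hC
    g := g
    g_open := g1
    g_self := g2
    g_spec := g3
    exp := fun Z hZ => exists_expansion_cdisc hMN Z hZ }⟩

end Pool.Agent.H51.CI
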