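import Pool.Agent.H51.CI.CC

/-!
# Module WB: countable closures in countably tight stratifiable spaces with omega^omega bases
-/

set_option autoImplicit false
open Topology Set

namespace Pool.Agent.H51.CI

/-- `p` has an omega^omega base. -/
def HasWB {X : Type*} [TopologicalSpace X] (p : X) : Prop :=
  ∃ U : (ℕ → ℕ) → Set X, (∀ φ, U φ ∈ 𝓝 p) ∧ (∀ V ∈ 𝓝 p, ∃ φ, U φ ⊆ V) ∧
    ∀ φ ψ, φ ≤ ψ → U ψ ⊆ U φ

/-- Countable tightness. -/
def CTight (X : Type*) [TopologicalSpace X] : Prop :=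
  ∀ (A : Set X) (p : X), p ∈ closure A → ∃ A₀ ⊆ A, A₀.Countable ∧ p ∈ closure A₀

/-- Let `A₀` be countable. The sets `N ∈ D.net n` which meet `closure A₀` are countably many:
`D.V n N` is open and meets `A₀`, and for `N ≠ N'` in `D.net n` the sets `D.V n N` and `D.V n N'` are
disjoint (`V_disc`). -/
theorem countable_net {X : Type*} [TopologicalSpace X] (D : Strat X) {A₀ : Set X}
    (hA : A₀.Countable) : {N | ∃ n, N ∈ D.net n ∧ (N ∩ closure A₀).Nonempty}.Countable := by
  classical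
  rcases isEmpty_or_nonempty X with hX | hX
  · refine countable_empty.mono ?_
    rintro N ⟨n, _, x, _⟩
    exact hX.elim x
  have h : {N | ∃ n, N ∈ D.net n ∧ (N ∩ closure A₀).Nonempty} =
      ⋃ n, {N | N ∈ D.net n ∧ (N ∩ closure A₀).Nonempty} := by
    ext N; simp
  rw [h]
  refine countable_iUnion fun n => ?_
  have hex : ∀ N ∈ {N | N ∈ D.net n ∧ (N ∩ closure A₀).Nonempty}, ∃ a ∈ A₀, a ∈ D.V n N := by
    rintro N ⟨hN, x, hxN, hx⟩
    obtain ⟨a, ha, haA⟩ := mem_closure_iff.1 hx (D.V n N) (D.V_open n N hN) (D.V_sub n N hN hxN)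
    exact ⟨a, haA, ha⟩
  choose! f hfA hfV using hex
  refine Set.MapsTo.countable_of_injOn (f := f) (t := A₀) (fun N hN => hfA N hN) ?_ hA
  intro N hN N' hN' heq
  obtain ⟨O, hO, hz, h⟩ := D.V_disc n (f N)
  refine h N hN.1 N' hN'.1 ⟨f N, hfV N hN, hz⟩ ⟨f N, ?_, hz⟩
  rw [heq]
  exact hfV N' hN'

/-- Countably tight stratifiable spaces with omega^omega bases have `HasCC`.
`p ∈ closure A`; take a countable `A₀ ⊆ A` with `p ∈ closure A₀`, `Z = closure A₀`, and apply
`exists_countable_closure` and `countable_net` (a point `z ∈ Z` and an open `U ∋ z` have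
`N ∈ D.net n`, `z ∈ N ⊆ U`, and `N` meets `Z`). -/
theorem hasCC_of_hasWB {X : Type*} [TopologicalSpace X] [T2Space X] (D : Strat X)
    (ht : CTight X) (hW : ∀ p : X, HasWB p) : HasCC X := by
  intro A p hp
  obtain ⟨A₀, hA₀, hc, hp₀⟩ := ht A p hp
  obtain ⟨U, hU, hbase, hanti⟩ := hW p
  have hcN := countable_net D hc
  have hne : {N | ∃ n, N ∈ D.net n ∧ (N ∩ closure A₀).Nonempty}.Nonempty := by
    obtain ⟨n, N, hN, hpN, _⟩ := D.net_spec p univ isOpen_univ (mem_univ p)
    exact ⟨N, n, hN, p, hpN, hp₀⟩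
  obtain ⟨N, hN⟩ := hcN.exists_eq_range hne
  obtain ⟨E, hE, h1, h2⟩ := exists_countable_closure (closure A₀) isClosed_closure N
    (fun z hz V hV hzV => by
      obtain ⟨n, M, hM, hzM, hMV⟩ := D.net_spec z V hV hzV
      have : M ∈ {N | ∃ n, N ∈ D.net n ∧ (N ∩ closure A₀).Nonempty} := ⟨n, hM, z, hzM, hz⟩
      rw [hN] at this
      obtain ⟨i, rfl⟩ := this
      exact ⟨i, hzM, hMV⟩) p U hU hbase hanti A₀ hc subset_closure hp₀
  exact ⟨E, hE.trans hA₀, h1, h2⟩

/-- A separable stratifiable space is countably tight: the network elements that meet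
`univ = closure (dense countable set)` are countably many; choose a point of `A ∩ N` for each such
`N` with `A ∩ N` nonempty. -/
theorem cTight_of_separable {X : Type*} [TopologicalSpace X] [TopologicalSpace.SeparableSpace X]
    (D : Strat X) : CTight X := by
  classical
  intro A p hp
  obtain ⟨s, hs, hd⟩ := TopologicalSpace.exists_countable_dense X
  have hcN := countable_net D hs
  let 𝒮 : Set (Set X) := {N | ∃ n, N ∈ D.net n ∧ (N ∩ closure s).Nonempty}
  have h𝒮 : 𝒮.Countable := hcN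
  let f : Set X → X := fun N => if h : (A ∩ N).Nonempty then h.some else p
  refine ⟨A ∩ f '' 𝒮, inter_subset_left, (h𝒮.image f).mono inter_subset_right, ?_⟩
  rw [mem_closure_iff]
  intro O hO hpO
  obtain ⟨a, haO, haA⟩ := mem_closure_iff.1 hp O hO hpO
  obtain ⟨n, N, hN, haN, hNO⟩ := D.net_spec a O hO haO
  have hne : (A ∩ N).Nonempty := ⟨a, haA, haN⟩
  have hf : f N = hne.some := dif_pos hne
  have hmem := hne.some_mem
  rw [← hf] at hmem
  refine ⟨f N, hNO hmem.2, hmem.1, N, ⟨n, hN, a, haN, ?_⟩, rfl⟩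
  rw [hd.closure_eq]
  exact mem_univ a

end Pool.Agent.H51.CI
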