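import Pool.Agent.H51.CI.TN
import Pool.Agent.H51.CI.MN
import Pool.Agent.H51.CI.StratOf
import Pool.Agent.H51.CI.Img
import Pool.Agent.H51.CI.WB
import Pool.Agent.H51.CI.CKW
import Pool.Agent.H51.CI.PSof
import Pool.Agent.H51.CI.Main1

/-!
# Closed images
-/

set_option autoImplicit false
open Topology Set

namespace Pool.Agent.H51.CI

theorem exists_strat_of_hasM2 {X : Type*} [TopologicalSpace X] (h : HasM2 X) :
    Nonempty (Strat X) :=
  exists_strat (hasCPNet_of_hasM2 h) (hasMN_of_hasM2 h) (hasTN_of_hasM2 h)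

/-- Stratifiable spaces with `HasCD` are `M₁`. -/
theorem hasM1_of_hasCD {X : Type*} [TopologicalSpace X] [T1Space X] (D : Strat X)
    (h : HasCD X) : HasM1 X :=
  hasM1_of_hasR D fun A hA => hasR_of_hasPS D (hasPS_of_hasCD D h) A hA

/-- Closed images of subspaces of stratifiable spaces with `HasCD` are `M₁`. -/
theorem closedImage {X : Type*} [TopologicalSpace X] [T1Space X] (h2 : HasM2 X) (h : HasCD X)
    (S : Set X) {Y : Type*} [TopologicalSpace Y] (f : S → Y) (hc : Continuous f)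
    (hcl : IsClosedMap f) (hs : Function.Surjective f) : T3Space Y ∧ HasM1 Y := by
  have hS2 : HasM2 S := h2.subspace S
  have hSD : HasCD S := h.subspace S
  have h1 : HasCPNet Y := (hasCPNet_of_hasM2 hS2).image hc hcl hs
  have h3 : HasMN Y := (hasMN_of_hasM2 hS2).image hc hcl hs
  have h4 : HasTN Y := (hasTN_of_hasM2 hS2).image hc hcl hs
  have h5 : HasCD Y := hSD.image hc hcl hs
  have h6 : T1Space Y := t1Space_image hcl hs
  have h7 : RegularSpace Y := regular_of_hasMN h3
  obtain ⟨D⟩ := exists_strat h1 h3 h4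
  exact ⟨{}, hasM1_of_hasCD D h5⟩

/-- `C(P, ℝ)` has `HasM2` and `HasCD` for `P` Polish. -/
theorem hasCD_C (P : Type*) [TopologicalSpace P] [PolishSpace P] :
    HasM2 C(P, ℝ) ∧ HasCD C(P, ℝ) := by
  have h1 : HasM1 C(P, ℝ) := (CK.main P).2
  have h2 : HasM2 C(P, ℝ) := hasM2_of_hasM1 h1
  obtain ⟨D⟩ := exists_strat_of_hasM2 h2
  have := separable_C P
  exact ⟨h2, hasCD_of_hasCC (hasCC_of_hasWB D (cTight_of_separable D) (hasWB_C P))⟩

end Pool.Agent.H51.CI
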