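import Pool.Agent.H51.CI.Main2

/-!
# Small spaces: every point is captured
-/

set_option autoImplicit false
open Topology Set

namespace Pool.Agent.H51.CI

/-- Small sets: sets with fewer points than the dominating number. -/
def Sm {X : Type*} (T : Set X) : Prop :=
  ∀ f : X → ℕ → ℕ, ∃ h : ℕ → ℕ, ∀ x ∈ T, ∃ k, f x k ≤ h k

namespace SmallSp

open Nb

variable {X : Type*} [TopologicalSpace X]

/-- The index of the class of `z` at stage `k`. -/
noncomputable def fz (D : Strat X) (A : Set X) (h : ℕ → ℕ) (k : ℕ) (z : X) : ℕ :=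
  sInf {n | ∃ N ∈ D.net n, z ∈ cls A (Sq D A h k) N}

lemma fz_spec (D : Strat X) {A : Set X} (hA : IsClosed A) (h : ℕ → ℕ) (k : ℕ) {z : X}
    (hz : z ∉ A) : ∃ N ∈ D.net (fz D A h k z), z ∈ cls A (Sq D A h k) N := by
  have hS := isTN_Sq (D := D) hA h k
  have hne : {n | ∃ N ∈ D.net n, z ∈ cls A (Sq D A h k) N}.Nonempty := by
    obtain ⟨n, N, hN, hzN, hsub⟩ := D.net_spec z _ (hS.isOpen z hz) (hS.self z hz)
    exact ⟨n, N, hN, hz, hzN, hsub⟩
  exact Nat.sInf_mem hne

lemma fz_congr (D : Strat X) (A : Set X) {h h' : ℕ → ℕ} {k : ℕ} (hh : ∀ i < k, h i = h' i)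
    (z : X) : fz D A h k z = fz D A h' k z := by
  unfold fz
  rw [Sq_congr D A hh]

/-- Extension by zero. -/
def ext {k b : ℕ} (s : Fin k → Fin (b + 1)) (i : ℕ) : ℕ := if hi : i < k then s ⟨i, hi⟩ else 0

/-- The maximum of the indices over bounded histories. -/
noncomputable def Fh (D : Strat X) (A : Set X) (z : X) (k b : ℕ) : ℕ :=
  Finset.univ.sup (fun s : Fin k → Fin (b + 1) => fz D A (ext s) k z)

lemma le_Fh (D : Strat X) (A : Set X) (z : X) (k b : ℕ) (h : ℕ → ℕ) (hb : ∀ i < k, h i ≤ b) :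
    fz D A h k z ≤ Fh D A z k b := by
  let s : Fin k → Fin (b + 1) := fun i => ⟨h i, Nat.lt_succ_of_le (hb i i.2)⟩
  have : fz D A h k z = fz D A (ext s) k z := fz_congr D A (fun i hi => by
    simp [ext, hi, s]) z
  rw [this]
  exact Finset.le_sup (f := fun s : Fin k → Fin (b + 1) => fz D A (ext s) k z)
    (Finset.mem_univ s)

/-- The bound of all uncaptured histories. -/
noncomputable def G (D : Strat X) (A : Set X) (z : X) : ℕ → ℕ
  | 0 => Fh D A z 0 0
  | k + 1 => max (G D A z k) (Fh D A z (k + 1) (G D A z k))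

lemma G_mono (D : Strat X) (A : Set X) (z : X) {i j : ℕ} (hij : i ≤ j) :
    G D A z i ≤ G D A z j :=
  monotone_nat_of_le_succ (f := G D A z) (fun _ => le_max_left _ _) hij

lemma fz_le_G (D : Strat X) (A : Set X) (z : X) (h : ℕ → ℕ) (hh : ∀ k, h k < fz D A h k z)
    (k : ℕ) : fz D A h k z ≤ G D A z k := by
  induction k using Nat.strong_induction_on with
  | _ k ih =>
    cases k with
    | zero => exact le_Fh D A z 0 0 h (fun i hi => by omega)
    | succ k =>
      refine (le_Fh D A z (k + 1) (G D A z k) h fun i hi => ?_).trans (le_max_right _ _)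
      exact (hh i).le.trans ((ih i hi).trans (G_mono D A z (by omega)))

/-- The choice of `h`. -/
theorem exists_h (D : Strat X) {A : Set X} (hA : IsClosed A) {T : Set X} (hT : Sm T)
    (b : ℕ → ℕ) : ∃ h : ℕ → ℕ, (∀ k, b k ≤ h k) ∧
      ∀ z ∈ T, z ∉ A → ∃ k, z ∈ Lam D A (Sq D A h k) (h k) := by
  obtain ⟨h₀, hh₀⟩ := hT (fun z k => G D A z k)
  refine ⟨fun k => max (h₀ k) (b k), fun k => le_max_right _ _, fun z hzT hzA => ?_⟩
  set h : ℕ → ℕ := fun k => max (h₀ k) (b k) with hh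
  by_contra hcon
  push Not at hcon
  have hlt : ∀ k, h k < fz D A h k z := by
    intro k
    by_contra hle
    obtain ⟨N, hN, hzN⟩ := fz_spec D hA h k hzA
    exact hcon k ⟨_, not_lt.1 hle, N, hN, hzN⟩
  obtain ⟨k, hk⟩ := hh₀ z hzT
  have h1 := fz_le_G D A z h hlt k
  have h2 := hlt k
  have h3 : h₀ k ≤ h k := le_max_left _ _
  omega

/-- The structure with the singletons of closed discrete sets added to the network. -/
theorem exists_addSing (D : Strat X) (Z : ℕ → Set X) (hZ : ∀ n, CDisc (Z n)) :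
    ∃ D' : Strat X, ∀ n, ∀ z ∈ Z n, ({z} : Set X) ∈ D'.net (2 * n + 1) := by
  classical
  choose W hW1 hW2 using fun n => D.exp (Z n) (hZ n)
  let net' : ℕ → Set (Set X) := fun m =>
    if m % 2 = 0 then D.net (m / 2) else (fun x => ({x} : Set X)) '' Z (m / 2)
  let V' : ℕ → Set X → Set X := fun m N =>
    if m % 2 = 0 then D.V (m / 2) N else ⋃ x ∈ N, W (m / 2) x
  have e0 : ∀ m, m % 2 = 0 → net' m = D.net (m / 2) := fun m hm => if_pos hm
  have e1 : ∀ m, ¬ m % 2 = 0 → net' m = (fun x => ({x} : Set X)) '' Z (m / 2) :=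
    fun m hm => if_neg hm
  have v0 : ∀ m N, m % 2 = 0 → V' m N = D.V (m / 2) N := fun m N hm => if_pos hm
  have v1 : ∀ m N, ¬ m % 2 = 0 → V' m N = ⋃ x ∈ N, W (m / 2) x := fun m N hm => if_neg hm
  have v1' : ∀ m x, ¬ m % 2 = 0 → V' m {x} = W (m / 2) x := fun m x hm => by
    rw [v1 m _ hm, biUnion_singleton]
  refine ⟨{
    net := net'
    net_closed := fun m N hN => ?_
    net_spec := fun x U hU hx => ?_
    V := V'
    V_open := fun m N hN => ?_
    V_sub := fun m N hN => ?_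
    V_disc := fun m z => ?_
    T := D.T
    T_tn := D.T_tn
    g := D.g
    g_open := D.g_open
    g_self := D.g_self
    g_spec := D.g_spec
    exp := D.exp }, fun n z hz => ?_⟩
  · by_cases hm : m % 2 = 0
    · rw [e0 m hm] at hN; exact D.net_closed _ N hN
    · rw [e1 m hm] at hN
      obtain ⟨x, hx, rfl⟩ := hN
      exact hZ _ _ (by simpa using hx)
  · obtain ⟨n, N, hN, hxN, hNU⟩ := D.net_spec x U hU hx
    refine ⟨2 * n, N, ?_, hxN, hNU⟩
    rw [e0 (2 * n) (by omega), show 2 * n / 2 = n by omega]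
    exact hN
  · by_cases hm : m % 2 = 0
    · rw [e0 m hm] at hN; rw [v0 m N hm]; exact D.V_open _ N hN
    · rw [e1 m hm] at hN
      obtain ⟨x, hx, rfl⟩ := hN
      change IsOpen (V' m {x})
      rw [v1' m x hm]
      exact (hW1 _ x hx).1
  · by_cases hm : m % 2 = 0
    · rw [e0 m hm] at hN; rw [v0 m N hm]; exact D.V_sub _ N hN
    · rw [e1 m hm] at hN
      obtain ⟨x, hx, rfl⟩ := hN
      change ({x} : Set X) ⊆ V' m {x}
      rw [v1' m x hm, singleton_subset_iff]
      exact (hW1 _ x hx).2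
  · by_cases hm : m % 2 = 0
    · obtain ⟨O, hO, hz, h⟩ := D.V_disc (m / 2) z
      refine ⟨O, hO, hz, fun N hN N' hN' h1 h2 => ?_⟩
      rw [e0 m hm] at hN hN'
      rw [v0 m _ hm] at h1 h2
      exact h N hN N' hN' h1 h2
    · obtain ⟨O, hO, hz, h⟩ := hW2 (m / 2) z
      refine ⟨O, hO, hz, fun N hN N' hN' h1 h2 => ?_⟩
      rw [e1 m hm] at hN hN'
      obtain ⟨x, hx, rfl⟩ := hN
      obtain ⟨y, hy, rfl⟩ := hN'
      change (V' m {x} ∩ O).Nonempty at h1
      change (V' m {y} ∩ O).Nonempty at h2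
      rw [v1' m _ hm] at h1 h2
      change ({x} : Set X) = {y}
      rw [h x hx y hy h1 h2]
  · change ({z} : Set X) ∈ net' (2 * n + 1)
    rw [e1 (2 * n + 1) (by omega), show (2 * n + 1) / 2 = n by omega]
    exact ⟨z, hz, rfl⟩

end SmallSp

open Nb SmallSp in
/-- If `X` is the union of countably many closed discrete sets and a set with fewer points than
the dominating number, then every closed set has a closure-preserving outer network of regular
closed neighbourhoods. -/
theorem hasR_of_small {X : Type*} [TopologicalSpace X] [T1Space X] (D : Strat X)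
    (Z : ℕ → Set X) (hZ : ∀ n, CDisc (Z n)) (T : Set X) (hT : Sm T)
    (hX : ∀ x, x ∈ (⋃ n, Z n) ∪ T) (A : Set X) (hA : IsClosed A) : HasR A := by
  obtain ⟨D', hD'⟩ := exists_addSing D Z hZ
  obtain ⟨h, hb, hcap⟩ := exists_h D' hA hT (fun k => 2 * k + 1)
  refine hasR_of_captured D' A hA h fun z hz => ?_
  rcases hX z with hzZ | hzT
  · obtain ⟨n, hn⟩ := mem_iUnion.1 hzZ
    refine ⟨n, 2 * n + 1, hb n, {z}, hD' n z hn, hz, rfl, ?_⟩
    rw [singleton_subset_iff]
    exact (isTN_Sq hA h n).self z hz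
  · exact hcap z hzT hz

end Pool.Agent.H51.CI
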