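import Pool.Agent.H51.CI.ClSub
import Pool.Agent.H51.CI.Small

/-!
# `HasSC` implies `HasPS`
-/

set_option autoImplicit false
open Topology Set

namespace Pool.Agent.H51.CI

/-- Every point in the closure of a set is in the closure of a subset whose closure is the union
of countably many closed discrete sets and a set with fewer points than the dominating number. -/
def HasSC (X : Type*) [TopologicalSpace X] : Prop :=
  ∀ (A : Set X) (p : X), p ∈ closure A → ∃ E ⊆ A, p ∈ closure E ∧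
    ∃ (Z : ℕ → Set X) (T : Set X), (∀ n, CDisc (Z n)) ∧ Sm T ∧ closure E = (⋃ n, Z n) ∪ T

lemma Sm.image {X Y : Type*} {T : Set X} (hT : Sm T) (f : X → Y) : Sm (f '' T) := by
  intro F
  obtain ⟨h, hh⟩ := hT (fun x k => F (f x) k)
  refine ⟨h, ?_⟩
  rintro _ ⟨x, hx, rfl⟩
  exact hh x hx

lemma Sm.preimage_val {X : Type*} {T : Set X} (hT : Sm T) (S : Set X) :
    Sm ((Subtype.val : S → X) ⁻¹' T) := by
  classical
  intro F
  obtain ⟨h, hh⟩ := hT (fun x k => if hx : x ∈ S then F ⟨x, hx⟩ k else 0)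
  refine ⟨h, fun x hx => ?_⟩
  obtain ⟨k, hk⟩ := hh x hx
  refine ⟨k, ?_⟩
  simpa using hk

lemma Sm.mono {X : Type*} {T T' : Set X} (hT : Sm T) (h : T' ⊆ T) : Sm T' :=
  fun F => (hT F).imp fun _ hh x hx => hh x (h hx)

theorem HasSC.image {X Y : Type*} [TopologicalSpace X] [TopologicalSpace Y] {f : X → Y}
    (hc : Continuous f) (hcl : IsClosedMap f) (hs : Function.Surjective f)
    (h : HasSC X) : HasSC Y := by
  intro A p hp
  have hp' : p ∈ f '' closure (f ⁻¹' A) := by
    refine closure_minimal (fun y hy => ?_) (hcl _ isClosed_closure) hp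
    obtain ⟨x, rfl⟩ := hs y
    exact ⟨x, subset_closure hy, rfl⟩
  obtain ⟨x, hx, rfl⟩ := hp'
  obtain ⟨E, hE, hxE, Z, T, hZ, hT, hcE⟩ := h (f ⁻¹' A) x hx
  have hcl' : closure (f '' E) = f '' closure E := by
    refine Subset.antisymm (closure_minimal (image_mono subset_closure)
      (hcl _ isClosed_closure)) ?_
    exact image_closure_subset_closure_image hc
  refine ⟨f '' E, image_subset_iff.2 hE, ?_, fun n => f '' Z n, f '' T, fun n F hF => ?_,
    hT.image f, ?_⟩
  · rw [hcl']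
    exact ⟨x, hxE, rfl⟩
  · have : F = f '' (Z n ∩ f ⁻¹' F) := by
      ext y
      constructor
      · intro hy
        obtain ⟨x, hx, rfl⟩ := hF hy
        exact ⟨x, ⟨hx, hy⟩, rfl⟩
      · rintro ⟨x, ⟨_, hx⟩, rfl⟩
        exact hx
    rw [this]
    exact hcl _ (hZ n _ inter_subset_left)
  · rw [hcl', hcE, image_union, image_iUnion]

theorem HasSC.subspace {X : Type*} [TopologicalSpace X] (S : Set X) (h : HasSC X) :
    HasSC S := by
  intro A p hp
  have hp' : (p : X) ∈ closure ((Subtype.val : S → X) '' A) := by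
    rwa [closure_subtype] at hp
  obtain ⟨E, hE, hpE, Z, T, hZ, hT, hcE⟩ := h _ _ hp'
  have hES : E ⊆ S := fun x hx => by
    obtain ⟨y, _, rfl⟩ := hE hx
    exact y.2
  have himg : (Subtype.val : S → X) '' ((Subtype.val : S → X) ⁻¹' E) = E := by
    rw [Subtype.image_preimage_coe, inter_eq_right.2 hES]
  refine ⟨(Subtype.val : S → X) ⁻¹' E, fun x hx => ?_, ?_, fun n => (Subtype.val : S → X) ⁻¹' Z n,
    (Subtype.val : S → X) ⁻¹' T, fun n F hF => ?_, hT.preimage_val S, ?_⟩
  · obtain ⟨y, hy, hyx⟩ := hE hx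
    rwa [← Subtype.ext hyx]
  · rw [closure_subtype, himg]
    exact hpE
  · have : F = (Subtype.val : S → X) ⁻¹' ((Subtype.val : S → X) '' F) :=
      (preimage_image_eq F Subtype.val_injective).symm
    rw [this]
    refine (hZ n _ ?_).preimage continuous_subtype_val
    exact image_subset_iff.2 hF
  · rw [← preimage_iUnion, ← preimage_union, ← hcE]
    ext x
    rw [closure_subtype, himg]
    rfl

theorem hasSC_of_hasCD {X : Type*} [TopologicalSpace X] (h : HasCD X) : HasSC X := by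
  intro A p hp
  obtain ⟨E, hE, hpE, Z, hZ, hcE⟩ := h A p hp
  refine ⟨E, hE, hpE, Z, ∅, hZ, fun F => ⟨fun _ => 0, fun x hx => hx.elim⟩, ?_⟩
  rw [hcE, union_empty]

theorem hasPS_of_hasSC {X : Type*} [TopologicalSpace X] [T1Space X] (D : Strat X)
    (h : HasSC X) : HasPS X := by
  classical
  intro A p hp
  obtain ⟨E₀, hE₀A, hpE, Z, T, hZ, hT, hcl⟩ := h A p hp
  -- the dense subset of `E₀`
  have hch : ∀ N : Set X, ∃ e, (N ∩ E₀).Nonempty → e ∈ N ∩ E₀ := by
    intro N
    by_cases hN : (N ∩ E₀).Nonempty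
    · exact ⟨hN.some, fun _ => hN.some_mem⟩
    · exact ⟨p, fun h => (hN h).elim⟩
  choose e he using hch
  let E : ℕ → Set X := fun n => {x | ∃ N ∈ D.net n, (N ∩ E₀).Nonempty ∧ x = e N}
  have hEE : ∀ n, E n ⊆ E₀ := by
    rintro n _ ⟨N, hN, hne, rfl⟩
    exact (he N hne).2
  have hEd : ∀ n, CDisc (E n) := by
    intro n F hF
    rw [← isOpen_compl_iff, isOpen_iff_mem_nhds]
    intro z hz
    obtain ⟨O, hO, hzO, hd⟩ := D.V_disc n z
    have hss : (F ∩ O).Subsingleton := by
      rintro x ⟨hx, hxO⟩ x' ⟨hx', hxO'⟩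
      obtain ⟨N, hN, hne, rfl⟩ := hF hx
      obtain ⟨N', hN', hne', rfl⟩ := hF hx'
      rw [hd N hN N' hN' ⟨_, D.V_sub n N hN (he N hne).1, hxO⟩
        ⟨_, D.V_sub n N' hN' (he N' hne').1, hxO'⟩]
    have hcF : IsClosed (F ∩ O) := hss.finite.isClosed
    refine Filter.mem_of_superset ((hO.inter hcF.isOpen_compl).mem_nhds
      ⟨hzO, fun h => hz h.1⟩) ?_
    rintro x ⟨hxO, hx⟩ hxF
    exact hx ⟨hxF, hxO⟩
  have hdense : closure E₀ ⊆ closure (⋃ n, E n) := by
    refine closure_minimal (fun y hy => ?_) isClosed_closure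
    rw [mem_closure_iff]
    intro O hO hyO
    obtain ⟨n, N, hN, hyN, hNO⟩ := D.net_spec y O hO hyO
    have hne : (N ∩ E₀).Nonempty := ⟨y, hyN, hy⟩
    exact ⟨e N, hNO (he N hne).1, mem_iUnion.2 ⟨n, N, hN, hne, rfl⟩⟩
  -- the subspace
  let Y : Set X := closure E₀
  have hYc : IsClosed Y := isClosed_closure
  have hcm : IsClosedMap (Subtype.val : Y → X) := hYc.isClosedEmbedding_subtypeVal.isClosedMap
  obtain ⟨D'⟩ := exists_closedSub D Y hYc
  have hR : HasR ({⟨p, hpE⟩} : Set Y) := by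
    refine hasR_of_small D' (fun n => (Subtype.val : Y → X) ⁻¹' Z n) (fun n F hF => ?_)
      ((Subtype.val : Y → X) ⁻¹' T) (hT.preimage_val Y) (fun x => ?_) _ isClosed_singleton
    · have : F = (Subtype.val : Y → X) ⁻¹' ((Subtype.val : Y → X) '' F) :=
        (preimage_image_eq F Subtype.val_injective).symm
      rw [this]
      exact (hZ n _ (image_subset_iff.2 hF)).preimage continuous_subtype_val
    · have : (x : X) ∈ (⋃ n, Z n) ∪ T := by rw [← hcl]; exact x.2
      rcases this with h | h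
      · obtain ⟨n, hn⟩ := mem_iUnion.1 h
        exact Or.inl (mem_iUnion.2 ⟨n, hn⟩)
      · exact Or.inr h
  obtain ⟨R, hR1, hR2⟩ := hR
  let pr : Set X → Set Y := fun U => (Subtype.val : Y → X) ⁻¹' U
  let S : Set X → Set X := fun U =>
    (⋃ n, E n) ∩ (Subtype.val : Y → X) '' (interior (R (pr U)))
  have hclS : ∀ U, IsOpen U → p ∈ U → closure (S U) = (Subtype.val : Y → X) '' R (pr U) := by
    intro U hU hpU
    have hpU' : IsOpen (pr U) := hU.preimage continuous_subtype_val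
    obtain ⟨a1, a2, a3⟩ := hR1 (pr U) hpU' (by rw [singleton_subset_iff]; exact hpU)
    apply Subset.antisymm
    · refine closure_minimal (inter_subset_right.trans (image_mono interior_subset)) ?_
      refine hcm _ ?_
      rw [← a3]; exact isClosed_closure
    · rintro _ ⟨y, hy, rfl⟩
      rw [← a3] at hy
      rw [mem_closure_iff]
      intro O hO hyO
      obtain ⟨w, hwO, hwR⟩ := mem_closure_iff.1 hy ((Subtype.val : Y → X) ⁻¹' O)
        (hO.preimage continuous_subtype_val) hyO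
      obtain ⟨G, hG, hGe⟩ := isOpen_induced_iff.1
        (isOpen_interior : IsOpen (interior (R (pr U))))
      have hwG : (w : X) ∈ G := by
        have : w ∈ (Subtype.val : Y → X) ⁻¹' G := by rw [hGe]; exact hwR
        exact this
      obtain ⟨x, ⟨hxO, hxG⟩, hxE⟩ := mem_closure_iff.1 (hdense w.2) (O ∩ G) (hO.inter hG)
        ⟨hwO, hwG⟩
      have hxY : x ∈ Y := by
        obtain ⟨n, hn⟩ := mem_iUnion.1 hxE
        exact subset_closure (hEE n hn)
      refine ⟨x, hxO, hxE, ⟨x, hxY⟩, ?_, rfl⟩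
      rw [← hGe]; exact hxG
  refine ⟨E, S, fun n => (hEE n).trans hE₀A, hEd, fun U hU hpU => ?_, fun z => ?_⟩
  · have hpU' : IsOpen (pr U) := hU.preimage continuous_subtype_val
    obtain ⟨a1, a2, a3⟩ := hR1 (pr U) hpU' (by rw [singleton_subset_iff]; exact hpU)
    refine ⟨inter_subset_left, ?_, ?_⟩
    · rw [hclS U hU hpU]
      exact ⟨⟨p, hpE⟩, interior_subset (a1 rfl), rfl⟩
    · rw [hclS U hU hpU]
      rintro _ ⟨y, hy, rfl⟩
      exact a2 hy
  · by_cases hzY : z ∈ Y
    · obtain ⟨O, hO, hzO, hd⟩ := hR2 ⟨z, hzY⟩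
      obtain ⟨G, hG, rfl⟩ := isOpen_induced_iff.1 hO
      refine ⟨G, hG, hzO, fun U hU hpU hz => ?_⟩
      rw [hclS U hU hpU] at hz
      have hz' : (⟨z, hzY⟩ : Y) ∉ R (pr U) := fun h => hz ⟨_, h, rfl⟩
      have hd' := hd (pr U) (hU.preimage continuous_subtype_val)
        (by rw [singleton_subset_iff]; exact hpU) hz'
      rw [disjoint_left]
      rintro _ ⟨_, ⟨w, hw, rfl⟩⟩ hxG
      exact disjoint_left.1 hd' (interior_subset hw) hxG
    · refine ⟨Yᶜ, hYc.isOpen_compl, hzY, fun U hU hpU hz => disjoint_left.2 ?_⟩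
      rintro _ ⟨_, ⟨w, hw, rfl⟩⟩ hx
      exact hx w.2

end Pool.Agent.H51.CI
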