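import Pool.Agent.H51.CI.Final
import Pool.Agent.H51.CI.HSC

/-!
# Closed images, second version
-/

set_option autoImplicit false
open Topology Set

namespace Pool.Agent.H51.CI

universe u v

/-- Stratifiable spaces with `HasSC` are `M₁`. -/
theorem hasM1_of_hasSC {X : Type*} [TopologicalSpace X] [T1Space X] (D : Strat X)
    (h : HasSC X) : HasM1 X :=
  hasM1_of_hasR D fun A hA => hasR_of_hasPS D (hasPS_of_hasSC D h) A hA

/-- Closed images of subspaces of stratifiable spaces with `HasSC` are `M₁`. -/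
theorem closedImage' {X : Type*} [TopologicalSpace X] [T1Space X] (h2 : HasM2 X) (h : HasSC X)
    (S : Set X) {Y : Type*} [TopologicalSpace Y] (f : S → Y) (hc : Continuous f)
    (hcl : IsClosedMap f) (hs : Function.Surjective f) : T3Space Y ∧ HasM1 Y := by
  have hS2 : HasM2 S := h2.subspace S
  have hSD : HasSC S := h.subspace S
  have h1 : HasCPNet Y := (hasCPNet_of_hasM2 hS2).image hc hcl hs
  have h3 : HasMN Y := (hasMN_of_hasM2 hS2).image hc hcl hs
  have h4 : HasTN Y := (hasTN_of_hasM2 hS2).image hc hcl hs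
  have h5 : HasSC Y := hSD.image hc hcl hs
  have h6 : T1Space Y := t1Space_image hcl hs
  have h7 : RegularSpace Y := regular_of_hasMN h3
  obtain ⟨D⟩ := exists_strat h1 h3 h4
  exact ⟨{}, hasM1_of_hasSC D h5⟩

/-- Sets with fewer points than the least size of a dominating family. -/
theorem sm_of_lt {X : Type u} {T : Set X} {κ : Cardinal.{0}}
    (hκ : ∀ F : Set (ℕ → ℕ), Cardinal.mk F < κ →
      ∃ h : ℕ → ℕ, ∀ f ∈ F, ¬ ∀ᶠ k in Filter.atTop, h k ≤ f k)
    (hT : Cardinal.mk T < Cardinal.lift.{u} κ) : Sm T := by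
  intro F
  have h1 : Cardinal.lift.{u} (Cardinal.mk (F '' T)) ≤ Cardinal.lift.{0} (Cardinal.mk T) :=
    Cardinal.mk_image_le_lift
  rw [Cardinal.lift_uzero] at h1
  have h2 : Cardinal.mk (F '' T) < κ := Cardinal.lift_lt.1 (h1.trans_lt hT)
  obtain ⟨h, hh⟩ := hκ _ h2
  refine ⟨h, fun x hx => ?_⟩
  by_contra hcon
  push Not at hcon
  exact hh (F x) ⟨x, hx, rfl⟩ (Filter.Eventually.of_forall fun k => (hcon k).le)

end Pool.Agent.H51.CI
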