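import Pool.Agent.H51.CI.Defs

/-!
# Increasing families
-/

set_option autoImplicit false
open Topology Set

namespace Pool.Agent.H51.CI

theorem HasM2.incr {X : Type*} [TopologicalSpace X] (h : HasM2 X) :
    ∃ B : ℕ → Set (Set X), (∀ n, ∀ 𝒱 ⊆ B n, IsClosed (⋃₀ 𝒱)) ∧ (∀ m n, m ≤ n → B m ⊆ B n) ∧
    ∀ (x : X) (U : Set X), IsOpen U → x ∈ U → ∃ n, ∃ V ∈ B n, x ∈ interior V ∧ V ⊆ U := by
  obtain ⟨F, hF, hq⟩ := h
  refine ⟨fun n => {N | ∃ k ≤ n, N ∈ F k}, fun n 𝒱 h => ?_,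
    fun m n hmn N ⟨k, hk, hN⟩ => ⟨k, hk.trans hmn, hN⟩, fun x U hU hx => ?_⟩
  · have e : ⋃₀ 𝒱 = ⋃ k ∈ Finset.range (n + 1), ⋃₀ (𝒱 ∩ F k) := by
      ext x
      constructor
      · rintro ⟨N, hN, hx⟩
        obtain ⟨k, hk, hNk⟩ := h hN
        exact mem_iUnion₂.2 ⟨k, Finset.mem_range.2 (by omega), N, ⟨hN, hNk⟩, hx⟩
      · intro hx
        obtain ⟨k, _, N, hN, hx⟩ := mem_iUnion₂.1 hx
        exact ⟨N, hN.1, hx⟩
    rw [e]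
    exact isClosed_biUnion_finset (fun k _ => hF k _ inter_subset_right)
  · obtain ⟨n, V, hV, h1, h2⟩ := hq x U hU hx
    exact ⟨n, V, ⟨n, le_rfl, hV⟩, h1, h2⟩

end Pool.Agent.H51.CI
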