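import Pool.Agent.H51.CI.Defs

/-!
# Module KERNEL

Let `L` be closed, `A` disjoint from `L`, `A ⊆ F ⊆ G`, `F` closed, `G` open. There is a set `K`
of points of `closure A ∖ L` with closed neighbourhoods `B d` (`d ∈ K`) inside `G ∖ L`, such that
the family `B` is locally finite off `L` and every point of `L ∩ closure A` is in `closure K`.

Proof. `Z = closure A ∖ L`. For `n = 0, 1, 2, …` and `N ∈ D.net n` choose, if possible, a point
`e n N ∈ Z ∩ D.M L N` which is not in `D.T L e'` for any point `e'` chosen at the stages `< n`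
(strong recursion on `n`; at stage `n` all `N ∈ D.net n` are treated simultaneously). Let
`K` be the set of all chosen points.
(1) Every `y ∈ Z` is in `D.T L e` for some `e ∈ K`: `y ∈ D.M L N`, `N ∈ D.net n` (`exists_M`); if
`y` is not in `D.T L e'` for the points `e'` of stages `< n` then `e = e n N` exists, and
`y ∈ N ⊆ D.T L e` as `e ∈ D.M L N`.
(2) `a ∈ L ∩ closure A` is in `closure K`: otherwise `(D.T_tn L hL).pw` gives
`a ∉ closure (⋃ e ∈ K, D.T L e)`, but `A ⊆ Z ⊆ ⋃ e ∈ K, D.T L e`.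
(3) Every `z ∉ L` has an open neighbourhood `O` with `K ∩ O` finite: if `z ∉ closure A` take
`(closure A)ᶜ`; if `z ∈ Z` then `z ∈ D.T L e`, `e` of stage `n`; the points of stages `> n` are not
in `D.T L e`, and for each stage `m ≤ n` a neighbourhood of `z` meets at most one `N ∈ D.net m`
(from `V_disc`, `V_sub`).
(4) Neighbourhoods: for `d = e n N ∈ K` (choose such `(n, N)` for each `d ∈ K`) let
`B d ∋ d` be a closed neighbourhood contained in `(G ∖ L) ∩ D.g n d ∩ D.V n N`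
(`exists_closed_nhd`; note `d ∈ closure A ⊆ F ⊆ G`). Let `z ∉ L`. By (3) `K ∖ {z} ∪ L`... more
precisely `z ∉ closure (K ∖ {z})` (finite set `(K ∖ {z}) ∩ O`, `T1`), so `D.g_spec` gives `n`, `O`
such that `B d ∩ O = ∅` for all `d ∈ K ∖ {z}` of stage `≥ n`; for the stages `m < n` a
neighbourhood of `z` meets at most one of the sets `D.V m N`, hence at most one `B d` with `d` of
stage `m`.
-/

set_option autoImplicit false
open Topology Set

namespace Pool.Agent.H51.CI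

namespace Kernel

variable {X : Type*} [TopologicalSpace X]

/-- The points chosen at stage `n`, when the set `C` is already covered. -/
def KK (D : Strat X) (L Z : Set X) (n : ℕ) (C : Set X) : Set X :=
  {x | ∃ N ∈ D.net n, ∃ h : ((Z ∩ D.M L N) \ C).Nonempty, x = h.some}

/-- The set covered before stage `n`. -/
def CC (D : Strat X) (L Z : Set X) : ℕ → Set X
  | 0 => ∅
  | n + 1 => CC D L Z n ∪ ⋃ e ∈ KK D L Z n (CC D L Z n), D.T L e

lemma CC_mono (D : Strat X) (L Z : Set X) {m n : ℕ} (h : m ≤ n) : CC D L Z m ⊆ CC D L Z n := by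
  induction n with
  | zero =>
    have : m = 0 := by omega
    subst this; exact Subset.rfl
  | succ n ih =>
    rcases Nat.lt_or_ge n m with h' | h'
    · have : m = n + 1 := by omega
      subst this; exact Subset.rfl
    · exact (ih h').trans subset_union_left

lemma mem_CC (D : Strat X) (L Z : Set X) (n : ℕ) (y : X) (h : y ∈ CC D L Z n) :
    ∃ m < n, ∃ e ∈ KK D L Z m (CC D L Z m), y ∈ D.T L e := by
  induction n with
  | zero => exact h.elim
  | succ n ih =>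
    rcases h with h | h
    · obtain ⟨m, hm, e, he, hy⟩ := ih h
      exact ⟨m, by omega, e, he, hy⟩
    · obtain ⟨e, he, hy⟩ := mem_iUnion₂.1 h
      exact ⟨n, by omega, e, he, hy⟩

end Kernel

open Kernel in
theorem Strat.exists_kernel {X : Type*} [TopologicalSpace X] [T1Space X] (D : Strat X)
    {L F G A : Set X} (hL : IsClosed L) (hA : Disjoint A L) (hAF : A ⊆ F) (hF : IsClosed F)
    (hFG : F ⊆ G) (hG : IsOpen G) :
    ∃ (K : Set X) (B : X → Set X), K ⊆ closure A \ L ∧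
      (∀ d ∈ K, IsClosed (B d) ∧ d ∈ interior (B d) ∧ B d ⊆ G \ L) ∧
      (∀ z ∉ L, ∃ O, IsOpen O ∧ z ∈ O ∧ {d | d ∈ K ∧ (B d ∩ O).Nonempty}.Finite) ∧
      L ∩ closure A ⊆ closure K := by
  classical
  set Z : Set X := closure A \ L with hZ
  let C : ℕ → Set X := CC D L Z
  let K : Set X := ⋃ n, KK D L Z n (C n)
  have hex : ∀ d : X, ∃ (n : ℕ) (N : Set X), d ∈ K →
      N ∈ D.net n ∧ ∃ h : ((Z ∩ D.M L N) \ C n).Nonempty, d = h.some := by
    intro d
    by_cases hd : d ∈ K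
    · obtain ⟨n, N, hN, h⟩ := mem_iUnion.1 hd
      exact ⟨n, N, fun _ => ⟨hN, h⟩⟩
    · exact ⟨0, ∅, fun h => (hd h).elim⟩
  choose r Nf hrN using hex
  have hspec : ∀ d ∈ K, Nf d ∈ D.net (r d) ∧ d ∈ Z ∧ d ∈ D.M L (Nf d) ∧ d ∉ C (r d) := by
    intro d hd
    obtain ⟨h1, h2, h3⟩ := hrN d hd
    have := h2.some_mem
    rw [← h3] at this
    exact ⟨h1, this.1.1, this.1.2, this.2⟩
  have huniq : ∀ d ∈ K, ∀ d' ∈ K, r d = r d' → Nf d = Nf d' → d = d' := by
    intro d hd d' hd' h1 h2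
    obtain ⟨_, k1, k2⟩ := hrN d hd
    obtain ⟨_, k1', k2'⟩ := hrN d' hd'
    rw [k2, k2']
    have : ((Z ∩ D.M L (Nf d)) \ C (r d)) = ((Z ∩ D.M L (Nf d')) \ C (r d')) := by rw [h1, h2]
    congr 1
  have hKZ : K ⊆ Z := fun d hd => (hspec d hd).2.1
  -- covering
  have hcov : ∀ y ∈ Z, ∃ (n : ℕ) (e : X), e ∈ KK D L Z n (C n) ∧ y ∈ D.T L e := by
    intro y hy
    obtain ⟨n, N, hN, hyM⟩ := D.exists_M hL hy.2
    by_cases hyC : y ∈ C n
    · obtain ⟨m, _, e, he, hye⟩ := mem_CC D L Z n y hyC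
      exact ⟨m, e, he, hye⟩
    · have hne : ((Z ∩ D.M L N) \ C n).Nonempty := ⟨y, ⟨hy, hyM⟩, hyC⟩
      have hmem := hne.some_mem
      exact ⟨n, hne.some, ⟨N, hN, hne, rfl⟩, hmem.1.2.2.2 hyM.2.1⟩
  have hsub : ∀ n, KK D L Z n (C n) ⊆ K := fun n => subset_iUnion (fun n => KK D L Z n (C n)) n
  -- finiteness of one stage
  have hstage : ∀ m z, ∃ O, IsOpen O ∧ z ∈ O ∧
      ∀ d ∈ K, ∀ d' ∈ K, r d = m → r d' = m → (D.V m (Nf d) ∩ O).Nonempty →
        (D.V m (Nf d') ∩ O).Nonempty → d = d' := by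
    intro m z
    obtain ⟨O, hO, hz, h⟩ := D.V_disc m z
    refine ⟨O, hO, hz, fun d hd d' hd' h1 h2 h3 h4 => huniq d hd d' hd' (h1.trans h2.symm) ?_⟩
    have e1 := (hspec d hd).1
    have e2 := (hspec d' hd').1
    rw [h1] at e1
    rw [h2] at e2
    exact h _ e1 _ e2 h3 h4
  choose Os hOs hzOs hOs' using hstage
  have hdV : ∀ d ∈ K, d ∈ D.V (r d) (Nf d) := fun d hd =>
    D.V_sub _ _ (hspec d hd).1 (hspec d hd).2.2.1.2.1
  -- local finiteness of the points
  have hloc : ∀ z ∉ L, ∃ O, IsOpen O ∧ z ∈ O ∧ (K ∩ O).Finite := by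
    intro z hz
    by_cases hzA : z ∈ closure A
    swap
    · refine ⟨(closure A)ᶜ, isClosed_closure.isOpen_compl, hzA, ?_⟩
      have : K ∩ (closure A)ᶜ = ∅ := by
        rw [eq_empty_iff_forall_notMem]
        rintro x ⟨hx, hx'⟩
        exact hx' (hKZ hx).1
      rw [this]; exact finite_empty
    · obtain ⟨n, e, he, hze⟩ := hcov z ⟨hzA, hz⟩
      have heZ := hKZ (hsub n he)
      refine ⟨D.T L e ∩ ⋂ m ∈ Finset.range (n + 1), Os m z,
        ((D.T_tn L hL).isOpen e heZ.2).inter (isOpen_biInter_finset fun m _ => hOs m z),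
        ⟨hze, mem_iInter₂.2 fun m _ => hzOs m z⟩, ?_⟩
      refine Finite.subset (s := ⋃ m ∈ Finset.range (n + 1), {d | d ∈ K ∧ r d = m ∧
        d ∈ Os m z}) ?_ ?_
      · refine (Finset.range (n + 1)).finite_toSet.biUnion fun m _ => ?_
        refine Set.Subsingleton.finite fun d hd d' hd' => ?_
        refine hOs' m z d hd.1 d' hd'.1 hd.2.1 hd'.2.1 ⟨d, ?_, hd.2.2⟩ ⟨d', ?_, hd'.2.2⟩
        · have := hdV d hd.1; rwa [hd.2.1] at this
        · have := hdV d' hd'.1; rwa [hd'.2.1] at this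
      · rintro d ⟨hd, hd1, hd2⟩
        have hrd : r d < n + 1 := by
          by_contra hlt
          refine (hspec d hd).2.2.2 (CC_mono D L Z (not_lt.1 hlt) ?_)
          exact Or.inr (mem_iUnion₂.2 ⟨e, he, hd1⟩)
        exact mem_iUnion₂.2 ⟨r d, Finset.mem_range.2 hrd, hd, rfl,
          mem_iInter₂.1 hd2 _ (Finset.mem_range.2 hrd)⟩
  -- neighbourhoods
  have hB : ∀ d, ∃ B : Set X, d ∈ K → IsClosed B ∧ d ∈ interior B ∧
      B ⊆ (G \ L) ∩ D.g (r d) d ∩ D.V (r d) (Nf d) := by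
    intro d
    by_cases hd : d ∈ K
    · have hdG : d ∈ G := hFG (closure_minimal hAF hF (hKZ hd).1)
      obtain ⟨B, b1, b2, b3⟩ := D.exists_closed_nhd
        ((G \ L) ∩ D.g (r d) d ∩ D.V (r d) (Nf d))
        (((hG.sdiff hL).inter (D.g_open _ _)).inter (D.V_open _ _ (hspec d hd).1)) d
        ⟨⟨⟨hdG, (hKZ hd).2⟩, D.g_self _ _⟩, hdV d hd⟩
      exact ⟨B, fun _ => ⟨b1, b2, b3⟩⟩
    · exact ⟨∅, fun h => (hd h).elim⟩
  choose B hB using hB
  refine ⟨K, B, hKZ, fun d hd => ⟨(hB d hd).1, (hB d hd).2.1, fun x hx =>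
    ((hB d hd).2.2 hx).1.1⟩, fun z hz => ?_, fun a ha => ?_⟩
  · obtain ⟨O, hO, hzO, hfin⟩ := hloc z hz
    have hfin' : ((K ∩ O) \ {z}).Finite := hfin.subset sdiff_subset
    have hO' : IsOpen (O \ ((K ∩ O) \ {z})) := hO.sdiff hfin'.isClosed
    obtain ⟨n₀, O₀, hO₀, hzO₀, hg⟩ := D.g_spec (O \ ((K ∩ O) \ {z}))ᶜ z hO'.isClosed_compl
      (fun h => h ⟨hzO, fun h => h.2 rfl⟩)
    refine ⟨O₀ ∩ ⋂ m ∈ Finset.range n₀, Os m z, hO₀.inter
      (isOpen_biInter_finset fun m _ => hOs m z), ⟨hzO₀, mem_iInter₂.2 fun m _ => hzOs m z⟩, ?_⟩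
    refine Finite.subset (s := {z} ∪ ⋃ m ∈ Finset.range n₀, {d | d ∈ K ∧ r d = m ∧
        (B d ∩ Os m z).Nonempty}) ?_ ?_
    · refine (finite_singleton z).union
        ((Finset.range n₀).finite_toSet.biUnion fun m _ => ?_)
      refine Set.Subsingleton.finite fun d hd d' hd' => ?_
      refine hOs' m z d hd.1 d' hd'.1 hd.2.1 hd'.2.1 ?_ ?_
      · refine hd.2.2.mono (inter_subset_inter_left _ fun x hx => ?_)
        have := ((hB d hd.1).2.2 hx).2
        rwa [hd.2.1] at this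
      · refine hd'.2.2.mono (inter_subset_inter_left _ fun x hx => ?_)
        have := ((hB d' hd'.1).2.2 hx).2
        rwa [hd'.2.1] at this
    · rintro d ⟨hd, x, hxB, hx1, hx2⟩
      by_cases hdz : d = z
      · exact Or.inl hdz
      · right
        have hrd : r d < n₀ := by
          by_contra hlt
          have hdc : d ∈ (O \ ((K ∩ O) \ {z}))ᶜ := fun h => h.2 ⟨⟨hd, h.1⟩, hdz⟩
          exact disjoint_left.1 (hg d hdc (r d) (not_lt.1 hlt)) ((hB d hd).2.2 hxB).1.2 hx1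
        exact mem_iUnion₂.2 ⟨r d, Finset.mem_range.2 hrd, hd, rfl, x, hxB,
          mem_iInter₂.1 hx2 _ (Finset.mem_range.2 hrd)⟩
  · by_contra hcon
    have hdis : Disjoint K L := disjoint_left.2 fun x hx hxL => (hKZ hx).2 hxL
    refine (D.T_tn L hL).pw a ha.1 K hdis hcon (closure_mono (fun y hy => ?_) ha.2)
    have hyZ : y ∈ Z := ⟨subset_closure hy, fun h => disjoint_left.1 hA hy h⟩
    obtain ⟨n, e, he, hye⟩ := hcov y hyZ
    exact mem_iUnion₂.2 ⟨e, hsub n he, hye⟩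

end Pool.Agent.H51.CI
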