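import Pool.Agent.H51.CI.Sys2
import Pool.Agent.H51.CI.Hull2
import Pool.Agent.H51.CI.Asm

/-!
# The second tree of nodes
-/

set_option autoImplicit false
open Topology Set

namespace Pool.Agent.H51.CI

namespace Main2

open Nb

variable {X : Type*} [TopologicalSpace X]

/-- The nodes. -/
inductive Node (X : Type*)
  | root
  | pt (k : ℕ) (G : Set X) (d : X)

/-- The parameters. -/
abbrev Par (A : Set X) := {U : Set X // IsOpen U ∧ A ⊆ U}

/-- The captured sets. -/
def Lm (D : Strat X) (A : Set X) (h : ℕ → ℕ) (k : ℕ) : Set X :=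
  Lam D A (Sq D A h k) (h k)

/-- The open sets of the stages. -/
def W (D : Strat X) (A : Set X) (h : ℕ → ℕ) (k : ℕ) (U : Par A) : Set X :=
  interior (Qs (Sq D A h k) U.1)

variable {D : Strat X} {A : Set X} {h : ℕ → ℕ} (s : Sys D h (Lm D A h))

/-- The sets of the nodes. -/
def P : Node X → Par A → Set X
  | .root, U => {x | x ∈ D.Q A (W D A h 0 U)}
  | .pt k G d, U => {x | d ∈ W D A h k U ∧ (x ∈ closure (Lm D A h k ∩ interior (s.B1 k G d)) ∨
      x ∈ D.Q {d} (W D A h k U ∩ interior (s.B1 k G d)))}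

/-- The active children. -/
inductive Act : Node X → Par A → Node X → Prop
  | r {U : Par A} {n : ℕ} {N : Set X} {d : X} :
      N ∈ D.net n → (D.M A N ∩ D.Q A (W D A h 0 U)).Nonempty → d ∈ s.K A univ n N →
      Act .root U (.pt 0 (interior (s.B A univ n N d)) d)
  | a {k : ℕ} {G : Set X} {d : X} {U : Par A} {n : ℕ} {N : Set X} {e : X} :
      d ∈ W D A h k U → N ∈ D.net n →
      (D.M {d} N ∩ D.Q {d} (W D A h k U ∩ interior (s.B1 k G d))).Nonempty →
      e ∈ s.K {d} (interior (s.B1 k G d)) n N →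
      Act (.pt k G d) U (.pt (k + 1) (interior (s.B {d} (interior (s.B1 k G d)) n N e)) e)
  | b {k : ℕ} {G : Set X} {d : X} {U : Par A} {e : X} :
      d ∈ W D A h k U → e ∈ s.KZ k G d →
      Act (.pt k G d) U (.pt (k + 1) (interior (s.BZ k G d e)) e)

/-- Valid nodes. -/
def Val : Node X → Prop
  | .root => True
  | .pt _ G d => IsOpen G ∧ d ∈ G

/-- Nodes of small stage. -/
def Good (κ : ℕ) : Node X → Prop
  | .root => True
  | .pt k _ _ => k ≤ κ

/-- Regions. -/
def Reg : Node X → Set X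
  | .root => univ
  | .pt _ G _ => closure G

/-- The measure. -/
def mu (κ : ℕ) : Node X → ℕ
  | .root => κ + 2
  | .pt k _ _ => κ + 1 - k

lemma subset_Q' {C V : Set X} (hC : IsClosed C) (hCV : C ⊆ V) : C ⊆ D.Q C V := by
  intro w hw y hy hwy
  exact disjoint_left.1 ((D.T_tn C hC).disj y fun h => hy (hCV h)) hwy hw

lemma closure_interior_sub {B : Set X} (h : IsClosed B) : closure (interior B) ⊆ B :=
  closure_minimal interior_subset h

lemma isClosed_Lm (hA : IsClosed A) (k : ℕ) : IsClosed (Lm D A h k) :=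
  isClosed_Lam (isTN_Sq hA h k) (h k)

lemma A_sub_W (hA : IsClosed A) (k : ℕ) (U : Par A) : A ⊆ W D A h k U :=
  subset_interior_Qs (isTN_Sq hA h k) U.2.1 U.2.2

lemma W_mono (k : ℕ) (U : Par A) : W D A h k U ⊆ W D A h (k + 1) U :=
  interior_mono (Qs_mono h k U.1)

lemma isOpen_W (k : ℕ) (U : Par A) : IsOpen (W D A h k U) := isOpen_interior

/-- The open set of a node. -/
lemma single_sub {k : ℕ} {G : Set X} {d : X} {U : Par A} (ha : Val (.pt k G d))
    (hd : d ∈ W D A h k U) : ({d} : Set X) ⊆ W D A h k U ∩ interior (s.B1 k G d) := by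
  rw [singleton_subset_iff]
  exact ⟨hd, (s.hB1 k G d ha.1 ha.2).2.1⟩

lemma root_L (hA : IsClosed A) {U : Par A} {N : Set X}
    (hM : (D.M A N ∩ D.Q A (W D A h 0 U)).Nonempty) : D.L A N ⊆ D.Q A (W D A h 0 U) :=
  D.L_subset_Q hA (A_sub_W hA 0 U) hM

lemma pt_L [T1Space X] {k : ℕ} {G : Set X} {d : X} {U : Par A} (ha : Val (.pt k G d))
    (hd : d ∈ W D A h k U) {N : Set X}
    (hM : (D.M {d} N ∩ D.Q {d} (W D A h k U ∩ interior (s.B1 k G d))).Nonempty) :
    D.L {d} N ⊆ D.Q {d} (W D A h k U ∩ interior (s.B1 k G d)) :=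
  D.L_subset_Q isClosed_singleton (single_sub s ha hd) hM

lemma pt_LG [T1Space X] {k : ℕ} {G : Set X} {d : X} {U : Par A} (ha : Val (.pt k G d))
    (hd : d ∈ W D A h k U) {N : Set X}
    (hM : (D.M {d} N ∩ D.Q {d} (W D A h k U ∩ interior (s.B1 k G d))).Nonempty) :
    D.L {d} N ⊆ interior (s.B1 k G d) :=
  (pt_L s ha hd hM).trans ((D.Q_subset isClosed_singleton (single_sub s ha hd)).trans
    inter_subset_right)

lemma hVal [T1Space X] (hA : IsClosed A) (a : Node X) (U : Par A) (b : Node X) (ha : Val a)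
    (hab : Act s a U b) : Val b := by
  cases hab with
  | @r _ n N d hN hM hd =>
    obtain ⟨k1, _, _⟩ := s.hK A univ n N hA isOpen_univ hN (subset_univ _)
    exact ⟨isOpen_interior, (k1 d hd).2.1⟩
  | @a k G d _ n N e hd hN hM he =>
    obtain ⟨k1, _, _⟩ := s.hK {d} (interior (s.B1 k G d)) n N isClosed_singleton isOpen_interior
      hN (pt_LG s ha hd hM)
    exact ⟨isOpen_interior, (k1 e he).2.1⟩
  | @b k G d _ e hd he =>
    obtain ⟨k1, _, _⟩ := s.hKZ k G d ha.1 ha.2
    exact ⟨isOpen_interior, (k1 e he).2.1⟩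

lemma hReg (a : Node X) : IsClosed (Reg a) := by
  cases a
  · exact isClosed_univ
  · exact isClosed_closure

lemma hP [T1Space X] (a : Node X) (U : Par A) (ha : Val a) : P s a U ⊆ Reg a := by
  cases a with
  | root => exact subset_univ _
  | pt k G d =>
    obtain ⟨b1, b2, b3, _⟩ := s.hB1 k G d ha.1 ha.2
    rintro x ⟨hd, hx | hx⟩
    · refine subset_closure (b3 ?_)
      exact closure_minimal (inter_subset_right.trans interior_subset) b1 hx
    · have := (D.Q_subset isClosed_singleton (single_sub s ha hd) hx).2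
      exact subset_closure (b3 (interior_subset this))

lemma hActReg [T1Space X] (a : Node X) (U : Par A) (b : Node X) (ha : Val a)
    (hab : Act s a U b) : Reg b ⊆ Reg a := by
  cases hab with
  | r hN hM hd => exact subset_univ _
  | @a k G d _ n N e hd hN hM he =>
    obtain ⟨b1, b2, b3, _⟩ := s.hB1 k G d ha.1 ha.2
    obtain ⟨k1, _, _⟩ := s.hK {d} (interior (s.B1 k G d)) n N isClosed_singleton isOpen_interior
      hN (pt_LG s ha hd hM)
    obtain ⟨c1, c2, c3, _⟩ := k1 e he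
    exact (closure_interior_sub c1).trans (c3.trans
      (interior_subset.trans (b3.trans subset_closure)))
  | @b k G d _ e hd he =>
    obtain ⟨k1, _, _⟩ := s.hKZ k G d ha.1 ha.2
    obtain ⟨c1, c2, c3, _⟩ := k1 e he
    exact (closure_interior_sub c1).trans (c3.trans subset_closure)

lemma h1 [T1Space X] (hA : IsClosed A) (z : X) (a : Node X) (ha : Val a) :
    ∃ O, IsOpen O ∧ z ∈ O ∧ ∀ U : Par A, z ∉ P s a U → Disjoint (P s a U) O := by
  cases a with
  | root =>
    by_cases hz : z ∈ A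
    · refine ⟨univ, isOpen_univ, mem_univ z, fun U hU => (hU ?_).elim⟩
      exact subset_Q' hA (A_sub_W hA 0 U) hz
    · refine ⟨D.T A z, (D.T_tn A hA).isOpen z hz, (D.T_tn A hA).self z hz, fun U hU => ?_⟩
      exact D.disjoint_Q hA (A_sub_W hA 0 U) hU
  | pt k G d =>
    by_cases hzZ : z ∈ closure (Lm D A h k ∩ interior (s.B1 k G d))
    · refine ⟨univ, isOpen_univ, mem_univ z, fun U hU => disjoint_left.2 ?_⟩
      rintro x ⟨hd, _⟩ _
      exact hU ⟨hd, Or.inl hzZ⟩
    by_cases hzd : z ∈ ({d} : Set X)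
    · refine ⟨univ, isOpen_univ, mem_univ z, fun U hU => disjoint_left.2 ?_⟩
      rintro x ⟨hd, _⟩ _
      exact hU ⟨hd, Or.inr (subset_Q' isClosed_singleton (single_sub s ha hd) hzd)⟩
    · refine ⟨(closure (Lm D A h k ∩ interior (s.B1 k G d)))ᶜ ∩ D.T {d} z,
        isClosed_closure.isOpen_compl.inter ((D.T_tn {d} isClosed_singleton).isOpen z hzd),
        ⟨hzZ, (D.T_tn {d} isClosed_singleton).self z hzd⟩, fun U hU => disjoint_left.2 ?_⟩
      rintro x ⟨hd, hx⟩ ⟨hx1, hx2⟩
      have hzQ : z ∉ D.Q {d} (W D A h k U ∩ interior (s.B1 k G d)) := fun h =>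
        hU ⟨hd, Or.inr h⟩
      rcases hx with hx | hx
      · exact hx1 hx
      · exact disjoint_left.1 (D.disjoint_Q isClosed_singleton (single_sub s ha hd) hzQ) hx hx2

/-- The children of type `a` near `z`. -/
lemma key_finite (z : X) (C G : Set X) (hC : IsClosed C) (hG : IsOpen G)
    (mk : Set X → X → Node X) (n : ℕ) :
    ∃ (F : Set (Node X)) (O : Set X), F.Finite ∧ IsOpen O ∧ z ∈ O ∧
      ∀ N ∈ D.net n, z ∉ D.L C N → D.L C N ⊆ G → ∀ d ∈ s.K C G n N,
        (s.B C G n N d ∩ O).Nonempty → mk (interior (s.B C G n N d)) d ∈ F := by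
  obtain ⟨O₁, hO₁, hzO₁, hV⟩ := D.V_disc n z
  by_cases hN : ∃ N₀ ∈ D.net n, (D.V n N₀ ∩ O₁).Nonempty ∧ z ∉ D.L C N₀ ∧ D.L C N₀ ⊆ G
  · obtain ⟨N₀, hN₀, hne, hzL, hLG⟩ := hN
    obtain ⟨_, k2, _⟩ := s.hK C G n N₀ hC hG hN₀ hLG
    obtain ⟨O₂, hO₂, hzO₂, hfin⟩ := k2 z hzL
    refine ⟨(fun d => mk (interior (s.B C G n N₀ d)) d) ''
      {d | d ∈ s.K C G n N₀ ∧ (s.B C G n N₀ d ∩ O₂).Nonempty}, O₁ ∩ O₂, hfin.image _,
      hO₁.inter hO₂, ⟨hzO₁, hzO₂⟩, fun N hN hzN hLN d hd hB => ?_⟩
    obtain ⟨x, hxB, hx1, hx2⟩ := hB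
    obtain ⟨k1, _, _⟩ := s.hK C G n N hC hG hN hLN
    have hxV : x ∈ D.V n N := (k1 d hd).2.2.2.1 hxB
    have : N = N₀ := hV N hN N₀ hN₀ ⟨x, hxV, hx1⟩ hne
    subst this
    exact ⟨d, ⟨hd, x, hxB, hx2⟩, rfl⟩
  · refine ⟨∅, O₁, finite_empty, hO₁, hzO₁, fun N hN' hzN hLN d hd hB => ?_⟩
    obtain ⟨x, hxB, hx1⟩ := hB
    obtain ⟨k1, _, _⟩ := s.hK C G n N hC hG hN' hLN
    have hxV : x ∈ D.V n N := (k1 d hd).2.2.2.1 hxB
    exact hN ⟨N, hN', ⟨x, hxV, hx1⟩, hzN, hLN⟩

/-- All children of type `a` near `z`. -/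
lemma key_all (z : X) (C G : Set X) (hC : IsClosed C) (hG : IsOpen G) (hz : z ∉ C)
    (mk : Set X → X → Node X) (hmk : ∀ G' d, Reg (mk G' d) = closure G') :
    ∃ (F : Set (Node X)) (O : Set X), F.Finite ∧ IsOpen O ∧ z ∈ O ∧
      ∀ (V : Set X), C ⊆ V → V ⊆ G → z ∉ D.Q C V → ∀ n, ∀ N ∈ D.net n,
        (D.M C N ∩ D.Q C V).Nonempty → ∀ d ∈ s.K C G n N,
        mk (interior (s.B C G n N d)) d ∈ F ∨
          Disjoint (Reg (mk (interior (s.B C G n N d)) d)) O := by
  classical
  have hKc : IsClosed (D.T C z)ᶜ := ((D.T_tn C hC).isOpen z hz).isClosed_compl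
  obtain ⟨n₀, O₀, hO₀, hzO₀, hg⟩ := D.g_spec (D.T C z)ᶜ z hKc
    (fun h => h ((D.T_tn C hC).self z hz))
  choose F O hF hO hzO hFO using key_finite s z C G hC hG mk
  refine ⟨⋃ n ∈ Finset.range n₀, F n, O₀ ∩ ⋂ n ∈ Finset.range n₀, O n,
    (Finset.range n₀).finite_toSet.biUnion fun n _ => hF n,
    hO₀.inter (isOpen_biInter_finset fun n _ => hO n),
    ⟨hzO₀, mem_iInter₂.2 fun n _ => hzO n⟩, fun V hCV hVG hzQ n N hN hM d hd => ?_⟩
  have hLQ := D.L_subset_Q hC hCV hM
  have hLK : D.L C N ⊆ (D.T C z)ᶜ := fun x hx hxT =>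
    disjoint_left.1 (D.disjoint_Q hC hCV hzQ) (hLQ hx) hxT
  have hzL : z ∉ D.L C N := fun h => hzQ (hLQ h)
  have hLG : D.L C N ⊆ G := hLQ.trans ((D.Q_subset hC hCV).trans hVG)
  obtain ⟨k1, _, _⟩ := s.hK C G n N hC hG hN hLG
  obtain ⟨b1, b2, b3, b4, b5⟩ := k1 d hd
  rw [hmk]
  by_cases hn : n < n₀
  · by_cases hB : (s.B C G n N d ∩ O n).Nonempty
    · exact Or.inl (mem_iUnion₂.2 ⟨n, Finset.mem_range.2 hn, hFO n N hN hzL hLG d hd hB⟩)
    · refine Or.inr (disjoint_left.2 fun x hx hx' => hB ⟨x, closure_interior_sub b1 hx, ?_⟩)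
      exact mem_iInter₂.1 hx'.2 n (Finset.mem_range.2 hn)
  · refine Or.inr (disjoint_left.2 fun x hx hx' => ?_)
    obtain ⟨y, hy, hxy⟩ := mem_iUnion₂.1 (b5 (closure_interior_sub b1 hx))
    exact disjoint_left.1 (hg y (hLK hy) n (not_lt.1 hn)) hxy hx'.1

lemma h2 [T1Space X] (hA : IsClosed A) (z : X) (a : Node X) (ha : Val a) :
    ∃ (F : Set (Node X)) (O : Set X), F.Finite ∧ IsOpen O ∧ z ∈ O ∧
      ∀ (U : Par A) b, z ∉ P s a U → Act s a U b → b ∈ F ∨ Disjoint (Reg b) O := by
  classical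
  cases a with
  | root =>
    by_cases hz : z ∈ A
    · refine ⟨∅, univ, finite_empty, isOpen_univ, mem_univ z, fun U b hU _ => (hU ?_).elim⟩
      exact subset_Q' hA (A_sub_W hA 0 U) hz
    · obtain ⟨F, O, hF, hO, hzO, hFO⟩ := key_all s z A univ hA isOpen_univ hz
        (fun G d => Node.pt 0 G d) (fun _ _ => rfl)
      refine ⟨F, O, hF, hO, hzO, fun U b hU hab => ?_⟩
      cases hab with
      | @r _ n N d hN hM hd =>
        exact hFO (W D A h 0 U) (A_sub_W hA 0 U) (subset_univ _) hU n N hN hM d hd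
  | pt k G d =>
    by_cases hzZ : z ∈ closure (Lm D A h k ∩ interior (s.B1 k G d)) ∨ z ∈ ({d} : Set X)
    · refine ⟨∅, univ, finite_empty, isOpen_univ, mem_univ z, fun U b hU hab => ?_⟩
      exfalso
      have hd : d ∈ W D A h k U := by
        cases hab <;> assumption
      refine hU ⟨hd, hzZ.imp id fun hzd => ?_⟩
      exact subset_Q' isClosed_singleton (single_sub s ha hd) hzd
    push Not at hzZ
    obtain ⟨hzZ, hzd⟩ := hzZ
    obtain ⟨F, O, hF, hO, hzO, hFO⟩ := key_all s z {d} (interior (s.B1 k G d))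
      isClosed_singleton isOpen_interior hzd (fun G d => Node.pt (k + 1) G d) (fun _ _ => rfl)
    obtain ⟨k1, k2, _⟩ := s.hKZ k G d ha.1 ha.2
    obtain ⟨O', hO', hzO', hfin⟩ := k2 z hzZ
    refine ⟨F ∪ (fun e => Node.pt (k + 1) (interior (s.BZ k G d e)) e) ''
      {e | e ∈ s.KZ k G d ∧ (s.BZ k G d e ∩ O').Nonempty}, O ∩ O', hF.union (hfin.image _),
      hO.inter hO', ⟨hzO, hzO'⟩, fun U b hU hab => ?_⟩
    cases hab with
    | @a _ _ _ _ n N e hdW hN hM he =>
      have hzQ : z ∉ D.Q {d} (W D A h k U ∩ interior (s.B1 k G d)) := fun h =>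
        hU ⟨hdW, Or.inr h⟩
      rcases hFO _ (single_sub s ha hdW) inter_subset_right hzQ n N hN hM e he with h | h
      · exact Or.inl (Or.inl h)
      · exact Or.inr (h.mono_right inter_subset_left)
    | @b _ _ _ _ e hdW he =>
      by_cases hB : (s.BZ k G d e ∩ O').Nonempty
      · exact Or.inl (Or.inr ⟨e, ⟨he, hB⟩, rfl⟩)
      · refine Or.inr (disjoint_left.2 fun x hx hx' => hB ⟨x, ?_, hx'.2⟩)
        exact closure_interior_sub (k1 e he).1 hx

lemma h3 [T1Space X] {z : X} {κ : ℕ} (hκ : z ∈ Lm D A h κ) (a : Node X) (U : Par A)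
    (b : Node X) (ha : Val a) (hga : Good κ a) (hzP : z ∉ P s a U) (hab : Act s a U b)
    (hzb : z ∈ Reg b) : Good κ b ∧ mu κ b < mu κ a := by
  cases hab with
  | r hN hM hd => exact ⟨Nat.zero_le κ, by simp [mu]⟩
  | @a k G d _ n N e hd hN hM he =>
    have hk : k ≤ κ := hga
    rcases Nat.lt_or_ge k κ with hlt | hge
    · exact ⟨hlt, by simp only [mu]; omega⟩
    · exfalso
      have hkκ : κ = k := le_antisymm hge hk
      subst hkκ
      obtain ⟨k1, _, _⟩ := s.hK {d} (interior (s.B1 κ G d)) n N isClosed_singleton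
        isOpen_interior hN (pt_LG s ha hd hM)
      obtain ⟨c1, c2, c3, _⟩ := k1 e he
      exact hzP ⟨hd, Or.inl (subset_closure ⟨hκ, c3 (closure_interior_sub c1 hzb)⟩)⟩
  | @b k G d _ e hd he =>
    have hk : k ≤ κ := hga
    rcases Nat.lt_or_ge k κ with hlt | hge
    · exact ⟨hlt, by simp only [mu]; omega⟩
    · exfalso
      have hkκ : κ = k := le_antisymm hge hk
      subst hkκ
      obtain ⟨k1, _, _⟩ := s.hKZ κ G d ha.1 ha.2
      obtain ⟨c1, c2, c3, c4⟩ := k1 e he
      exact disjoint_left.1 c4 (closure_interior_sub c1 hzb) hκ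

/-- The hull. -/
def R (a : Node X) (U : Par A) : Set X := {x | Hull (P s) (Act s) U a x}

lemma R_cp [T1Space X] (hA : IsClosed A) {z : X} {κ : ℕ} (hκ : z ∈ Lm D A h κ) :
    ∃ O, IsOpen O ∧ z ∈ O ∧ ∀ U : Par A, z ∉ R s .root U → Disjoint (R s .root U) O :=
  hull_cp' (P s) (Act s) Val (Good κ) Reg z (fun a U b ha hab => hVal s hA a U b ha hab)
    (fun a _ => hReg a) (fun a U ha => hP s a U ha) (fun a U b ha hab => hActReg s a U b ha hab)
    (h1 s hA z) (h2 s hA z) (mu κ)
    (fun a U b ha hga _ hzP hab hzb => h3 s hκ a U b ha hga hzP hab hzb) .root trivial trivial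

lemma R_mono {a b : Node X} {U : Par A} (hab : Act s a U b) :
    R s b U ⊆ R s a U := fun _ hx => Hull.step hab hx

lemma P_sub (a : Node X) (U : Par A) : P s a U ⊆ R s a U :=
  fun _ hx => Hull.base hx

/-- The centre of an active node is in the interior of its hull. -/
lemma centre_mem [T1Space X] {k : ℕ} {G : Set X} {d : X} {U : Par A} (ha : Val (.pt k G d))
    (hd : d ∈ W D A h k U) : d ∈ interior (R s (.pt k G d) U) := by
  have hsub := single_sub s ha hd
  have h1 := D.subset_interior_Q isClosed_singleton ((isOpen_W k U).inter isOpen_interior) hsub rfl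
  exact interior_mono (fun x hx => P_sub s (.pt k G d) U ⟨hd, Or.inr hx⟩) h1

/-- The sets of the nodes are in the closure of the interior of the hull. -/
lemma P_sub_closure [T1Space X] (hA : IsClosed A) (a : Node X) (U : Par A) (ha : Val a) :
    P s a U ⊆ closure (interior (R s a U)) := by
  cases a with
  | root =>
    intro x hxQ
    change x ∈ D.Q A (W D A h 0 U) at hxQ
    have hAW := A_sub_W (D := D) (h := h) hA 0 U
    by_cases hxA : x ∈ A
    · refine subset_closure (interior_mono (P_sub s .root U) ?_)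
      exact D.subset_interior_Q hA (isOpen_W 0 U) hAW hxA
    obtain ⟨n, N, hN, hxM⟩ := D.exists_M hA hxA
    have hM : (D.M A N ∩ D.Q A (W D A h 0 U)).Nonempty := ⟨x, hxM, hxQ⟩
    have hLQ := root_L (D := D) (h := h) hA hM
    obtain ⟨k1, k2, k3⟩ := s.hK A univ n N hA isOpen_univ hN (subset_univ _)
    have hxL := D.M_subset_L A N hxM
    by_cases hxi : x ∈ interior (D.L A N)
    · refine subset_closure (interior_mono ?_ hxi)
      exact fun y hy => P_sub s .root U (hLQ hy)
    · have hxK := k3 x hxL hxi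
      refine closure_mono ?_ (mem_closure_iff.2 fun O hO hxO =>
        mem_closure_iff.1 hxK (O ∩ W D A h 0 U) (hO.inter (isOpen_W 0 U))
          ⟨hxO, D.Q_subset hA hAW hxQ⟩ |>.imp fun d hd =>
            (⟨hd.1.1, hd.1.2, hd.2⟩ : d ∈ O ∩ (W D A h 0 U ∩ s.K A univ n N)))
      rintro d ⟨hdW, hdK⟩
      have hact : Act s .root U (.pt 0 (interior (s.B A univ n N d)) d) := Act.r hN hM hdK
      exact interior_mono (R_mono s hact) (centre_mem s (hVal s hA .root U _ ha hact) hdW)
  | pt k G d =>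
    rintro x ⟨hd, hx | hx⟩
    · -- captured points
      have hclosed : IsClosed (closure (interior (R s (.pt k G d) U))) := isClosed_closure
      refine closure_minimal ?_ hclosed hx
      rintro y ⟨hyL, hyB⟩
      obtain ⟨b1, b2, b3, b4⟩ := s.hB1 k G d ha.1 ha.2
      by_cases hyi : y ∈ interior (Lm D A h k)
      · refine subset_closure (mem_interior.2 ⟨interior (Lm D A h k) ∩ interior (s.B1 k G d),
          fun w hw => ?_, isOpen_interior.inter isOpen_interior, hyi, hyB⟩)
        exact P_sub s (.pt k G d) U ⟨hd, Or.inl (subset_closure ⟨interior_subset hw.1, hw.2⟩)⟩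
      · obtain ⟨k1, k2, k3⟩ := s.hKZ k G d ha.1 ha.2
        have hyK := k3 y hyL hyB hyi
        have hyL' : ∃ n ≤ h k, ∃ N ∈ D.net n, y ∈ cls A (Sq D A h k) N := hyL
        obtain ⟨n, hn, N, hN, hyN⟩ := hyL'
        have hdN : d ∈ N := by
          by_contra hdN
          exact disjoint_left.1 (b4 n hn N hN hdN) (interior_subset hyB) hyN.2.1
        have hyQ : y ∈ Qs (Sq D A h k) U.1 :=
          cls_subset_Qs (isTN_Sq hA h k) U.2.2 (interior_subset hd) hdN hyN
        have hyW : y ∈ W D A h (k + 1) U :=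
          mem_interior_nx hA (isTN_Sq hA h k) U.2.1 U.2.2 hyL hyQ
        refine closure_mono ?_ (mem_closure_iff.2 fun O hO hyO =>
          mem_closure_iff.1 hyK (O ∩ W D A h (k + 1) U) (hO.inter (isOpen_W (k + 1) U))
            ⟨hyO, hyW⟩ |>.imp fun e he =>
              (⟨he.1.1, he.1.2, he.2⟩ : e ∈ O ∩ (W D A h (k + 1) U ∩ s.KZ k G d)))
        rintro e ⟨heW, heK⟩
        have hact : Act s (.pt k G d) U (.pt (k + 1) (interior (s.BZ k G d e)) e) :=
          Act.b hd heK
        exact interior_mono (R_mono s hact) (centre_mem s (hVal s hA _ U _ ha hact) heW)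
    · -- points of the neighbourhood of the centre
      have hsub := single_sub s ha hd
      by_cases hxd : x ∈ ({d} : Set X)
      · have : x = d := hxd
        subst this
        exact subset_closure (centre_mem s ha hd)
      obtain ⟨n, N, hN, hxM⟩ := D.exists_M isClosed_singleton hxd
      have hM : (D.M {d} N ∩ D.Q {d} (W D A h k U ∩ interior (s.B1 k G d))).Nonempty :=
        ⟨x, hxM, hx⟩
      have hLQ := pt_L s ha hd hM
      obtain ⟨k1, k2, k3⟩ := s.hK {d} (interior (s.B1 k G d)) n N isClosed_singleton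
        isOpen_interior hN (pt_LG s ha hd hM)
      have hxL := D.M_subset_L {d} N hxM
      by_cases hxi : x ∈ interior (D.L {d} N)
      · refine subset_closure (interior_mono ?_ hxi)
        exact fun y hy => P_sub s (.pt k G d) U ⟨hd, Or.inr (hLQ hy)⟩
      · have hxK := k3 x hxL hxi
        have hxW : x ∈ W D A h (k + 1) U :=
          W_mono k U (D.Q_subset isClosed_singleton hsub hx).1
        refine closure_mono ?_ (mem_closure_iff.2 fun O hO hxO =>
          mem_closure_iff.1 hxK (O ∩ W D A h (k + 1) U) (hO.inter (isOpen_W (k + 1) U))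
            ⟨hxO, hxW⟩ |>.imp fun e he =>
              (⟨he.1.1, he.1.2, he.2⟩ : e ∈ O ∩ (W D A h (k + 1) U ∩
                s.K {d} (interior (s.B1 k G d)) n N)))
        rintro e ⟨heW, heK⟩
        have hact : Act s (.pt k G d) U
          (.pt (k + 1) (interior (s.B {d} (interior (s.B1 k G d)) n N e)) e) :=
          Act.a hd hN hM heK
        exact interior_mono (R_mono s hact) (centre_mem s (hVal s hA _ U _ ha hact) heW)

lemma R_sub_closure [T1Space X] (hA : IsClosed A) (a : Node X) (U : Par A) (ha : Val a) :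
    R s a U ⊆ closure (interior (R s a U)) := by
  intro x hx
  have : Hull (P s) (Act s) U a x := hx
  clear hx
  induction this with
  | base h => exact P_sub_closure s hA _ U ha h
  | step hab _ ih =>
    exact closure_mono (interior_mono (R_mono s hab)) (ih (hVal s hA _ U _ ha hab))

/-- The hull is contained in `U`. -/
lemma R_sub_U [T1Space X] (hA : IsClosed A) (a : Node X) (U : Par A) (ha : Val a) :
    R s a U ⊆ U.1 := by
  intro x hx
  have : Hull (P s) (Act s) U a x := hx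
  clear hx
  induction this with
  | @base a x hx =>
    have hWU : ∀ k, W D A h k U ⊆ U.1 := fun k =>
      interior_subset.trans (Qs_subset (isTN_Sq hA h k) U.2.2)
    cases a with
    | root => exact hWU 0 (D.Q_subset hA (A_sub_W hA 0 U) hx)
    | pt k G d =>
      obtain ⟨hd, hx | hx⟩ := hx
      · obtain ⟨b1, b2, b3, b4⟩ := s.hB1 k G d ha.1 ha.2
        have hcl : IsClosed (Qs (Sq D A h k) U.1) := isClosed_Qs (isTN_Sq hA h k) U.2.2
        refine Qs_subset (isTN_Sq hA h k) U.2.2 (closure_minimal ?_ hcl hx)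
        rintro y ⟨hyL, hyB⟩
        obtain ⟨n, hn, N, hN, hyN⟩ := hyL
        have hdN : d ∈ N := by
          by_contra hdN
          exact disjoint_left.1 (b4 n hn N hN hdN) (interior_subset hyB) hyN.2.1
        exact cls_subset_Qs (isTN_Sq hA h k) U.2.2 (interior_subset hd) hdN hyN
      · exact hWU k (D.Q_subset isClosed_singleton (single_sub s ha hd) hx).1
  | step hab _ ih => exact ih (hVal s hA _ U _ ha hab)

end Main2

open Nb in
/-- If every point off `A` is captured at some stage then `A` has a closure-preserving outer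
network of regular closed neighbourhoods. -/
theorem hasR_of_captured {X : Type*} [TopologicalSpace X] [T1Space X] (D : Strat X)
    (A : Set X) (hA : IsClosed A) (h : ℕ → ℕ)
    (hcap : ∀ z ∉ A, ∃ k, z ∈ Lam D A (Sq D A h k) (h k)) : HasR A := by
  classical
  obtain ⟨s⟩ := Main2.exists_Sys D h (Main2.Lm D A h) (fun k => Main2.isClosed_Lm hA k)
  let mk : Set X → Main2.Par A := fun U =>
    if hU : IsOpen U ∧ A ⊆ U then ⟨U, hU⟩ else ⟨univ, isOpen_univ, subset_univ A⟩
  have hmk : ∀ U, IsOpen U → A ⊆ U → (mk U).1 = U := fun U hU hAU => by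
    simp only [mk, dif_pos (And.intro hU hAU)]
  have hroot : Main2.Val (Main2.Node.root : Main2.Node X) := trivial
  have hP : ∀ U : Main2.Par A, D.Q A (Main2.W D A h 0 U) ⊆ Main2.R s .root U := fun U =>
    Main2.P_sub s .root U
  have hcp : ∀ z, ∃ O, IsOpen O ∧ z ∈ O ∧ ∀ U : Main2.Par A,
      z ∉ Main2.R s .root U → Disjoint (Main2.R s .root U) O := by
    intro z
    by_cases hz : z ∈ A
    · refine ⟨univ, isOpen_univ, mem_univ z, fun U hzR => (hzR (hP U ?_)).elim⟩
      exact Main2.subset_Q' hA (Main2.A_sub_W hA 0 U) hz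
    · obtain ⟨k, hk⟩ := hcap z hz
      exact Main2.R_cp s hA hk
  have hcl : ∀ U : Main2.Par A, IsClosed (Main2.R s .root U) := by
    intro U
    rw [← isOpen_compl_iff, isOpen_iff_mem_nhds]
    intro z hz
    obtain ⟨O, h1, h2, h3⟩ := hcp z
    refine Filter.mem_of_superset (h1.mem_nhds h2) fun x hx hxR => ?_
    exact disjoint_left.1 (h3 U hz) hxR hx
  refine ⟨fun U => Main2.R s .root (mk U), fun U hU hAU => ⟨?_, ?_, ?_⟩, fun z => ?_⟩
  · exact (D.subset_interior_Q hA (Main2.isOpen_W 0 (mk U)) (Main2.A_sub_W hA 0 (mk U))).trans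
      (interior_mono (hP (mk U)))
  · have := Main2.R_sub_U s hA .root (mk U) hroot
    rwa [hmk U hU hAU] at this
  · exact Subset.antisymm (closure_minimal interior_subset (hcl (mk U)))
      (Main2.R_sub_closure s hA .root (mk U) hroot)
  · obtain ⟨O, h1, h2, h3⟩ := hcp z
    exact ⟨O, h1, h2, fun U _ _ hzR => h3 (mk U) hzR⟩

end Pool.Agent.H51.CI
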