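import Pool.Agent.H51.CI.Defs

/-!
# Sequences of neighbornets
-/

set_option autoImplicit false
open Topology Set

namespace Pool.Agent.H51.CI

namespace Nb

variable {X : Type*} [TopologicalSpace X]

/-- The closed set of the neighbornet `S` inside `U`. -/
def Qs (S : X → Set X) (U : Set X) : Set X := {w | ∀ y ∉ U, w ∉ S y}

/-- The classes. -/
def cls (A : Set X) (S : X → Set X) (N : Set X) : Set X := {y | y ∉ A ∧ y ∈ N ∧ N ⊆ S y}

/-- The classes of the first families. -/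
def Lam (D : Strat X) (A : Set X) (S : X → Set X) (m : ℕ) : Set X :=
  {x | ∃ n ≤ m, ∃ N ∈ D.net n, x ∈ cls A S N}

/-- The classes of one family. -/
def LamN (D : Strat X) (A : Set X) (S : X → Set X) (n : ℕ) : Set X :=
  {x | ∃ N ∈ D.net n, x ∈ cls A S N}

/-- The next neighbornet. -/
def nx (D : Strat X) (A : Set X) (S : X → Set X) (m : ℕ) (y : X) : Set X :=
  {w | w ∈ S y ∧ ∀ n ≤ m, (y ∉ LamN D A S n → w ∈ D.T (A ∪ LamN D A S n) y) ∧
    ∀ N ∈ D.net n, y ∈ D.V n N → w ∈ D.V n N}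

/-- The sequence of neighbornets. -/
def Sq (D : Strat X) (A : Set X) (h : ℕ → ℕ) : ℕ → X → Set X
  | 0 => D.T A
  | k + 1 => nx D A (Sq D A h k) (h k)

variable {D : Strat X} {A : Set X} {S : X → Set X}

lemma Qs_subset (hS : IsTN A S) {U : Set X} (hAU : A ⊆ U) : Qs S U ⊆ U := by
  intro w hw
  by_contra hwV
  exact hw w hwV (hS.self w fun h => hwV (hAU h))

lemma isClosed_Qs (hS : IsTN A S) {U : Set X} (hAU : A ⊆ U) : IsClosed (Qs S U) := by
  have : Qs S U = (⋃ y ∈ Uᶜ, S y)ᶜ := by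
    ext w; simp [Qs]
  rw [this, isClosed_compl_iff]
  exact isOpen_biUnion fun y hy => hS.isOpen y fun h => hy (hAU h)

lemma subset_interior_Qs (hS : IsTN A S) {U : Set X} (hU : IsOpen U) (hAU : A ⊆ U) :
    A ⊆ interior (Qs S U) := by
  intro a ha
  have h1 := hS.pw a ha Uᶜ
    (by rw [disjoint_left]; intro y hy hyC; exact hy (hAU hyC))
    (by rw [hU.isClosed_compl.closure_eq]; exact fun h => h (hAU ha))
  rw [mem_interior]
  refine ⟨(closure (⋃ y ∈ Uᶜ, S y))ᶜ, ?_, isClosed_closure.isOpen_compl, h1⟩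
  intro w hw y hy hwy
  exact hw (subset_closure (mem_iUnion₂.2 ⟨y, hy, hwy⟩))

lemma isClosed_cls (hS : IsTN A S) {N : Set X} (hN : IsClosed N) : IsClosed (cls A S N) := by
  rw [← isOpen_compl_iff, isOpen_iff_mem_nhds]
  intro z hz
  by_contra hcon
  have hzc : z ∈ closure (cls A S N) := by
    by_contra h
    refine hcon (Filter.mem_of_superset (isClosed_closure.isOpen_compl.mem_nhds h) ?_)
    exact compl_subset_compl.2 subset_closure
  have hzN : z ∈ N := closure_minimal (fun y hy => hy.2.1) hN hzc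
  obtain ⟨y₀, hy₀⟩ := closure_nonempty_iff.1 ⟨z, hzc⟩
  have hzA : z ∉ A := fun h => disjoint_left.1 (hS.disj y₀ hy₀.1) (hy₀.2.2 hzN) h
  obtain ⟨y, hy1, hy2⟩ := mem_closure_iff.1 hzc _ (hS.isOpen z hzA) (hS.self z hzA)
  exact hz ⟨hzA, hzN, hy2.2.2.trans (hS.trans z hzA y hy1)⟩

lemma locFin (D : Strat X) (n : ℕ) (z : X) (F : Set X → Set X)
    (hF : ∀ N ∈ D.net n, IsClosed (F N)) (hsub : ∀ N ∈ D.net n, F N ⊆ D.V n N)
    (hz : ∀ N ∈ D.net n, z ∉ F N) :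
    ∃ O, IsOpen O ∧ z ∈ O ∧ ∀ N ∈ D.net n, Disjoint (F N) O := by
  obtain ⟨O, hO, hzO, h⟩ := D.V_disc n z
  by_cases hN : ∃ N₀ ∈ D.net n, (D.V n N₀ ∩ O).Nonempty
  · obtain ⟨N₀, hN₀, hne⟩ := hN
    refine ⟨O ∩ (F N₀)ᶜ, hO.inter (hF N₀ hN₀).isOpen_compl, ⟨hzO, hz N₀ hN₀⟩, fun N hN => ?_⟩
    rw [disjoint_left]
    rintro x hx ⟨hx1, hx2⟩
    have : N = N₀ := h N hN N₀ hN₀ ⟨x, hsub N hN hx, hx1⟩ hne
    subst this
    exact hx2 hx
  · refine ⟨O, hO, hzO, fun N hN' => ?_⟩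
    rw [disjoint_left]
    intro x hx hx1
    exact hN ⟨N, hN', x, hsub N hN' hx, hx1⟩

lemma isClosed_LamN (hS : IsTN A S) (n : ℕ) : IsClosed (LamN D A S n) := by
  rw [← isOpen_compl_iff, isOpen_iff_mem_nhds]
  intro z hz
  obtain ⟨O, h1, h2, h3⟩ := locFin D n z (cls A S)
    (fun N hN => isClosed_cls hS (D.net_closed n N hN))
    (fun N hN y hy => D.V_sub n N hN hy.2.1) (fun N hN hzN => hz ⟨N, hN, hzN⟩)
  refine Filter.mem_of_superset (h1.mem_nhds h2) fun x hx => ?_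
  rintro ⟨N, hN, hxN⟩
  exact disjoint_left.1 (h3 N hN) hxN hx

lemma isClosed_Lam (hS : IsTN A S) (m : ℕ) : IsClosed (Lam D A S m) := by
  have : Lam D A S m = ⋃ n ∈ Finset.range (m + 1), LamN D A S n := by
    ext x
    simp only [Lam, LamN, mem_ofPred_eq, mem_iUnion, Finset.mem_range, exists_prop,
      Nat.lt_succ_iff]
  rw [this]
  exact isClosed_biUnion_finset fun n _ => isClosed_LamN hS n

lemma V_disjoint {n : ℕ} {N N' : Set X} (hN : N ∈ D.net n) (hN' : N' ∈ D.net n) {y : X}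
    (h : y ∈ D.V n N) (h' : y ∈ D.V n N') : N = N' := by
  obtain ⟨O, _, hy, hO⟩ := D.V_disc n y
  exact hO N hN N' hN' ⟨y, h, hy⟩ ⟨y, h', hy⟩

lemma isOpen_V_inter (D : Strat X) (n : ℕ) (y : X) :
    IsOpen {w | ∀ N ∈ D.net n, y ∈ D.V n N → w ∈ D.V n N} := by
  by_cases h : ∃ N₀ ∈ D.net n, y ∈ D.V n N₀
  · obtain ⟨N₀, hN₀, hy⟩ := h
    have : {w | ∀ N ∈ D.net n, y ∈ D.V n N → w ∈ D.V n N} = D.V n N₀ := by
      ext w
      constructor
      · exact fun h => h N₀ hN₀ hy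
      · intro hw N hN hyN
        rw [V_disjoint hN hN₀ hyN hy]
        exact hw
    rw [this]
    exact D.V_open n N₀ hN₀
  · have : {w | ∀ N ∈ D.net n, y ∈ D.V n N → w ∈ D.V n N} = univ := by
      ext w
      simp only [mem_ofPred_eq, mem_univ, iff_true]
      exact fun N hN hyN => (h ⟨N, hN, hyN⟩).elim
    rw [this]
    exact isOpen_univ

lemma isTN_nx (hA : IsClosed A) (hS : IsTN A S) (m : ℕ) : IsTN A (nx D A S m) := by
  have hC : ∀ n, IsClosed (A ∪ LamN D A S n) := fun n => hA.union (isClosed_LamN hS n)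
  have hsub : ∀ y, nx D A S m y ⊆ S y := fun y w hw => hw.1
  refine ⟨fun y hy => ?_, fun y hy => ?_, fun y hy => ?_, fun y hy y' hy' => ?_,
    fun a ha E hE haE => ?_⟩
  · have : nx D A S m y = S y ∩ ⋂ n ∈ Finset.range (m + 1),
        ((⋂ (_ : y ∉ LamN D A S n), D.T (A ∪ LamN D A S n) y) ∩
          {w | ∀ N ∈ D.net n, y ∈ D.V n N → w ∈ D.V n N}) := by
      ext w
      simp only [nx, mem_ofPred_eq, mem_inter_iff, mem_iInter, Finset.mem_range, Nat.lt_succ_iff]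
    rw [this]
    refine (hS.isOpen y hy).inter (isOpen_biInter_finset fun n _ => ?_)
    refine (isOpen_iInter_of_finite fun hyn => ?_).inter (isOpen_V_inter D n y)
    exact (D.T_tn _ (hC n)).isOpen y (fun h => h.elim hy hyn)
  · exact ⟨hS.self y hy, fun n _ => ⟨fun hyn => (D.T_tn _ (hC n)).self y
      (fun h => h.elim hy hyn), fun _ _ h => h⟩⟩
  · exact (hS.disj y hy).mono_left (hsub y)
  · intro w hw
    refine ⟨hS.trans y hy y' hy'.1 hw.1, fun n hn => ⟨fun hyn => ?_, fun N hN hyN => ?_⟩⟩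
    · have hyC : y ∉ A ∪ LamN D A S n := fun h => h.elim hy hyn
      have hy'T := (hy'.2 n hn).1 hyn
      have hy'C : y' ∉ A ∪ LamN D A S n := fun h =>
        disjoint_left.1 ((D.T_tn _ (hC n)).disj y hyC) hy'T h
      exact (D.T_tn _ (hC n)).trans y hyC y' hy'T
        ((hw.2 n hn).1 fun h => hy'C (Or.inr h))
    · exact (hw.2 n hn).2 N hN ((hy'.2 n hn).2 N hN hyN)
  · intro hcl
    refine hS.pw a ha E hE haE (closure_mono ?_ hcl)
    exact iUnion₂_mono fun y _ => hsub y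

lemma nx_sub (D : Strat X) (A : Set X) (S : X → Set X) (m : ℕ) (y : X) :
    nx D A S m y ⊆ S y := fun _ hw => hw.1

/-- Captured points of `Qs S U` are in the interior of the next set. -/
lemma mem_interior_nx (hA : IsClosed A) (hS : IsTN A S) {m : ℕ} {U : Set X} (hU : IsOpen U)
    (hAU : A ⊆ U) {x : X} (hx : x ∈ Lam D A S m) (hxQ : x ∈ Qs S U) :
    x ∈ interior (Qs (nx D A S m) U) := by
  obtain ⟨n, hn, N₀, hN₀, hxN₀⟩ := hx
  have hC : IsClosed (A ∪ LamN D A S n) := hA.union (isClosed_LamN hS n)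
  have hxU : x ∈ U := Qs_subset hS hAU hxQ
  obtain ⟨O, hO, hxO, hV⟩ := D.V_disc n x
  have hxL : x ∈ A ∪ LamN D A S n := Or.inr ⟨N₀, hN₀, hxN₀⟩
  have hpw := (D.T_tn _ hC).pw x hxL (Uᶜ \ (A ∪ LamN D A S n)) disjoint_sdiff_left
    (fun h => by
      have := closure_mono sdiff_subset h
      rw [hU.isClosed_compl.closure_eq] at this
      exact this hxU)
  rw [mem_interior]
  refine ⟨O ∩ (closure (⋃ y ∈ Uᶜ \ (A ∪ LamN D A S n), D.T (A ∪ LamN D A S n) y))ᶜ, ?_,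
    hO.inter isClosed_closure.isOpen_compl, hxO, hpw⟩
  rintro w ⟨hw1, hw2⟩ y hy hwy
  have hyA : y ∉ A := fun h => hy (hAU h)
  obtain ⟨hwS, hwn⟩ := hwy
  obtain ⟨h1, h2⟩ := hwn n hn
  by_cases hyL : y ∈ LamN D A S n
  · obtain ⟨N, hN, hyN⟩ := hyL
    have hyV : y ∈ D.V n N := D.V_sub n N hN hyN.2.1
    have hwV := h2 N hN hyV
    have : N = N₀ := hV N hN N₀ hN₀ ⟨w, hwV, hw1⟩
      ⟨x, D.V_sub n N₀ hN₀ hxN₀.2.1, hxO⟩
    subst this
    exact hxQ y hy (hyN.2.2 hxN₀.2.1)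
  · exact hw2 (subset_closure (mem_iUnion₂.2 ⟨y, ⟨hy, fun h => h.elim hyA hyL⟩, h1 hyL⟩))

/-- Classes whose set `N` meets `Qs S U` are contained in it. -/
lemma cls_subset_Qs (hS : IsTN A S) {U : Set X} (hAU : A ⊆ U) {d : X} (hd : d ∈ Qs S U)
    {N : Set X} (hdN : d ∈ N) : cls A S N ⊆ Qs S U := by
  intro z hz y hy hzy
  have hyA : y ∉ A := fun h => hy (hAU h)
  exact hd y hy (hS.trans y hyA z hzy (hz.2.2 hdN))

lemma isTN_Sq (hA : IsClosed A) (h : ℕ → ℕ) (k : ℕ) : IsTN A (Sq D A h k) := by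
  induction k with
  | zero => exact D.T_tn A hA
  | succ k ih => exact isTN_nx hA ih (h k)

lemma Sq_succ_sub (h : ℕ → ℕ) (k : ℕ) (y : X) : Sq D A h (k + 1) y ⊆ Sq D A h k y :=
  nx_sub D A _ _ y

lemma Qs_mono (h : ℕ → ℕ) (k : ℕ) (U : Set X) :
    Qs (Sq D A h k) U ⊆ Qs (Sq D A h (k + 1)) U :=
  fun _ hw y hy hwy => hw y hy (Sq_succ_sub h k y hwy)

lemma Sq_congr (D : Strat X) (A : Set X) {h h' : ℕ → ℕ} {k : ℕ} (hh : ∀ i < k, h i = h' i) :
    Sq D A h k = Sq D A h' k := by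
  induction k with
  | zero => rfl
  | succ k ih =>
    funext y
    change nx D A (Sq D A h k) (h k) y = nx D A (Sq D A h' k) (h' k) y
    rw [ih fun i hi => hh i (by omega), hh k (by omega)]

end Nb

end Pool.Agent.H51.CI
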