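import Pool.Agent.H51.CI.Defs

/-!
# Module NET: from a sigma-closure-preserving closed network to a sigma-discrete closed network

Proof (Siwiec-Nagata). `F' n = ⋃ k ≤ n, F k` increasing, unions of subfamilies closed.
For a set `U` let `Un m U = ⋃ {N ∈ F' m : N ⊆ U}`: closed, contained in `U`, monotone in `U` and
`m`, and `⋃ m, Un m U = U` for `U` open. For `n` and `x` put
`O n x = X ∖ ⋃ {N ∈ F' n : x ∉ N}` (open, contains `x`), `C n x = ⋂ {N ∈ F' n : x ∈ N}` (closed).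
`y ∈ O n x` iff every `N ∈ F' n` containing `y` contains `x`; so `y ∈ O n x → O n y ⊆ O n x`.
The class of `x` is `[x] = O n x ∩ C n x` (points with the same `N ∈ F' n` as `x`).
`net (n,m) = {C n x ∩ Un m (O n x) | x}` (closed sets; pair `(n,m)` via `Nat.unpair`); note
`C n x ∩ Un m (O n x) ⊆ [x]`.
Discrete: let `z ∈ X`, `O = O n z ∩ (X ∖ ⋃ {N ∈ F' m : z ∉ N})`. If `O` meets
`C n x ∩ Un m (O n x)` in `w`: `w ∈ N ∈ F' m`, `N ⊆ O n x`; then `z ∈ N` (else `w ∉ O`), so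
`z ∈ O n x`, so `O n z ⊆ O n x`; and `w ∈ [x] ∩ O n z` gives `O n x ⊆ O n w ⊆ O n z`. So
`O n x = O n z`, hence `x` and `z` are in the same members of `F' n` and the set
`C n x ∩ Un m (O n x)` is the one of `z`.
Network: `x ∈ U` open; `N ∈ F' n`, `x ∈ N ⊆ U`; then `C n x ⊆ N ⊆ U` and `x ∈ Un m (O n x)` for
some `m`.
-/

set_option autoImplicit false
open Topology Set

namespace Pool.Agent.H51.CI

section

variable {X : Type*} [TopologicalSpace X]

/-- the union of the first `n + 1` families -/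
private def netF (F : ℕ → Set (Set X)) (n : ℕ) : Set (Set X) := {N | ∃ k ≤ n, N ∈ F k}

private theorem netF_closed {F : ℕ → Set (Set X)} (hF : ∀ n, ∀ 𝒱 ⊆ F n, IsClosed (⋃₀ 𝒱)) (n : ℕ)
    (𝒱 : Set (Set X)) (h : 𝒱 ⊆ netF F n) : IsClosed (⋃₀ 𝒱) := by
  have e : ⋃₀ 𝒱 = ⋃ k ∈ Finset.range (n + 1), ⋃₀ (𝒱 ∩ F k) := by
    ext x
    constructor
    · rintro ⟨N, hN, hx⟩
      obtain ⟨k, hk, hNk⟩ := h hN
      exact mem_iUnion₂.2 ⟨k, Finset.mem_range.2 (by omega), N, ⟨hN, hNk⟩, hx⟩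
    · intro hx
      obtain ⟨k, _, N, hN, hx⟩ := mem_iUnion₂.1 hx
      exact ⟨N, hN.1, hx⟩
  rw [e]
  exact isClosed_biUnion_finset (fun k _ => hF k _ inter_subset_right)

private theorem netF_mem_closed {F : ℕ → Set (Set X)}
    (hF : ∀ n, ∀ 𝒱 ⊆ F n, IsClosed (⋃₀ 𝒱)) {n : ℕ} {N : Set X} (h : N ∈ netF F n) :
    IsClosed N := by
  obtain ⟨k, _, hk⟩ := h
  have := hF k {N} (singleton_subset_iff.2 hk)
  rwa [sUnion_singleton] at this

/-- the open star -/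
private def netO (F : ℕ → Set (Set X)) (n : ℕ) (x : X) : Set X :=
  (⋃₀ {N | N ∈ netF F n ∧ x ∉ N})ᶜ

/-- the intersection of the members containing `x` -/
private def netC (F : ℕ → Set (Set X)) (n : ℕ) (x : X) : Set X := ⋂₀ {N | N ∈ netF F n ∧ x ∈ N}

/-- the union of the members inside `U` -/
private def netU (F : ℕ → Set (Set X)) (m : ℕ) (U : Set X) : Set X :=
  ⋃₀ {N | N ∈ netF F m ∧ N ⊆ U}

private theorem mem_netO {F : ℕ → Set (Set X)} {n : ℕ} {x y : X} :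
    y ∈ netO F n x ↔ ∀ N ∈ netF F n, y ∈ N → x ∈ N := by
  unfold netO
  rw [mem_compl_iff, mem_sUnion, not_exists]
  constructor
  · intro h N hN hy
    by_contra hx
    exact h N ⟨⟨hN, hx⟩, hy⟩
  · rintro h N ⟨⟨hN, hx⟩, hy⟩
    exact hx (h N hN hy)

private theorem mem_netC {F : ℕ → Set (Set X)} {n : ℕ} {x y : X} :
    y ∈ netC F n x ↔ ∀ N ∈ netF F n, x ∈ N → y ∈ N := by
  unfold netC
  rw [mem_sInter]
  exact ⟨fun h N hN hx => h N ⟨hN, hx⟩, fun h N hN => h N hN.1 hN.2⟩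

private theorem netO_open {F : ℕ → Set (Set X)} (hF : ∀ n, ∀ 𝒱 ⊆ F n, IsClosed (⋃₀ 𝒱)) (n : ℕ)
    (x : X) : IsOpen (netO F n x) := by
  unfold netO
  rw [isOpen_compl_iff]
  exact netF_closed hF n _ (fun N hN => hN.1)

private theorem netO_self {F : ℕ → Set (Set X)} (n : ℕ) (x : X) : x ∈ netO F n x :=
  mem_netO.2 (fun _ _ h => h)

end

theorem exists_disc_net {X : Type*} [TopologicalSpace X] (h : HasCPNet X) :
    ∃ net : ℕ → Set (Set X), (∀ n, ∀ N ∈ net n, IsClosed N) ∧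
      (∀ (x : X) (U : Set X), IsOpen U → x ∈ U → ∃ n, ∃ N ∈ net n, x ∈ N ∧ N ⊆ U) ∧
      ∀ n z, ∃ O, IsOpen O ∧ z ∈ O ∧ ∀ N ∈ net n, ∀ N' ∈ net n,
        (N ∩ O).Nonempty → (N' ∩ O).Nonempty → N = N' := by
  obtain ⟨F, hF, hnet⟩ := h
  refine ⟨fun k => {N | ∃ x, N = netC F k.unpair.1 x ∩
    netU F k.unpair.2 (netO F k.unpair.1 x)}, ?_, ?_, ?_⟩
  · rintro k _ ⟨x, rfl⟩
    apply IsClosed.inter
    · unfold netC
      exact isClosed_sInter (fun N hN => netF_mem_closed hF hN.1)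
    · unfold netU
      exact netF_closed hF _ _ (fun N hN => hN.1)
  · intro x U hU hx
    obtain ⟨n, N, hN, hxN, hNU⟩ := hnet x U hU hx
    obtain ⟨m, N', hN', hxN', hNO⟩ := hnet x _ (netO_open hF n x) (netO_self n x)
    refine ⟨Nat.pair n m, netC F n x ∩ netU F m (netO F n x), ⟨x, ?_⟩, ⟨?_, ?_⟩, ?_⟩
    · rw [Nat.unpair_pair]
    · exact mem_netC.2 (fun _ _ h => h)
    · exact ⟨N', ⟨⟨m, le_rfl, hN'⟩, hNO⟩, hxN'⟩
    · intro y hy
      exact hNU (mem_netC.1 hy.1 N ⟨n, le_rfl, hN⟩ hxN)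
  · intro k z
    refine ⟨netO F k.unpair.1 z ∩ netO F k.unpair.2 z,
      (netO_open hF _ z).inter (netO_open hF _ z), ⟨netO_self _ z, netO_self _ z⟩, ?_⟩
    have key : ∀ x, ((netC F k.unpair.1 x ∩ netU F k.unpair.2 (netO F k.unpair.1 x)) ∩
        (netO F k.unpair.1 z ∩ netO F k.unpair.2 z)).Nonempty →
        netC F k.unpair.1 x ∩ netU F k.unpair.2 (netO F k.unpair.1 x) =
        netC F k.unpair.1 z ∩ netU F k.unpair.2 (netO F k.unpair.1 z) := by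
      rintro x ⟨w, ⟨hw1, N0, ⟨hN0, hN0O⟩, hwN0⟩, hw2, hw3⟩
      have hz : z ∈ N0 := mem_netO.1 hw3 N0 hN0 hwN0
      have hzx := mem_netO.1 (hN0O hz)
      have hsame : ∀ N ∈ netF F k.unpair.1, (x ∈ N ↔ z ∈ N) := fun N hN =>
        ⟨fun hx => mem_netO.1 hw2 N hN (mem_netC.1 hw1 N hN hx), hzx N hN⟩
      have e1 : netC F k.unpair.1 x = netC F k.unpair.1 z := by
        ext y
        rw [mem_netC, mem_netC]
        exact ⟨fun h N hN hz => h N hN ((hsame N hN).2 hz),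
          fun h N hN hx => h N hN ((hsame N hN).1 hx)⟩
      have e2 : netO F k.unpair.1 x = netO F k.unpair.1 z := by
        ext y
        rw [mem_netO, mem_netO]
        exact ⟨fun h N hN hy => (hsame N hN).1 (h N hN hy),
          fun h N hN hy => (hsame N hN).2 (h N hN hy)⟩
      rw [e1, e2]
    rintro _ ⟨x, rfl⟩ _ ⟨x', rfl⟩ h1 h2
    rw [key x h1, key x' h2]

/-- Stratification: with the notation above `g m y = H y (O m y)` where `H` is the monotone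
normality operator. Given `K` closed, `z ∉ K`: some `N ∈ F' k` has `z ∈ N ⊆ Kᶜ`; for `y ∈ K`,
`m ≥ k` we have `z ∉ O m y` and `y ∉ Kᶜ`, so `H y (O m y)` is disjoint from `H z Kᶜ`. -/
theorem exists_g {X : Type*} [TopologicalSpace X] (h : HasCPNet X) (hMN : HasMN X) :
    ∃ g : ℕ → X → Set X, (∀ n y, IsOpen (g n y)) ∧ (∀ n y, y ∈ g n y) ∧
      ∀ (K : Set X) (z : X), IsClosed K → z ∉ K →
        ∃ (n : ℕ) (O : Set X), IsOpen O ∧ z ∈ O ∧ ∀ y ∈ K, ∀ m ≥ n, Disjoint (g m y) O := by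
  obtain ⟨F, hF, hnet⟩ := h
  obtain ⟨H, hH1, hH2⟩ := hMN
  refine ⟨fun m y => H y (netO F m y),
    fun m y => (hH1 y _ (netO_open hF m y) (netO_self m y)).1,
    fun m y => (hH1 y _ (netO_open hF m y) (netO_self m y)).2.1, ?_⟩
  intro K z hK hz
  obtain ⟨k, N, hN, hzN, hNK⟩ := hnet z Kᶜ hK.isOpen_compl hz
  refine ⟨k, H z Kᶜ, (hH1 z _ hK.isOpen_compl hz).1, (hH1 z _ hK.isOpen_compl hz).2.1, ?_⟩
  intro y hy m hm
  rw [disjoint_iff_inter_eq_empty, ← not_nonempty_iff_eq_empty]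
  intro hne
  rcases hH2 y _ z _ (netO_open hF m y) (netO_self m y) hK.isOpen_compl hz hne with h1 | h1
  · exact h1 hy
  · exact hNK (mem_netO.1 h1 N ⟨k, hm, hN⟩ hzN) hy

end Pool.Agent.H51.CI
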