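import Pool.Agent.H51.CI.Kernel
import Pool.Agent.H51.CI.Hull
import Pool.Agent.H51.CI.Asm

/-!
# The tree of nodes

-/

set_option autoImplicit false
open Topology Set

namespace Pool.Agent.H51.CI

namespace Main1

variable {X : Type*} [TopologicalSpace X]

/-- The levels. -/
def Lam (D : Strat X) (A : Set X) (k : ℕ) : Set X :=
  {x | ∃ n ≤ k, ∃ N ∈ D.net n, x ∈ D.L A N}

/-- Points of the classes in the interior of the closure of the class. -/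
def Ins (D : Strat X) (A : Set X) (k : ℕ) : Set X :=
  {x | ∃ n ≤ k, ∃ N ∈ D.net n, x ∈ D.M A N ∧ x ∈ interior (D.L A N)}

/-- The good points. -/
def Good (D : Strat X) (A : Set X) (k : ℕ) : Set X := (Lam D A k)ᶜ ∪ Ins D A k

lemma locFin (D : Strat X) (n : ℕ) (z : X) (F : Set X → Set X)
    (hF : ∀ N ∈ D.net n, IsClosed (F N)) (hsub : ∀ N ∈ D.net n, F N ⊆ D.V n N)
    (hz : ∀ N ∈ D.net n, z ∉ F N) :
    ∃ O, IsOpen O ∧ z ∈ O ∧ ∀ N ∈ D.net n, Disjoint (F N) O := by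
  obtain ⟨O, hO, hzO, h⟩ := D.V_disc n z
  by_cases hN : ∃ N₀ ∈ D.net n, (D.V n N₀ ∩ O).Nonempty
  · obtain ⟨N₀, hN₀, hne⟩ := hN
    refine ⟨O ∩ (F N₀)ᶜ, hO.inter (hF N₀ hN₀).isOpen_compl, ⟨hzO, hz N₀ hN₀⟩, fun N hN => ?_⟩
    rw [disjoint_left]
    rintro x hx ⟨hx1, hx2⟩
    have : N = N₀ := h N hN N₀ hN₀ ⟨x, hsub N hN hx, hx1⟩ hne
    subst this
    exact hx2 hx
  · refine ⟨O, hO, hzO, fun N hN' => ?_⟩
    rw [disjoint_left]
    intro x hx hx1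
    exact hN ⟨N, hN', x, hsub N hN' hx, hx1⟩

lemma L_subset_V (D : Strat X) {n : ℕ} {N : Set X} (A : Set X) (hN : N ∈ D.net n) :
    D.L A N ⊆ D.V n N := (D.L_subset hN).trans (D.V_sub n N hN)

lemma isClosed_Lam (D : Strat X) (A : Set X) (k : ℕ) : IsClosed (Lam D A k) := by
  rw [← isOpen_compl_iff, isOpen_iff_mem_nhds]
  intro z hz
  have h : ∀ n, ∃ O, IsOpen O ∧ z ∈ O ∧ (n ≤ k → ∀ N ∈ D.net n, Disjoint (D.L A N) O) := by
    intro n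
    by_cases hn : n ≤ k
    · obtain ⟨O, h1, h2, h3⟩ := locFin D n z (D.L A) (fun N _ => D.isClosed_L A N)
        (fun N hN => L_subset_V D A hN) (fun N hN hzN => hz ⟨n, hn, N, hN, hzN⟩)
      exact ⟨O, h1, h2, fun _ => h3⟩
    · exact ⟨univ, isOpen_univ, mem_univ z, fun h => (hn h).elim⟩
  choose O hO hzO h using h
  have : (⋂ n ∈ Finset.range (k + 1), O n) ∈ 𝓝 z :=
    (isOpen_biInter_finset fun n _ => hO n).mem_nhds (mem_iInter₂.2 fun n _ => hzO n)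
  refine Filter.mem_of_superset this fun x hx => ?_
  rintro ⟨n, hn, N, hN, hxN⟩
  exact disjoint_left.1 (h n hn N hN) hxN (mem_iInter₂.1 hx n (Finset.mem_range.2 (by omega)))

lemma Lam_mono (D : Strat X) (A : Set X) {j k : ℕ} (h : j ≤ k) : Lam D A j ⊆ Lam D A k :=
  fun _ ⟨n, hn, N, hN, hx⟩ => ⟨n, hn.trans h, N, hN, hx⟩

lemma dense_Good (D : Strat X) (A : Set X) (k : ℕ) : Dense (Good D A k) := by
  rw [dense_iff_inter_open]
  intro O hO hne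
  by_contra hcon
  have h0 : ∀ x ∈ O, x ∉ Ins D A k := fun x hx h => hcon ⟨x, hx, Or.inr h⟩
  have h1 : ∀ n ≤ k, ∀ N ∈ D.net n, ∀ x ∈ O, x ∉ interior (D.L A N) := by
    intro n hn N hN x hx hxi
    have : x ∈ closure (D.M A N) := interior_subset hxi
    obtain ⟨y, ⟨hy1, hy2⟩, hy3⟩ := mem_closure_iff.1 this (O ∩ interior (D.L A N))
      (hO.inter isOpen_interior) ⟨hx, hxi⟩
    exact h0 y hy1 ⟨n, hn, N, hN, hy3, hy2⟩
  have h2 : ∀ n ≤ k, ∀ O', IsOpen O' → O'.Nonempty → O' ⊆ O → ∃ O'' ⊆ O', IsOpen O'' ∧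
      O''.Nonempty ∧ ∀ N ∈ D.net n, Disjoint (D.L A N) O'' := by
    intro n hn O' hO' hne' hsub
    obtain ⟨x, hx⟩ := hne'
    obtain ⟨O₁, hO₁, hxO₁, h⟩ := D.V_disc n x
    by_cases hN : ∃ N₀ ∈ D.net n, (D.V n N₀ ∩ O₁).Nonempty
    · obtain ⟨N₀, hN₀, hne₀⟩ := hN
      refine ⟨O' ∩ O₁ ∩ (D.L A N₀)ᶜ, fun y hy => hy.1.1,
        (hO'.inter hO₁).inter (D.isClosed_L A N₀).isOpen_compl, ?_, fun N hN => ?_⟩
      · by_contra hemp
        rw [not_nonempty_iff_eq_empty] at hemp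
        refine h1 n hn N₀ hN₀ x (hsub hx) ?_
        rw [mem_interior]
        refine ⟨O' ∩ O₁, fun y hy => ?_, hO'.inter hO₁, hx, hxO₁⟩
        by_contra hyL
        have : y ∈ O' ∩ O₁ ∩ (D.L A N₀)ᶜ := ⟨hy, hyL⟩
        rw [hemp] at this
        exact this
      · rw [disjoint_left]
        rintro y hy ⟨⟨_, hy2⟩, hy3⟩
        have : N = N₀ := h N hN N₀ hN₀ ⟨y, L_subset_V D A hN hy, hy2⟩ hne₀
        subst this
        exact hy3 hy
    · refine ⟨O' ∩ O₁, inter_subset_left, hO'.inter hO₁, ⟨x, hx, hxO₁⟩, fun N hN' => ?_⟩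
      rw [disjoint_left]
      intro y hy hy1
      exact hN ⟨N, hN', y, L_subset_V D A hN' hy, hy1.2⟩
  have h3 : ∀ j ≤ k + 1, ∃ O' ⊆ O, IsOpen O' ∧ O'.Nonempty ∧
      ∀ n < j, ∀ N ∈ D.net n, Disjoint (D.L A N) O' := by
    intro j
    induction j with
    | zero => exact fun _ => ⟨O, Subset.rfl, hO, hne, fun n hn => by omega⟩
    | succ j ih =>
      intro hj
      obtain ⟨O', hsub, hO', hne', h'⟩ := ih (by omega)
      obtain ⟨O'', hsub', hO'', hne'', h''⟩ := h2 j (by omega) O' hO' hne' hsub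
      refine ⟨O'', hsub'.trans hsub, hO'', hne'', fun n hn N hN => ?_⟩
      rcases Nat.lt_succ_iff_lt_or_eq.1 hn with hn | rfl
      · exact (h' n hn N hN).mono_right hsub'
      · exact h'' N hN
  obtain ⟨O', hsub, _, ⟨x, hx⟩, h'⟩ := h3 (k + 1) le_rfl
  refine hcon ⟨x, hsub hx, Or.inl ?_⟩
  rintro ⟨n, hn, N, hN, hxN⟩
  exact disjoint_left.1 (h' n (by omega) N hN) hxN hx

/-- The chosen data. -/
structure Sys (D : Strat X) (A : Set X) where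
  K : Set X → Set X → ℕ → Set X → Set X
  B : Set X → Set X → ℕ → Set X → X → Set X
  hK : ∀ C G n N, IsClosed C → IsOpen G → N ∈ D.net n → D.L C N ⊆ G →
    (∀ d ∈ K C G n N, IsClosed (B C G n N d) ∧ d ∈ interior (B C G n N d) ∧
      B C G n N d ⊆ G ∧ B C G n N d ⊆ D.V n N ∧ B C G n N d ⊆ ⋃ y ∈ D.L C N, D.g n y) ∧
    (∀ z ∉ D.L C N, ∃ O, IsOpen O ∧ z ∈ O ∧
      {d | d ∈ K C G n N ∧ (B C G n N d ∩ O).Nonempty}.Finite) ∧
    (∀ y ∈ D.L C N, y ∉ interior (D.L C N) → y ∈ closure (K C G n N))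
  E : ℕ → Set X → X → ℕ → Set X
  Sf : ℕ → Set X → X → Set X → Set X
  B2 : ℕ → Set X → X → ℕ → X → Set X
  hE : ∀ k G d, IsOpen G → d ∈ G →
    (∀ m, E k G d m ⊆ G ∩ Good D A k) ∧
    (∀ U, IsOpen U → d ∈ U → Sf k G d U ⊆ (⋃ m, E k G d m) ∧ d ∈ closure (Sf k G d U) ∧
      closure (Sf k G d U) ⊆ U) ∧
    (∀ z, ∃ O, IsOpen O ∧ z ∈ O ∧ ∀ U, IsOpen U → d ∈ U → z ∉ closure (Sf k G d U) →
      Disjoint (Sf k G d U) O) ∧
    (∀ m, ∀ e ∈ E k G d m, IsClosed (B2 k G d m e) ∧ e ∈ interior (B2 k G d m e) ∧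
      B2 k G d m e ⊆ G ∧ B2 k G d m e ⊆ D.g m e) ∧
    (∀ m z, ∃ O, IsOpen O ∧ z ∈ O ∧ ∀ e ∈ E k G d m, ∀ e' ∈ E k G d m,
      (B2 k G d m e ∩ O).Nonempty → (B2 k G d m e' ∩ O).Nonempty → e = e')
  B3 : ℕ → X → Set X
  hB3 : ∀ k e, e ∉ Lam D A k → IsClosed (B3 k e) ∧ e ∈ interior (B3 k e) ∧
    Disjoint (B3 k e) (Lam D A k)
  W : ℕ → X → Set X → Set X
  hW : ∀ k e H, IsOpen H → e ∈ H → e ∈ Ins D A k → IsOpen (W k e H) ∧ e ∈ W k e H ∧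
    closure (W k e H) ⊆ H ∧ ∃ n, ∃ N ∈ D.net n, e ∈ D.M A N ∧ closure (W k e H) ⊆ D.L A N

lemma exists_K [T1Space X] (D : Strat X) {C G : Set X} {n : ℕ} {N : Set X}
    (hG : IsOpen G) (hN : N ∈ D.net n) (hL : D.L C N ⊆ G) :
    ∃ (K : Set X) (B : X → Set X),
      (∀ d ∈ K, IsClosed (B d) ∧ d ∈ interior (B d) ∧
        B d ⊆ G ∧ B d ⊆ D.V n N ∧ B d ⊆ ⋃ y ∈ D.L C N, D.g n y) ∧
      (∀ z ∉ D.L C N, ∃ O, IsOpen O ∧ z ∈ O ∧ {d | d ∈ K ∧ (B d ∩ O).Nonempty}.Finite) ∧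
      (∀ y ∈ D.L C N, y ∉ interior (D.L C N) → y ∈ closure K) := by
  set L := D.L C N with hLdef
  have hLc : IsClosed L := D.isClosed_L C N
  set G' : Set X := G ∩ D.V n N ∩ ⋃ y ∈ L, D.g n y with hG'
  have hG'o : IsOpen G' :=
    (hG.inter (D.V_open n N hN)).inter (isOpen_biUnion fun y _ => D.g_open n y)
  have hLG' : L ⊆ G' := fun y hy =>
    ⟨⟨hL hy, L_subset_V D C hN hy⟩, mem_iUnion₂.2 ⟨y, hy, D.g_self n y⟩⟩
  set F := D.Q L G' with hF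
  have hFc : IsClosed F := D.isClosed_Q hLc hLG'
  have hLF : L ⊆ interior F := D.subset_interior_Q hLc hG'o hLG'
  obtain ⟨K, B, h1, h2, h3, h4⟩ := D.exists_kernel (L := L) (F := F) (G := G')
    (A := interior F \ L) hLc disjoint_sdiff_left
    (sdiff_subset.trans interior_subset) hFc (D.Q_subset hLc hLG') hG'o
  refine ⟨K, B, fun d hd => ?_, h3, fun y hy hyi => h4 ⟨hy, ?_⟩⟩
  · obtain ⟨a, b, c⟩ := h2 d hd
    exact ⟨a, b, fun x hx => (c hx).1.1.1, fun x hx => (c hx).1.1.2, fun x hx => (c hx).1.2⟩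
  · rw [mem_closure_iff]
    intro O hO hyO
    by_contra hemp
    rw [not_nonempty_iff_eq_empty] at hemp
    refine hyi (mem_interior.2 ⟨O ∩ interior F, fun x hx => ?_, hO.inter isOpen_interior,
      hyO, hLF hy⟩)
    by_contra hxL
    have : x ∈ O ∩ (interior F \ L) := ⟨hx.1, hx.2, hxL⟩
    rw [hemp] at this
    exact this

lemma exists_E [T1Space X] (D : Strat X) (h : HasPS X) (A : Set X) (k : ℕ) (G : Set X) (d : X)
    (hG : IsOpen G) (hd : d ∈ G) :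
    ∃ (E : ℕ → Set X) (Sf : Set X → Set X) (B2 : ℕ → X → Set X),
    (∀ m, E m ⊆ G ∩ Good D A k) ∧
    (∀ U, IsOpen U → d ∈ U → Sf U ⊆ (⋃ m, E m) ∧ d ∈ closure (Sf U) ∧
      closure (Sf U) ⊆ U) ∧
    (∀ z, ∃ O, IsOpen O ∧ z ∈ O ∧ ∀ U, IsOpen U → d ∈ U → z ∉ closure (Sf U) →
      Disjoint (Sf U) O) ∧
    (∀ m, ∀ e ∈ E m, IsClosed (B2 m e) ∧ e ∈ interior (B2 m e) ∧
      B2 m e ⊆ G ∧ B2 m e ⊆ D.g m e) ∧
    (∀ m z, ∃ O, IsOpen O ∧ z ∈ O ∧ ∀ e ∈ E m, ∀ e' ∈ E m,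
      (B2 m e ∩ O).Nonempty → (B2 m e' ∩ O).Nonempty → e = e') := by
  classical
  have hcl : d ∈ closure (G ∩ Good D A k) := (dense_Good D A k).open_subset_closure_inter hG hd
  obtain ⟨E, S, h1, h2, h3, h4⟩ := h _ d hcl
  choose W hW1 hW2 using fun m => D.exp (E m) (h2 m)
  have hB : ∀ m e, ∃ B : Set X, e ∈ E m → IsClosed B ∧ e ∈ interior B ∧
      B ⊆ G ∩ D.g m e ∩ W m e := by
    intro m e
    by_cases he : e ∈ E m
    · obtain ⟨B, b1, b2, b3⟩ := D.exists_closed_nhd (G ∩ D.g m e ∩ W m e)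
        ((hG.inter (D.g_open m e)).inter (hW1 m e he).1) e
        ⟨⟨(h1 m he).1, D.g_self m e⟩, (hW1 m e he).2⟩
      exact ⟨B, fun _ => ⟨b1, b2, b3⟩⟩
    · exact ⟨∅, fun h => (he h).elim⟩
  choose B2 hB2 using hB
  refine ⟨E, S, B2, h1, h3, h4, fun m e he => ?_, fun m z => ?_⟩
  · obtain ⟨b1, b2, b3⟩ := hB2 m e he
    exact ⟨b1, b2, fun x hx => (b3 hx).1.1, fun x hx => (b3 hx).1.2⟩
  · obtain ⟨O, hO, hz, hO'⟩ := hW2 m z
    refine ⟨O, hO, hz, fun e he e' he' h1 h2 => hO' e he e' he' ?_ ?_⟩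
    · exact h1.mono (inter_subset_inter_left _ fun x hx => ((hB2 m e he).2.2 hx).2)
    · exact h2.mono (inter_subset_inter_left _ fun x hx => ((hB2 m e' he').2.2 hx).2)

lemma exists_Sys [T1Space X] (D : Strat X) (h : HasPS X) (A : Set X) : Nonempty (Sys D A) := by
  classical
  -- the kernels
  have h1 : ∀ (C G : Set X) (n : ℕ) (N : Set X), ∃ (K : Set X) (B : X → Set X),
      IsOpen G → N ∈ D.net n → D.L C N ⊆ G →
      (∀ d ∈ K, IsClosed (B d) ∧ d ∈ interior (B d) ∧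
        B d ⊆ G ∧ B d ⊆ D.V n N ∧ B d ⊆ ⋃ y ∈ D.L C N, D.g n y) ∧
      (∀ z ∉ D.L C N, ∃ O, IsOpen O ∧ z ∈ O ∧ {d | d ∈ K ∧ (B d ∩ O).Nonempty}.Finite) ∧
      (∀ y ∈ D.L C N, y ∉ interior (D.L C N) → y ∈ closure K) := by
    intro C G n N
    by_cases hh : IsOpen G ∧ N ∈ D.net n ∧ D.L C N ⊆ G
    · obtain ⟨K, B, h⟩ := exists_K D hh.1 hh.2.1 hh.2.2
      exact ⟨K, B, fun _ _ _ => h⟩
    · exact ⟨∅, fun _ => ∅, fun a b c => (hh ⟨a, b, c⟩).elim⟩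
  choose K B hK using h1
  have h2 : ∀ (k : ℕ) (G : Set X) (d : X), ∃ (E : ℕ → Set X) (Sf : Set X → Set X)
      (B2 : ℕ → X → Set X), IsOpen G → d ∈ G →
    (∀ m, E m ⊆ G ∩ Good D A k) ∧
    (∀ U, IsOpen U → d ∈ U → Sf U ⊆ (⋃ m, E m) ∧ d ∈ closure (Sf U) ∧
      closure (Sf U) ⊆ U) ∧
    (∀ z, ∃ O, IsOpen O ∧ z ∈ O ∧ ∀ U, IsOpen U → d ∈ U → z ∉ closure (Sf U) →
      Disjoint (Sf U) O) ∧
    (∀ m, ∀ e ∈ E m, IsClosed (B2 m e) ∧ e ∈ interior (B2 m e) ∧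
      B2 m e ⊆ G ∧ B2 m e ⊆ D.g m e) ∧
    (∀ m z, ∃ O, IsOpen O ∧ z ∈ O ∧ ∀ e ∈ E m, ∀ e' ∈ E m,
      (B2 m e ∩ O).Nonempty → (B2 m e' ∩ O).Nonempty → e = e') := by
    intro k G d
    by_cases hh : IsOpen G ∧ d ∈ G
    · obtain ⟨E, Sf, B2, h⟩ := exists_E D h A k G d hh.1 hh.2
      exact ⟨E, Sf, B2, fun _ _ => h⟩
    · exact ⟨fun _ => ∅, fun _ => ∅, fun _ _ => ∅, fun a b => (hh ⟨a, b⟩).elim⟩
  choose E Sf B2 hE using h2
  have h3 : ∀ (k : ℕ) (e : X), ∃ B3 : Set X, e ∉ Lam D A k → IsClosed B3 ∧ e ∈ interior B3 ∧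
      Disjoint B3 (Lam D A k) := by
    intro k e
    by_cases he : e ∉ Lam D A k
    · obtain ⟨B, b1, b2, b3⟩ := D.exists_closed_nhd (Lam D A k)ᶜ
        (isClosed_Lam D A k).isOpen_compl e he
      exact ⟨B, fun _ => ⟨b1, b2, disjoint_left.2 fun x hx hx' => b3 hx hx'⟩⟩
    · exact ⟨∅, fun h => (he h).elim⟩
  choose B3 hB3 using h3
  have h4 : ∀ (k : ℕ) (e : X) (H : Set X), ∃ W : Set X, IsOpen H → e ∈ H → e ∈ Ins D A k →
      IsOpen W ∧ e ∈ W ∧ closure W ⊆ H ∧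
        ∃ n, ∃ N ∈ D.net n, e ∈ D.M A N ∧ closure W ⊆ D.L A N := by
    intro k e H
    by_cases hh : IsOpen H ∧ e ∈ H ∧ e ∈ Ins D A k
    · obtain ⟨hH, heH, n, hn, N, hN, heM, hei⟩ := hh
      obtain ⟨B, b1, b2, b3⟩ := D.exists_closed_nhd (H ∩ interior (D.L A N))
        (hH.inter isOpen_interior) e ⟨heH, hei⟩
      have hcl : closure (interior B) ⊆ B := closure_minimal interior_subset b1
      exact ⟨interior B, fun _ _ _ => ⟨isOpen_interior, b2, fun x hx => (b3 (hcl hx)).1,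
        n, N, hN, heM, fun x hx => interior_subset (b3 (hcl hx)).2⟩⟩
    · exact ⟨∅, fun a b c => (hh ⟨a, b, c⟩).elim⟩
  choose W hW using h4
  exact ⟨⟨K, B, fun C G n N _ hG hN hL => hK C G n N hG hN hL, E, Sf, B2, hE, B3, hB3, W, hW⟩⟩

/-- The nodes. -/
inductive Node (X : Type*)
  | one (k : ℕ) (C G : Set X)
  | two (k : ℕ) (G : Set X) (d : X)
  | three (e : X) (W : Set X)

variable {D : Strat X} {A : Set X} (s : Sys D A)

/-- The sets of the nodes. -/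
def P : Node X → TopologicalSpace.Opens X → Set X
  | .one _ C G, U => {x | C ⊆ U ∩ G ∧ x ∈ D.Q C (U ∩ G)}
  | .two k G d, U => {x | d ∈ U ∧ x ∈ closure (s.Sf k G d (U ∩ G))}
  | .three _ W, _ => closure W

/-- The active children. -/
inductive Act : Node X → TopologicalSpace.Opens X → Node X → Prop
  | a {k : ℕ} {C G : Set X} {U : TopologicalSpace.Opens X} {n : ℕ} {N : Set X} {d : X} :
      C ⊆ U ∩ G → N ∈ D.net n → (D.M C N ∩ D.Q C (U ∩ G)).Nonempty → d ∈ s.K C G n N →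
      Act (.one k C G) U (.two k (interior (s.B C G n N d)) d)
  | b {k : ℕ} {G : Set X} {d : X} {U : TopologicalSpace.Opens X} {m : ℕ} {e : X} :
      d ∈ U → e ∈ s.Sf k G d (U ∩ G) → e ∈ s.E k G d m → e ∉ Lam D A k →
      Act (.two k G d) U
        (.one (k + 1) {e} (interior (s.B2 k G d m e) ∩ interior (s.B3 k e)))
  | c {k : ℕ} {G : Set X} {d : X} {U : TopologicalSpace.Opens X} {m : ℕ} {e : X} :
      d ∈ U → e ∈ s.Sf k G d (U ∩ G) → e ∈ s.E k G d m → e ∈ Ins D A k →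
      Act (.two k G d) U (.three e (s.W k e (interior (s.B2 k G d m e))))

/-- Valid nodes. -/
def Val (D : Strat X) (A : Set X) : Node X → Prop
  | .one k C G => IsClosed C ∧ IsOpen G ∧ ∀ j < k, Disjoint (closure G) (Lam D A j)
  | .two k G d => IsOpen G ∧ d ∈ G ∧ ∀ j < k, Disjoint (closure G) (Lam D A j)
  | .three e W => IsOpen W ∧ e ∈ W

/-- Regions. -/
def Reg : Node X → Set X
  | .one _ _ G => closure G
  | .two _ G _ => closure G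
  | .three _ W => closure W

end Main1

end Pool.Agent.H51.CI
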