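import Pool.Agent.H51.CI.Kernel
import Pool.Agent.H51.CI.Nb

/-!
# The second tree of nodes: chosen data
-/

set_option autoImplicit false
open Topology Set

namespace Pool.Agent.H51.CI

namespace Main2

open Nb

variable {X : Type*} [TopologicalSpace X]

/-- The chosen data. `Lm k` is the closed set captured at stage `k`. -/
structure Sys (D : Strat X) (h : ℕ → ℕ) (Lm : ℕ → Set X) where
  K : Set X → Set X → ℕ → Set X → Set X
  B : Set X → Set X → ℕ → Set X → X → Set X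
  hK : ∀ C G n N, IsClosed C → IsOpen G → N ∈ D.net n → D.L C N ⊆ G →
    (∀ d ∈ K C G n N, IsClosed (B C G n N d) ∧ d ∈ interior (B C G n N d) ∧
      B C G n N d ⊆ G ∧ B C G n N d ⊆ D.V n N ∧ B C G n N d ⊆ ⋃ y ∈ D.L C N, D.g n y) ∧
    (∀ z ∉ D.L C N, ∃ O, IsOpen O ∧ z ∈ O ∧
      {d | d ∈ K C G n N ∧ (B C G n N d ∩ O).Nonempty}.Finite) ∧
    (∀ y ∈ D.L C N, y ∉ interior (D.L C N) → y ∈ closure (K C G n N))
  B1 : ℕ → Set X → X → Set X
  hB1 : ∀ k G d, IsOpen G → d ∈ G → IsClosed (B1 k G d) ∧ d ∈ interior (B1 k G d) ∧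
    B1 k G d ⊆ G ∧ ∀ n ≤ h k, ∀ N ∈ D.net n, d ∉ N → Disjoint (B1 k G d) N
  KZ : ℕ → Set X → X → Set X
  BZ : ℕ → Set X → X → X → Set X
  hKZ : ∀ k G d, IsOpen G → d ∈ G →
    (∀ e ∈ KZ k G d, IsClosed (BZ k G d e) ∧ e ∈ interior (BZ k G d e) ∧
      BZ k G d e ⊆ G ∧ Disjoint (BZ k G d e) (Lm k)) ∧
    (∀ z ∉ closure (Lm k ∩ interior (B1 k G d)), ∃ O, IsOpen O ∧ z ∈ O ∧
      {e | e ∈ KZ k G d ∧ (BZ k G d e ∩ O).Nonempty}.Finite) ∧
    (∀ x ∈ Lm k, x ∈ interior (B1 k G d) → x ∉ interior (Lm k) → x ∈ closure (KZ k G d))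

lemma exists_K [T1Space X] (D : Strat X) {C G : Set X} {n : ℕ} {N : Set X}
    (hG : IsOpen G) (hN : N ∈ D.net n) (hL : D.L C N ⊆ G) :
    ∃ (K : Set X) (B : X → Set X),
      (∀ d ∈ K, IsClosed (B d) ∧ d ∈ interior (B d) ∧
        B d ⊆ G ∧ B d ⊆ D.V n N ∧ B d ⊆ ⋃ y ∈ D.L C N, D.g n y) ∧
      (∀ z ∉ D.L C N, ∃ O, IsOpen O ∧ z ∈ O ∧ {d | d ∈ K ∧ (B d ∩ O).Nonempty}.Finite) ∧
      (∀ y ∈ D.L C N, y ∉ interior (D.L C N) → y ∈ closure K) := by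
  set L := D.L C N with hLdef
  have hLc : IsClosed L := D.isClosed_L C N
  set G' : Set X := G ∩ D.V n N ∩ ⋃ y ∈ L, D.g n y with hG'
  have hG'o : IsOpen G' :=
    (hG.inter (D.V_open n N hN)).inter (isOpen_biUnion fun y _ => D.g_open n y)
  have hLG' : L ⊆ G' := fun y hy =>
    ⟨⟨hL hy, (D.L_subset hN).trans (D.V_sub n N hN) hy⟩, mem_iUnion₂.2 ⟨y, hy, D.g_self n y⟩⟩
  set F := D.Q L G' with hF
  have hFc : IsClosed F := D.isClosed_Q hLc hLG'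
  have hLF : L ⊆ interior F := D.subset_interior_Q hLc hG'o hLG'
  obtain ⟨K, B, h1, h2, h3, h4⟩ := D.exists_kernel (L := L) (F := F) (G := G')
    (A := interior F \ L) hLc disjoint_sdiff_left
    (sdiff_subset.trans interior_subset) hFc (D.Q_subset hLc hLG') hG'o
  refine ⟨K, B, fun d hd => ?_, h3, fun y hy hyi => h4 ⟨hy, ?_⟩⟩
  · obtain ⟨a, b, c⟩ := h2 d hd
    exact ⟨a, b, fun x hx => (c hx).1.1.1, fun x hx => (c hx).1.1.2, fun x hx => (c hx).1.2⟩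
  · rw [mem_closure_iff]
    intro O hO hyO
    by_contra hemp
    rw [not_nonempty_iff_eq_empty] at hemp
    refine hyi (mem_interior.2 ⟨O ∩ interior F, fun x hx => ?_, hO.inter isOpen_interior,
      hyO, hLF hy⟩)
    by_contra hxL
    have : x ∈ O ∩ (interior F \ L) := ⟨hx.1, hx.2, hxL⟩
    rw [hemp] at this
    exact this

lemma exists_B1 [T1Space X] (D : Strat X) (m : ℕ) {G : Set X} {d : X} (hG : IsOpen G)
    (hd : d ∈ G) : ∃ B : Set X, IsClosed B ∧ d ∈ interior B ∧ B ⊆ G ∧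
      ∀ n ≤ m, ∀ N ∈ D.net n, d ∉ N → Disjoint B N := by
  have hO : ∀ n, ∃ O, IsOpen O ∧ d ∈ O ∧ ∀ N ∈ D.net n, d ∉ N → Disjoint N O := by
    intro n
    obtain ⟨O, h1, h2, h3⟩ := locFin D n d (fun N => {x | x ∈ N ∧ d ∉ N})
      (fun N hN => by
        by_cases hdN : d ∈ N
        · have : {x | x ∈ N ∧ d ∉ N} = ∅ := by ext x; simp [hdN]
          rw [this]; exact isClosed_empty
        · have : {x | x ∈ N ∧ d ∉ N} = N := by ext x; simp [hdN]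
          rw [this]; exact D.net_closed n N hN)
      (fun N hN x hx => D.V_sub n N hN hx.1) (fun N hN hdN => hdN.2 hdN.1)
    refine ⟨O, h1, h2, fun N hN hdN => disjoint_left.2 fun x hx hxO => ?_⟩
    exact disjoint_left.1 (h3 N hN) ⟨hx, hdN⟩ hxO
  choose O hO1 hO2 hO3 using hO
  obtain ⟨B, b1, b2, b3⟩ := D.exists_closed_nhd (G ∩ ⋂ n ∈ Finset.range (m + 1), O n)
    (hG.inter (isOpen_biInter_finset fun n _ => hO1 n)) d
    ⟨hd, mem_iInter₂.2 fun n _ => hO2 n⟩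
  refine ⟨B, b1, b2, b3.trans inter_subset_left, fun n hn N hN hdN => ?_⟩
  refine disjoint_left.2 fun x hx hxN => disjoint_left.1 (hO3 n N hN hdN) hxN ?_
  exact mem_iInter₂.1 (b3 hx).2 n (Finset.mem_range.2 (by omega))

lemma exists_KZ [T1Space X] (D : Strat X) {La G B : Set X} (hLa : IsClosed La)
    (hG : IsOpen G) (hB : IsClosed B) (hBG : B ⊆ G) :
    ∃ (KZ : Set X) (BZ : X → Set X),
      (∀ e ∈ KZ, IsClosed (BZ e) ∧ e ∈ interior (BZ e) ∧ BZ e ⊆ G ∧ Disjoint (BZ e) La) ∧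
      (∀ z ∉ closure (La ∩ interior B), ∃ O, IsOpen O ∧ z ∈ O ∧
        {e | e ∈ KZ ∧ (BZ e ∩ O).Nonempty}.Finite) ∧
      (∀ x ∈ La, x ∈ interior B → x ∉ interior La → x ∈ closure KZ) := by
  classical
  have hC : IsClosed (interior B)ᶜ := isOpen_interior.isClosed_compl
  have hTN := D.T_tn _ hC
  let W : Set X := ⋃ y ∈ La ∩ interior B, D.T (interior B)ᶜ y
  have hWo : IsOpen W := isOpen_biUnion fun y hy => hTN.isOpen y fun h => h hy.2
  have hWB : W ⊆ interior B := iUnion₂_subset fun y hy x hx => by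
    by_contra hxB
    exact disjoint_left.1 (hTN.disj y fun h => h hy.2) hx hxB
  have hLW : La ∩ interior B ⊆ W := fun y hy =>
    mem_iUnion₂.2 ⟨y, hy, hTN.self y fun h => h hy.2⟩
  have hWcl : closure W ∩ La ⊆ closure (La ∩ interior B) := by
    rintro x ⟨hx, hxL⟩
    by_cases hxB : x ∈ interior B
    · exact subset_closure ⟨hxL, hxB⟩
    · by_contra hcon
      refine hTN.pw x hxB (La ∩ interior B) ?_ hcon hx
      exact disjoint_left.2 fun y hy hy' => hy' hy.2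
  have hWG : closure W ⊆ G := (closure_minimal (hWB.trans interior_subset) hB).trans hBG
  set Z := closure (La ∩ interior B) with hZ
  have hZL : Z ⊆ La := closure_minimal inter_subset_left hLa
  obtain ⟨K, B', h1, h2, h3, h4⟩ := D.exists_kernel (L := Z) (F := closure W) (G := G)
    (A := W \ Z) isClosed_closure disjoint_sdiff_left
    (sdiff_subset.trans subset_closure) isClosed_closure hWG hG
  have hKLa : ∀ e ∈ K, e ∉ La := fun e he heL => by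
    obtain ⟨h5, h6⟩ := h1 he
    exact h6 (hWcl ⟨closure_mono sdiff_subset h5, heL⟩)
  have hex : ∀ e, ∃ B2 : Set X, e ∈ K → IsClosed B2 ∧ e ∈ interior B2 ∧ B2 ⊆ Laᶜ := by
    intro e
    by_cases he : e ∈ K
    · obtain ⟨B2, b1, b2, b3⟩ := D.exists_closed_nhd Laᶜ hLa.isOpen_compl e (hKLa e he)
      exact ⟨B2, fun _ => ⟨b1, b2, b3⟩⟩
    · exact ⟨∅, fun h => (he h).elim⟩
  choose B2 hB2 using hex
  refine ⟨K, fun e => B' e ∩ B2 e, fun e he => ?_, fun z hz => ?_, fun x hxL hxB hxi => ?_⟩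
  · obtain ⟨a, b, c⟩ := h2 e he
    obtain ⟨a', b', c'⟩ := hB2 e he
    refine ⟨a.inter a', ?_, inter_subset_left.trans (c.trans sdiff_subset), ?_⟩
    · rw [interior_inter]; exact ⟨b, b'⟩
    · exact disjoint_left.2 fun x hx hxL => c' hx.2 hxL
  · obtain ⟨O, hO, hzO, hfin⟩ := h3 z hz
    refine ⟨O, hO, hzO, hfin.subset ?_⟩
    rintro e ⟨he, hne⟩
    exact ⟨he, hne.mono (inter_subset_inter_left _ inter_subset_left)⟩
  · refine h4 ⟨subset_closure ⟨hxL, hxB⟩, ?_⟩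
    rw [mem_closure_iff]
    intro O hO hxO
    by_contra hemp
    rw [not_nonempty_iff_eq_empty] at hemp
    refine hxi (mem_interior.2 ⟨O ∩ W, fun y hy => ?_, hO.inter hWo, hxO, hLW ⟨hxL, hxB⟩⟩)
    by_contra hyL
    have : y ∈ O ∩ (W \ Z) := ⟨hy.1, hy.2, fun h => hyL (hZL h)⟩
    rw [hemp] at this
    exact this

lemma exists_Sys [T1Space X] (D : Strat X) (h : ℕ → ℕ) (Lm : ℕ → Set X)
    (hLm : ∀ k, IsClosed (Lm k)) : Nonempty (Sys D h Lm) := by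
  classical
  have h1 : ∀ (C G : Set X) (n : ℕ) (N : Set X), ∃ (K : Set X) (B : X → Set X),
      IsOpen G → N ∈ D.net n → D.L C N ⊆ G →
      (∀ d ∈ K, IsClosed (B d) ∧ d ∈ interior (B d) ∧
        B d ⊆ G ∧ B d ⊆ D.V n N ∧ B d ⊆ ⋃ y ∈ D.L C N, D.g n y) ∧
      (∀ z ∉ D.L C N, ∃ O, IsOpen O ∧ z ∈ O ∧ {d | d ∈ K ∧ (B d ∩ O).Nonempty}.Finite) ∧
      (∀ y ∈ D.L C N, y ∉ interior (D.L C N) → y ∈ closure K) := by
    intro C G n N
    by_cases hh : IsOpen G ∧ N ∈ D.net n ∧ D.L C N ⊆ G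
    · obtain ⟨K, B, h⟩ := exists_K D hh.1 hh.2.1 hh.2.2
      exact ⟨K, B, fun _ _ _ => h⟩
    · exact ⟨∅, fun _ => ∅, fun a b c => (hh ⟨a, b, c⟩).elim⟩
  choose K B hK using h1
  have h2 : ∀ (k : ℕ) (G : Set X) (d : X), ∃ B1 : Set X, IsOpen G → d ∈ G → IsClosed B1 ∧
      d ∈ interior B1 ∧ B1 ⊆ G ∧ ∀ n ≤ h k, ∀ N ∈ D.net n, d ∉ N → Disjoint B1 N := by
    intro k G d
    by_cases hh : IsOpen G ∧ d ∈ G
    · obtain ⟨B1, hB1⟩ := exists_B1 D (h k) hh.1 hh.2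
      exact ⟨B1, fun _ _ => hB1⟩
    · exact ⟨∅, fun a b => (hh ⟨a, b⟩).elim⟩
  choose B1 hB1 using h2
  have h3 : ∀ (k : ℕ) (G : Set X) (d : X), ∃ (KZ : Set X) (BZ : X → Set X),
      IsOpen G → d ∈ G →
      (∀ e ∈ KZ, IsClosed (BZ e) ∧ e ∈ interior (BZ e) ∧ BZ e ⊆ G ∧ Disjoint (BZ e) (Lm k)) ∧
      (∀ z ∉ closure (Lm k ∩ interior (B1 k G d)), ∃ O, IsOpen O ∧ z ∈ O ∧
        {e | e ∈ KZ ∧ (BZ e ∩ O).Nonempty}.Finite) ∧
      (∀ x ∈ Lm k, x ∈ interior (B1 k G d) → x ∉ interior (Lm k) → x ∈ closure KZ) := by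
    intro k G d
    by_cases hh : IsOpen G ∧ d ∈ G
    · obtain ⟨b1, b2, b3, b4⟩ := hB1 k G d hh.1 hh.2
      obtain ⟨KZ, BZ, hKZ⟩ := exists_KZ D (hLm k) hh.1 b1 b3
      exact ⟨KZ, BZ, fun _ _ => hKZ⟩
    · exact ⟨∅, fun _ => ∅, fun a b => (hh ⟨a, b⟩).elim⟩
  choose KZ BZ hKZ using h3
  exact ⟨⟨K, B, fun C G n N _ hG hN hL => hK C G n N hG hN hL, B1, hB1, KZ, BZ, hKZ⟩⟩

end Main2

end Pool.Agent.H51.CI
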