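import Pool.Agent.H51.CI.Incr

/-!
# Module TN: transitive neighbornets from a sigma-closure-preserving closed quasi-base

Proof. Let `B n` be the closure-preserving families; replace them by
`B' n = ⋃ k ≤ n, B k` (again unions of subfamilies are closed), increasing in `n`.
For `y : X` put `G n y = X ∖ ⋃ {V ∈ B' n : y ∉ V}`, an open neighbourhood of `y`; if
`y' ∈ G n y` then `G n y' ⊆ G n y`; `G n y` decreases with `n`.
Fix the closed set `C`. `F m = ⋃ {V ∈ B' m : V ∩ C = ∅}` (closed, disjoint from `C`),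
`O m = interior (F m)` (increasing), `E m l = ⋃ {V ∈ B' l : V ⊆ O m}` (closed, increasing in
both). For `y ∉ C`: `n y = min {m : y ∈ O m}`, `l y = min {l : y ∈ E (n y) l}`,
`N y = max (n y) (l y)`, and
`T y = G (N y) y ∩ O (n y) ∖ ⋃ {E r s : r ≤ N y, s ≤ N y, y ∉ E r s}`.
* open, contains `y`, disjoint from `C` (as `O (n y)` is).
* transitive: let `y' ∈ T y`. `y' ∈ O (n y)`, so `n y' ≤ n y`. Claim `N y' ≥ N y`.
  If `n y' = n y = m` and `l y > m` then `y ∉ E m (l y - 1)`, so `y' ∉ E m (l y - 1)`, so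
  `l y' ≥ l y`. If `n y' = n y = m ≥ l y` then `N y' ≥ m = N y`.
  If `n y' < n y = m` then `y ∉ O (m-1) ⊇ E (m-1) (N y)`, so `y' ∉ E (m-1) (N y) ⊇ E (n y') (N y)`,
  hence `l y' > N y`. From the claim all three parts of `T y'` are contained in those of `T y`.
* pw: `a ∈ C`, `a ∉ closure D`: there are `n`, `V ∈ B' n` with `a ∈ interior V`, `V ∩ D = ∅`.
  For `y ∈ D`: if `N y ≥ n` then `T y ⊆ G (N y) y ⊆ X ∖ V`; if `N y < n` then
  `T y ⊆ O (n y) ⊆ F n`. So the union is contained in `(X ∖ V) ∪ F n` and `a` is not in the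
  closure of this set.
-/

set_option autoImplicit false
open Topology Set

namespace Pool.Agent.H51.CI

section

variable {X : Type*} [TopologicalSpace X] (B : ℕ → Set (Set X))

/-- open star -/
private def tG (n : ℕ) (y : X) : Set X := (⋃₀ {V | V ∈ B n ∧ y ∉ V})ᶜ

private def tF (C : Set X) (m : ℕ) : Set X := ⋃₀ {V | V ∈ B m ∧ Disjoint V C}

private def tE (C : Set X) (m l : ℕ) : Set X := ⋃₀ {V | V ∈ B l ∧ V ⊆ interior (tF B C m)}

variable {B}

private lemma mem_tG {n : ℕ} {x y : X} : y ∈ tG B n x ↔ ∀ N ∈ B n, y ∈ N → x ∈ N := by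
  unfold tG
  rw [mem_compl_iff, mem_sUnion, not_exists]
  constructor
  · intro h N hN hy
    by_contra hx
    exact h N ⟨⟨hN, hx⟩, hy⟩
  · rintro h N ⟨⟨hN, hx⟩, hy⟩
    exact hx (h N hN hy)

private lemma tF_mono (hB : ∀ m n, m ≤ n → B m ⊆ B n) {C : Set X} {m n : ℕ} (h : m ≤ n) :
    tF B C m ⊆ tF B C n := sUnion_subset_sUnion fun V hV => ⟨hB m n h hV.1, hV.2⟩

private lemma tE_mono (hB : ∀ m n, m ≤ n → B m ⊆ B n) {C : Set X} {m n l k : ℕ} (h : m ≤ n)
    (h' : l ≤ k) : tE B C m l ⊆ tE B C n k :=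
  sUnion_subset_sUnion fun _ hV => ⟨hB l k h' hV.1, hV.2.trans (interior_mono (tF_mono hB h))⟩

private lemma tE_sub {C : Set X} {m l : ℕ} : tE B C m l ⊆ interior (tF B C m) :=
  sUnion_subset fun _ hV => hV.2

private lemma tF_disj {C : Set X} {m : ℕ} : Disjoint (tF B C m) C := by
  rw [disjoint_left]
  rintro x ⟨V, hV, hx⟩ hC
  exact disjoint_left.1 hV.2 hx hC

end

theorem hasTN_of_hasM2 {X : Type*} [TopologicalSpace X] (h : HasM2 X) : HasTN X := by
  classical
  intro C hC
  obtain ⟨B, hB1, hB2, hB3⟩ := h.incr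
  have hcF : ∀ m, IsClosed (tF B C m) := fun m => hB1 m _ fun V hV => hV.1
  have hcE : ∀ m l, IsClosed (tE B C m l) := fun m l => hB1 l _ fun V hV => hV.1
  have hoG : ∀ n y, IsOpen (tG B n y) := fun n y => (hB1 n _ fun V hV => hV.1).isOpen_compl
  have hn : ∀ y ∉ C, ∃ m, y ∈ interior (tF B C m) := by
    intro y hy
    obtain ⟨m, V, hV, h1, h2⟩ := hB3 y Cᶜ hC.isOpen_compl hy
    refine ⟨m, interior_mono ?_ h1⟩
    exact subset_sUnion_of_mem ⟨hV, disjoint_left.2 fun x hx hx' => h2 hx hx'⟩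
  let nn : X → ℕ := fun y => sInf {m | y ∈ interior (tF B C m)}
  have hnn : ∀ y ∉ C, y ∈ interior (tF B C (nn y)) := fun y hy => Nat.sInf_mem (hn y hy)
  have hnn' : ∀ y m, y ∈ interior (tF B C m) → nn y ≤ m := fun y m h => Nat.sInf_le h
  have hl : ∀ y ∉ C, ∃ l, y ∈ tE B C (nn y) l := by
    intro y hy
    obtain ⟨l, V, hV, h1, h2⟩ := hB3 y _ isOpen_interior (hnn y hy)
    exact ⟨l, V, ⟨hV, h2⟩, interior_subset h1⟩
  let ll : X → ℕ := fun y => sInf {l | y ∈ tE B C (nn y) l}
  have hll : ∀ y ∉ C, y ∈ tE B C (nn y) (ll y) := fun y hy => Nat.sInf_mem (hl y hy)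
  have hll' : ∀ y l, y ∈ tE B C (nn y) l → ll y ≤ l := fun y l h => Nat.sInf_le h
  let NN : X → ℕ := fun y => max (nn y) (ll y)
  let T : X → Set X := fun y => {w | w ∈ tG B (NN y) y ∧ w ∈ interior (tF B C (nn y)) ∧
    ∀ r ≤ NN y, ∀ s ≤ NN y, y ∉ tE B C r s → w ∉ tE B C r s}
  -- the claim
  have hclaim : ∀ y ∉ C, ∀ y' ∈ T y, y' ∉ C ∧ nn y' ≤ nn y ∧ NN y ≤ NN y' := by
    rintro y hy y' ⟨h1, h2, h3⟩
    have hy'C : y' ∉ C := fun h => disjoint_left.1 tF_disj (interior_subset h2) h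
    have hle : nn y' ≤ nn y := hnn' y' _ h2
    refine ⟨hy'C, hle, ?_⟩
    rcases lt_or_eq_of_le hle with hlt | heq
    · -- `nn y' < nn y`
      have hy1 : y ∉ tE B C (nn y - 1) (NN y) := fun h => by
        have := hnn' y _ (tE_sub h)
        omega
      have hy2 := h3 (nn y - 1) ((Nat.sub_le _ _).trans (le_max_left _ _)) (NN y) le_rfl hy1
      by_contra hcon
      have hlN : ll y' ≤ NN y := (le_max_right (nn y') (ll y')).trans (not_le.1 hcon).le
      exact hy2 (tE_mono hB2 (by omega) hlN (hll y' hy'C))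
    · by_cases hlm : ll y ≤ nn y
      · have : NN y = nn y := max_eq_left hlm
        rw [this, ← heq]
        exact le_max_left _ _
      · have hNl : NN y = ll y := max_eq_right (by omega)
        rw [hNl]
        have hy1 : y ∉ tE B C (nn y) (ll y - 1) := fun h => by
          have := hll' y _ h
          omega
        have hy2 := h3 (nn y) (le_max_left _ _) (ll y - 1)
          ((Nat.sub_le _ _).trans (le_max_right _ _)) hy1
        by_contra hcon
        have hl' : ll y' ≤ ll y - 1 := by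
          have := (le_max_right (nn y') (ll y')).trans_lt (not_le.1 hcon)
          omega
        refine hy2 (tE_mono hB2 (by omega) hl' (hll y' hy'C))
  refine ⟨T, ⟨fun y hy => ?_, fun y hy => ?_, fun y hy => ?_, fun y hy y' hy' => ?_,
    fun a ha D hD haD => ?_⟩⟩
  · have : T y = tG B (NN y) y ∩ interior (tF B C (nn y)) ∩
        ⋂ r ∈ Finset.range (NN y + 1), ⋂ s ∈ Finset.range (NN y + 1),
          ⋂ (_ : y ∉ tE B C r s), (tE B C r s)ᶜ := by
      ext w
      simp only [T, mem_ofPred_eq, mem_inter_iff, mem_iInter, Finset.mem_range, mem_compl_iff,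
        Nat.lt_succ_iff]
      tauto
    rw [this]
    refine ((hoG _ _).inter isOpen_interior).inter
      (isOpen_biInter_finset fun r _ => isOpen_biInter_finset fun s _ =>
        isOpen_iInter_of_finite fun _ => (hcE r s).isOpen_compl)
  · exact ⟨mem_tG.2 fun _ _ h => h, hnn y hy, fun _ _ _ _ h => h⟩
  · rw [disjoint_left]
    rintro x ⟨_, h2, _⟩ hx
    exact disjoint_left.1 tF_disj (interior_subset h2) hx
  · obtain ⟨hy'C, hn', hN'⟩ := hclaim y hy y' hy'
    rintro w ⟨w1, w2, w3⟩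
    obtain ⟨h1, h2, h3⟩ := hy'
    refine ⟨?_, interior_mono (tF_mono hB2 hn') w2, fun r hr s hs hy0 => ?_⟩
    · rw [mem_tG] at w1 h1 ⊢
      intro N hN hw
      exact h1 N hN (w1 N (hB2 _ _ hN' hN) hw)
    · exact w3 r (hr.trans hN') s (hs.trans hN') (h3 r hr s hs hy0)
  · obtain ⟨n, V, hV, h1, h2⟩ := hB3 a (closure D)ᶜ isClosed_closure.isOpen_compl haD
    have hsub : (⋃ y ∈ D, T y) ⊆ Vᶜ ∪ tF B C n := by
      refine iUnion₂_subset fun y hy w hw => ?_
      by_cases hN : n ≤ NN y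
      · left
        intro hwV
        have := mem_tG.1 hw.1 V (hB2 _ _ hN hV) hwV
        exact h2 this (subset_closure hy)
      · right
        have : nn y ≤ n := (le_max_left (nn y) (ll y)).trans (not_le.1 hN).le
        exact tF_mono hB2 this (interior_subset hw.2.1)
    intro hcl
    have := closure_mono hsub hcl
    rw [closure_union, (hcF n).closure_eq, closure_compl] at this
    rcases this with h | h
    · exact h h1
    · exact disjoint_left.1 tF_disj h ha

end Pool.Agent.H51.CI
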